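import Mathlib

/-!
# Reduction of rational numbers modulo `N`

`Rep N x r` says that the rational number `x` has a denominator prime to `N` and reduces to `r`
modulo `N`.
-/

namespace Pool.Agent.R499.RatMod

/-- `x` has denominator prime to `N` and reduces to `r` in `ZMod N`. -/
def Rep (N : ℕ) (x : ℚ) (r : ZMod N) : Prop :=
  ∃ (A : ℤ) (D : ℕ), D.Coprime N ∧ D ≠ 0 ∧ x * D = A ∧ (A : ZMod N) = r * (D : ZMod N)

variable {N : ℕ}

lemma Rep.int (a : ℤ) : Rep N (a : ℚ) (a : ZMod N) :=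
  ⟨a, 1, Nat.coprime_one_left N, one_ne_zero, by simp, by simp⟩

lemma Rep.nat (a : ℕ) : Rep N (a : ℚ) (a : ZMod N) :=
  ⟨a, 1, Nat.coprime_one_left N, one_ne_zero, by simp, by simp⟩

lemma Rep.zero : Rep N 0 0 := by simpa using Rep.int (N := N) 0

lemma Rep.one : Rep N 1 1 := by simpa using Rep.int (N := N) 1

lemma Rep.add {x y : ℚ} {r s : ZMod N} (hx : Rep N x r) (hy : Rep N y s) :
    Rep N (x + y) (r + s) := by
  obtain ⟨A, D, h1, h2, h3, h4⟩ := hx
  obtain ⟨A', D', h1', h2', h3', h4'⟩ := hy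
  refine ⟨A * D' + A' * D, D * D', h1.mul_left h1', mul_ne_zero h2 h2', ?_, ?_⟩
  · push_cast
    linear_combination (D' : ℚ) * h3 + (D : ℚ) * h3'
  · push_cast
    linear_combination (D' : ZMod N) * h4 + (D : ZMod N) * h4'

lemma Rep.mul {x y : ℚ} {r s : ZMod N} (hx : Rep N x r) (hy : Rep N y s) :
    Rep N (x * y) (r * s) := by
  obtain ⟨A, D, h1, h2, h3, h4⟩ := hx
  obtain ⟨A', D', h1', h2', h3', h4'⟩ := hy
  refine ⟨A * A', D * D', h1.mul_left h1', mul_ne_zero h2 h2', ?_, ?_⟩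
  · push_cast
    linear_combination (y * D' : ℚ) * h3 + (A : ℚ) * h3'
  · push_cast
    linear_combination (s * D' : ZMod N) * h4 + (A : ZMod N) * h4'

lemma Rep.neg {x : ℚ} {r : ZMod N} (hx : Rep N x r) : Rep N (-x) (-r) := by
  obtain ⟨A, D, h1, h2, h3, h4⟩ := hx
  exact ⟨-A, D, h1, h2, by push_cast; linear_combination -h3,
    by push_cast; linear_combination -h4⟩

lemma Rep.sub {x y : ℚ} {r s : ZMod N} (hx : Rep N x r) (hy : Rep N y s) :
    Rep N (x - y) (r - s) := by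
  rw [sub_eq_add_neg, sub_eq_add_neg]; exact hx.add hy.neg

lemma Rep.pow {x : ℚ} {r : ZMod N} (hx : Rep N x r) (k : ℕ) : Rep N (x ^ k) (r ^ k) := by
  induction k with
  | zero => simpa using Rep.one (N := N)
  | succ k ih => rw [pow_succ, pow_succ]; exact ih.mul hx

lemma Rep.inv_nat {d : ℕ} (hd : d.Coprime N) (hd0 : d ≠ 0) :
    Rep N ((d : ℚ)⁻¹) ((d : ZMod N)⁻¹) := by
  refine ⟨1, d, hd, hd0, ?_, ?_⟩
  · have : (d : ℚ) ≠ 0 := by exact_mod_cast hd0
    field_simp
    norm_num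
  · have := ZMod.coe_mul_inv_eq_one d hd
    rw [mul_comm] at this
    push_cast
    exact this.symm

lemma Rep.sum {ι : Type*} (s : Finset ι) (f : ι → ℚ) (g : ι → ZMod N)
    (h : ∀ i ∈ s, Rep N (f i) (g i)) : Rep N (∑ i ∈ s, f i) (∑ i ∈ s, g i) := by
  classical
  induction s using Finset.induction_on with
  | empty => simpa using Rep.zero (N := N)
  | insert a s ha ih =>
    rw [Finset.sum_insert ha, Finset.sum_insert ha]
    exact (h a (Finset.mem_insert_self a s)).add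
      (ih fun i hi => h i (Finset.mem_insert_of_mem hi))

/-- If `x` reduces to `0` modulo `N` then `N` divides the numerator of `x`. -/
lemma Rep.dvd_num {x : ℚ} (hx : Rep N x 0) : (N : ℤ) ∣ x.num := by
  obtain ⟨A, D, h1, h2, h3, h4⟩ := hx
  rw [zero_mul] at h4
  have hA : (N : ℤ) ∣ A := (ZMod.intCast_zmod_eq_zero_iff_dvd A N).mp h4
  have hden : (x.den : ℚ) ≠ 0 := by exact_mod_cast x.den_nz
  have h5 : (x.num : ℚ) * D = A * x.den := by
    rw [← h3]
    nth_rewrite 2 [← Rat.num_div_den x]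
    field_simp
  have h6 : x.num * D = A * x.den := by exact_mod_cast h5
  have h7 : (N : ℤ) ∣ x.num * D := by rw [h6]; exact Dvd.dvd.mul_right hA _
  have h8 : IsCoprime (N : ℤ) (D : ℤ) := Nat.Coprime.isCoprime h1.symm
  exact h8.dvd_of_dvd_mul_right h7

/-- and its denominator is prime to `N` -/
lemma Rep.den_coprime {x : ℚ} {r : ZMod N} (hx : Rep N x r) : x.den.Coprime N := by
  obtain ⟨A, D, h1, h2, h3, h4⟩ := hx
  have hD : (D : ℚ) ≠ 0 := by exact_mod_cast h2
  have : x = (A : ℚ) / (D : ℤ) := by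
    rw [eq_div_iff (by exact_mod_cast hD)]
    exact_mod_cast h3
  have h5 : (x.den : ℤ) ∣ D := by
    rw [this, ← Rat.divInt_eq_div]; exact Rat.den_dvd A D
  have h6 : x.den ∣ D := by exact_mod_cast h5
  exact Nat.Coprime.coprime_dvd_left h6 h1

end Pool.Agent.R499.RatMod
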