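import Mathlib
import Pool.Agent.R499.RatMod

/-!
# `p^4` divides the numerator of `∑_{k<p} C(p-1,k)^2 C(p-1+k,k)^2 / k^{2m+1}`
-/

namespace Pool.Agent.R499.AperyPow

open Finset
open Pool.Agent.R499.RatMod

/-- product identity for the binomial coefficients (index shifted by one) -/
lemma prod_id (p : ℕ) (hp : 1 ≤ p) (k : ℕ) (hk : k + 1 ≤ p - 1) :
    ((p - 1).choose (k + 1) : ℤ) * ((p - 1 + (k + 1)).choose (k + 1) : ℤ)
        * (((k + 1).factorial : ℕ) : ℤ) ^ 2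
      = p * ((p : ℤ) - (k + 1)) * ∏ i ∈ range k, ((p : ℤ) ^ 2 - ((i : ℤ) + 1) ^ 2) := by
  obtain ⟨P, rfl⟩ : ∃ P, p = P + 1 := ⟨p - 1, by omega⟩
  simp only [Nat.add_sub_cancel] at hk ⊢
  induction k with
  | zero =>
    simp
    ring
  | succ k ih =>
    have ih := ih (by omega)
    have h1 := Nat.choose_succ_right_eq P (k + 1)
    have h1' : ((P.choose (k + 1 + 1) : ℤ)) * ((k : ℤ) + 1 + 1)
        = (P.choose (k + 1) : ℤ) * ((P : ℤ) - (k + 1)) := by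
      have := congrArg (fun x : ℕ => (x : ℤ)) h1
      push_cast [Nat.cast_sub (by omega : k + 1 ≤ P)] at this
      linarith
    have h2 := Nat.add_one_mul_choose_eq (P + (k + 1)) (k + 1)
    have h2' : ((P : ℤ) + (k + 1) + 1) * ((P + (k + 1)).choose (k + 1) : ℤ)
        = ((P + (k + 1 + 1)).choose (k + 1 + 1) : ℤ) * ((k : ℤ) + 1 + 1) := by
      have := congrArg (fun x : ℕ => (x : ℤ)) h2
      rw [show P + (k + 1) + 1 = P + (k + 1 + 1) by ring] at this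
      push_cast at this ⊢
      linarith
    rw [prod_range_succ, Nat.factorial_succ (k + 1)]
    push_cast at ih ⊢
    have e : ((P.choose (k + 1 + 1) : ℤ)) * ((P + (k + 1 + 1)).choose (k + 1 + 1) : ℤ)
        * (((k : ℤ) + 1 + 1) * ((k + 1).factorial : ℤ)) ^ 2
        = ((P.choose (k + 1 + 1) : ℤ) * ((k : ℤ) + 1 + 1))
          * (((P + (k + 1 + 1)).choose (k + 1 + 1) : ℤ) * ((k : ℤ) + 1 + 1))
          * ((k + 1).factorial : ℤ) ^ 2 := by ring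
    rw [e, h1', ← h2']
    linear_combination (((P : ℤ) - (k + 1)) * ((P : ℤ) + (k + 1) + 1)) * ih

variable {p : ℕ}

lemma p4 : ((p : ZMod (p ^ 4))) ^ 4 = 0 := by
  have := ZMod.natCast_self (p ^ 4)
  push_cast at this
  exact this

/-- in `ZMod (p^4)` -/
lemma sq_prod (k : ℕ) :
    (p : ZMod (p ^ 4)) ^ 2 * (∏ i ∈ range k, ((p : ZMod (p ^ 4)) ^ 2 - ((i : ZMod (p ^ 4)) + 1) ^ 2)) ^ 2
      = (p : ZMod (p ^ 4)) ^ 2 * ((k.factorial : ℕ) : ZMod (p ^ 4)) ^ 4 := by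
  induction k with
  | zero => simp
  | succ k ih =>
    rw [prod_range_succ, Nat.factorial_succ]
    push_cast
    have h := p4 (p := p)
    set P : ZMod (p ^ 4) := (p : ZMod (p ^ 4))
    set Q := ∏ i ∈ range k, (P ^ 2 - ((i : ZMod (p ^ 4)) + 1) ^ 2)
    linear_combination ((P ^ 2 - ((k : ZMod (p ^ 4)) + 1) ^ 2) ^ 2) * ih
      + ((k.factorial : ZMod (p ^ 4)) ^ 4 * (P ^ 2 - 2 * ((k : ZMod (p ^ 4)) + 1) ^ 2)) * h

lemma cop (hp : p.Prime) {k : ℕ} (h1 : 1 ≤ k) (h2 : k ≤ p - 1) (e : ℕ) : k.Coprime (p ^ e) := by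
  apply Nat.Coprime.pow_right
  apply Nat.Coprime.symm
  exact (Nat.Prime.coprime_iff_not_dvd hp).mpr fun hd =>
    absurd (Nat.le_of_dvd (by omega) hd) (by have := hp.pos; omega)

/-- the square of the product of the two binomial coefficients modulo `p^4` -/
lemma term_sq (hp : p.Prime) {k : ℕ} (h1 : 1 ≤ k) (h2 : k ≤ p - 1) :
    (((p - 1).choose k : ℕ) : ZMod (p ^ 4)) ^ 2 * (((p - 1 + k).choose k : ℕ) : ZMod (p ^ 4)) ^ 2
      = (p : ZMod (p ^ 4)) ^ 2 * ((k : ZMod (p ^ 4))⁻¹) ^ 2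
        - 2 * (p : ZMod (p ^ 4)) ^ 3 * ((k : ZMod (p ^ 4))⁻¹) ^ 3 := by
  obtain ⟨j, rfl⟩ : ∃ j, k = j + 1 := ⟨k - 1, by omega⟩
  have h3 := congrArg (fun x : ℤ => (x : ZMod (p ^ 4))) (prod_id p hp.one_le j h2)
  push_cast at h3
  have h4 := sq_prod (p := p) j
  have h5 : ((j + 1 : ℕ) : ZMod (p ^ 4)) * ((j + 1 : ℕ) : ZMod (p ^ 4))⁻¹ = 1 :=
    ZMod.coe_mul_inv_eq_one _ (cop hp h1 h2 4)
  -- factorial of j is a unit
  have h6 : ((j.factorial : ℕ) : ZMod (p ^ 4)) * ((j.factorial : ℕ) : ZMod (p ^ 4))⁻¹ = 1 := by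
    apply ZMod.coe_mul_inv_eq_one
    apply Nat.Coprime.pow_right
    apply Nat.Coprime.symm
    rw [Nat.Prime.coprime_iff_not_dvd hp, hp.dvd_factorial]
    have := hp.pos
    omega
  have h7 := p4 (p := p)
  rw [Nat.factorial_succ] at h3
  push_cast at h3 h5 ⊢
  set P : ZMod (p ^ 4) := (p : ZMod (p ^ 4))
  set J : ZMod (p ^ 4) := (j : ZMod (p ^ 4)) + 1
  set I : ZMod (p ^ 4) := J⁻¹
  set f : ZMod (p ^ 4) := (j.factorial : ZMod (p ^ 4))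
  set g : ZMod (p ^ 4) := f⁻¹
  set a : ZMod (p ^ 4) := ((p - 1).choose (j + 1) : ZMod (p ^ 4))
  set b : ZMod (p ^ 4) := ((p - 1 + (j + 1)).choose (j + 1) : ZMod (p ^ 4))
  set Q := ∏ i ∈ range j, (P ^ 2 - ((i : ZMod (p ^ 4)) + 1) ^ 2)
  -- h3 : a * b * (J * f)^2 = P * (P - J) * Q
  -- h4 : P^2 * Q^2 = P^2 * f^4
  have e1 : (a * b) ^ 2 * (J * f) ^ 4 = P ^ 2 * (P - J) ^ 2 * f ^ 4 := by
    have : (a * b * (J * f) ^ 2) ^ 2 = (P * (P - J) * Q) ^ 2 := by rw [h3]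
    linear_combination this + (P - J) ^ 2 * h4
  have hJ4 : J ^ 4 * I ^ 4 = 1 := by rw [← mul_pow, h5, one_pow]
  have hf4 : f ^ 4 * g ^ 4 = 1 := by rw [← mul_pow, h6, one_pow]
  have e2 : (a * b) ^ 2 = P ^ 2 * (P - J) ^ 2 * I ^ 4 := by
    calc (a * b) ^ 2 = (a * b) ^ 2 * ((J ^ 4 * I ^ 4) * (f ^ 4 * g ^ 4)) := by
          rw [hJ4, hf4]; ring
      _ = ((a * b) ^ 2 * (J * f) ^ 4) * (I ^ 4 * g ^ 4) := by ring
      _ = (P ^ 2 * (P - J) ^ 2 * f ^ 4) * (I ^ 4 * g ^ 4) := by rw [e1]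
      _ = P ^ 2 * (P - J) ^ 2 * I ^ 4 * (f ^ 4 * g ^ 4) := by ring
      _ = P ^ 2 * (P - J) ^ 2 * I ^ 4 := by rw [hf4, mul_one]
  have hJI : J ^ 2 * I ^ 4 = I ^ 2 := by
    calc J ^ 2 * I ^ 4 = (J * I) ^ 2 * I ^ 2 := by ring
      _ = I ^ 2 := by rw [h5]; ring
  have hJI' : J * I ^ 4 = I ^ 3 := by
    calc J * I ^ 4 = (J * I) * I ^ 3 := by ring
      _ = I ^ 3 := by rw [h5]; ring
  calc a ^ 2 * b ^ 2 = (a * b) ^ 2 := by ring
    _ = P ^ 2 * (P - J) ^ 2 * I ^ 4 := e2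
    _ = P ^ 2 * (J ^ 2 * I ^ 4) - 2 * P ^ 3 * (J * I ^ 4) + P ^ 4 * I ^ 4 := by ring
    _ = P ^ 2 * I ^ 2 - 2 * P ^ 3 * I ^ 3 := by rw [hJI, hJI', h7]; ring

/-- reduction: multiples of `p^3` in `ZMod (p^4)` only depend on the residue modulo `p` -/
lemma p3_mul_zero (hp : p.Prime) {y : ZMod (p ^ 4)}
    (hy : ZMod.castHom (dvd_pow_self p (by norm_num : (4 : ℕ) ≠ 0)) (ZMod p) y = 0) :
    (p : ZMod (p ^ 4)) ^ 3 * y = 0 := by
  have : NeZero (p ^ 4) := ⟨(pow_pos hp.pos 4).ne'⟩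
  have h1 : ((y.val : ℕ) : ZMod p) = 0 := by
    rw [ZMod.castHom_apply] at hy
    rw [← ZMod.natCast_val] at hy
    exact hy
  have h2 : p ∣ y.val := (ZMod.natCast_eq_zero_iff _ _).mp h1
  obtain ⟨z, hz⟩ := h2
  have h3 : y = ((p * z : ℕ) : ZMod (p ^ 4)) := by
    rw [← hz, ZMod.natCast_zmod_val]
  rw [h3]
  push_cast
  have := p4 (p := p)
  linear_combination (z : ZMod (p ^ 4)) * this

/-- `∑_{k<p} k^{-t} = 0` in `ZMod p` if `0 < t < p - 1` -/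
lemma sum_inv_pow (hp : p.Prime) {t : ℕ} (ht0 : 0 < t) (ht : t < p - 1) :
    ∑ k ∈ Icc 1 (p - 1), ((k : ZMod p)⁻¹) ^ t = 0 := by
  have : Fact p.Prime := ⟨hp⟩
  have h1 : ∑ x : ZMod p, x ^ (p - 1 - t) = 0 := by
    apply FiniteField.sum_pow_lt_card_sub_one
    rw [ZMod.card]; omega
  have h2 : ∑ k ∈ Icc 1 (p - 1), ((k : ZMod p)⁻¹) ^ t
      = ∑ k ∈ Icc 1 (p - 1), ((k : ZMod p)) ^ (p - 1 - t) := by
    apply sum_congr rfl
    intro k hk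
    rw [mem_Icc] at hk
    have hk0 : (k : ZMod p) ≠ 0 := by
      intro h0
      have := (ZMod.natCast_eq_zero_iff _ _).mp h0
      exact absurd (Nat.le_of_dvd (by omega) this) (by have := hp.pos; omega)
    have h3 := ZMod.pow_card_sub_one_eq_one hk0
    have h4 : (k : ZMod p) ^ (p - 1 - t) * (k : ZMod p) ^ t = 1 := by
      rw [← pow_add, ← h3]; congr 1; omega
    rw [inv_pow]
    exact (eq_inv_of_mul_eq_one_left h4).symm
  rw [h2]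
  have h5 : ∑ x : ZMod p, x ^ (p - 1 - t) = ∑ k ∈ range p, ((k : ZMod p)) ^ (p - 1 - t) := by
    symm
    apply Finset.sum_bij (fun (k : ℕ) _ => (k : ZMod p))
    · intro a _; exact mem_univ _
    · intro a ha b hb hab
      rw [mem_range] at ha hb
      have := (ZMod.natCast_eq_natCast_iff a b p).mp hab
      exact Nat.ModEq.eq_of_lt_of_lt this ha hb
    · intro x _
      exact ⟨x.val, mem_range.mpr (ZMod.val_lt x), ZMod.natCast_zmod_val x⟩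
    · intro a _; rfl
  rw [h5] at h1
  have h6 : range p = insert 0 (Icc 1 (p - 1)) := by
    ext x
    simp only [mem_range, mem_insert, mem_Icc]
    have := hp.pos
    omega
  rw [h6, sum_insert (by simp), Nat.cast_zero, zero_pow (by omega), zero_add] at h1
  exact h1

lemma cast_inv (hp : p.Prime) {k : ℕ} (h1 : 1 ≤ k) (h2 : k ≤ p - 1) :
    ZMod.castHom (dvd_pow_self p (by norm_num : (4 : ℕ) ≠ 0)) (ZMod p) ((k : ZMod (p ^ 4))⁻¹)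
      = (k : ZMod p)⁻¹ := by
  have : Fact p.Prime := ⟨hp⟩
  have h5 : ((k : ℕ) : ZMod (p ^ 4)) * ((k : ℕ) : ZMod (p ^ 4))⁻¹ = 1 :=
    ZMod.coe_mul_inv_eq_one _ (cop hp h1 h2 4)
  have h6 := congrArg (ZMod.castHom (dvd_pow_self p (by norm_num : (4 : ℕ) ≠ 0)) (ZMod p)) h5
  rw [map_mul, map_natCast, map_one] at h6
  exact eq_inv_of_mul_eq_one_right h6

/-- `p^3 ∑ k^{-t} = 0` in `ZMod (p^4)` -/
lemma p3_sum (hp : p.Prime) {t : ℕ} (ht0 : 0 < t) (ht : t < p - 1) :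
    (p : ZMod (p ^ 4)) ^ 3 * ∑ k ∈ Icc 1 (p - 1), ((k : ZMod (p ^ 4))⁻¹) ^ t = 0 := by
  apply p3_mul_zero hp
  rw [map_sum, ← sum_inv_pow hp ht0 ht]
  apply sum_congr rfl
  intro k hk
  rw [mem_Icc] at hk
  rw [map_pow, cast_inv hp hk.1 hk.2]

/-- `2 p^2 ∑ k^{-s} = 0` in `ZMod (p^4)` for odd `s` -/
lemma p2_sum (hp : p.Prime) {s : ℕ} (hs : Odd s) (ht : s + 1 < p - 1) :
    2 * ((p : ZMod (p ^ 4)) ^ 2 * ∑ k ∈ Icc 1 (p - 1), ((k : ZMod (p ^ 4))⁻¹) ^ s) = 0 := by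
  set P : ZMod (p ^ 4) := (p : ZMod (p ^ 4)) with hP
  have h7 : P ^ 4 = 0 := p4 (p := p)
  have hrefl : ∑ k ∈ Icc 1 (p - 1), ((k : ZMod (p ^ 4))⁻¹) ^ s
      = ∑ k ∈ Icc 1 (p - 1), (((p - k : ℕ) : ZMod (p ^ 4))⁻¹) ^ s := by
    apply Finset.sum_bij' (fun k _ => p - k) (fun k _ => p - k)
    · intro a ha; rw [mem_Icc] at ha ⊢; omega
    · intro a ha; rw [mem_Icc] at ha ⊢; omega
    · intro a ha; rw [mem_Icc] at ha; show p - (p - a) = a; omega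
    · intro a ha; rw [mem_Icc] at ha; show p - (p - a) = a; omega
    · intro a ha
      rw [mem_Icc] at ha
      have : p - (p - a) = a := by omega
      rw [this]
  have hterm : ∀ k ∈ Icc 1 (p - 1), P ^ 2 * (((p - k : ℕ) : ZMod (p ^ 4))⁻¹) ^ s
      = -(P ^ 2 * ((k : ZMod (p ^ 4))⁻¹) ^ s) - s * (P ^ 3 * ((k : ZMod (p ^ 4))⁻¹) ^ (s + 1)) := by
    intro k hk
    rw [mem_Icc] at hk
    have h5 : ((k : ℕ) : ZMod (p ^ 4)) * ((k : ℕ) : ZMod (p ^ 4))⁻¹ = 1 :=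
      ZMod.coe_mul_inv_eq_one _ (cop hp hk.1 hk.2 4)
    have h6 : (((p - k : ℕ) : ℕ) : ZMod (p ^ 4)) * (((p - k : ℕ) : ℕ) : ZMod (p ^ 4))⁻¹ = 1 :=
      ZMod.coe_mul_inv_eq_one _ (cop hp (by omega) (by omega) 4)
    have hpk : (((p - k : ℕ) : ℕ) : ZMod (p ^ 4)) = P - (k : ZMod (p ^ 4)) := by
      rw [Nat.cast_sub (by omega)]
    rw [hpk] at h6 ⊢
    set K : ZMod (p ^ 4) := (k : ZMod (p ^ 4))
    set I : ZMod (p ^ 4) := K⁻¹
    set V : ZMod (p ^ 4) := (P - K)⁻¹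
    -- V = -I (1 + P I + P^2 I^2 + P^3 I^3)
    have hV : V = -I * (1 + P * I + P ^ 2 * I ^ 2 + P ^ 3 * I ^ 3) := by
      have e1 : (P - K) * (-I * (1 + P * I + P ^ 2 * I ^ 2 + P ^ 3 * I ^ 3)) = 1 := by
        have : (P - K) * (-I * (1 + P * I + P ^ 2 * I ^ 2 + P ^ 3 * I ^ 3))
            = (K * I) * (1 + P * I + P ^ 2 * I ^ 2 + P ^ 3 * I ^ 3)
              - (P * I + P ^ 2 * I ^ 2 + P ^ 3 * I ^ 3) - P ^ 4 * I ^ 4 := by ring
        rw [this, h5, h7]; ring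
      calc V = V * ((P - K) * (-I * (1 + P * I + P ^ 2 * I ^ 2 + P ^ 3 * I ^ 3))) := by
            rw [e1, mul_one]
        _ = ((P - K) * V) * (-I * (1 + P * I + P ^ 2 * I ^ 2 + P ^ 3 * I ^ 3)) := by ring
        _ = _ := by rw [h6, one_mul]
    -- (1+x)^s with P^2 factor
    have hpow : ∀ n : ℕ, P ^ 2 * (1 + P * I + P ^ 2 * I ^ 2 + P ^ 3 * I ^ 3) ^ n
        = P ^ 2 * (1 + n * (P * I)) := by
      intro n
      induction n with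
      | zero => simp
      | succ n ih =>
        rw [pow_succ (1 + P * I + P ^ 2 * I ^ 2 + P ^ 3 * I ^ 3) n, ← mul_assoc, ih]
        push_cast
        linear_combination ((n : ZMod (p ^ 4)) * (P ^ 2 * I ^ 4 + P * I ^ 3 + I ^ 2)
          + P * I ^ 3 + I ^ 2) * h7
    rw [hV, mul_pow, hs.neg_pow]
    have e3 := hpow s
    calc P ^ 2 * (-I ^ s * (1 + P * I + P ^ 2 * I ^ 2 + P ^ 3 * I ^ 3) ^ s)
        = -I ^ s * (P ^ 2 * (1 + P * I + P ^ 2 * I ^ 2 + P ^ 3 * I ^ 3) ^ s) := by ring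
      _ = -I ^ s * (P ^ 2 * (1 + s * (P * I))) := by rw [e3]
      _ = _ := by ring
  have h8 : P ^ 2 * ∑ k ∈ Icc 1 (p - 1), ((k : ZMod (p ^ 4))⁻¹) ^ s
      = -(P ^ 2 * ∑ k ∈ Icc 1 (p - 1), ((k : ZMod (p ^ 4))⁻¹) ^ s)
        - s * (P ^ 3 * ∑ k ∈ Icc 1 (p - 1), ((k : ZMod (p ^ 4))⁻¹) ^ (s + 1)) := by
    conv_lhs => rw [hrefl]
    simp only [mul_sum]
    rw [← sum_neg_distrib, ← sum_sub_distrib]
    apply sum_congr rfl
    intro k hk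
    have := hterm k hk
    rw [this]
  have h9 := p3_sum hp (t := s + 1) (by omega) ht
  rw [← hP] at h9
  rw [h9] at h8
  linear_combination h8

/-- the sum in question -/
def S (m n : ℕ) : ℚ :=
  ∑ k ∈ Icc 1 n, ((n.choose k : ℚ)) ^ 2 * ((n + k).choose k : ℚ) ^ 2 / (k : ℚ) ^ (2 * m + 1)

theorem main (hp : p.Prime) {m : ℕ} (hm : 2 * m + 4 < p - 1) :
    (p : ℤ) ^ 4 ∣ (S m (p - 1)).num := by
  have hR : Rep (p ^ 4) (S m (p - 1)) (∑ k ∈ Icc 1 (p - 1),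
      ((((p - 1).choose k : ℕ) : ZMod (p ^ 4)) ^ 2 * (((p - 1 + k).choose k : ℕ) : ZMod (p ^ 4)) ^ 2
        * ((k : ZMod (p ^ 4))⁻¹) ^ (2 * m + 1))) := by
    unfold S
    apply Rep.sum
    intro k hk
    rw [mem_Icc] at hk
    rw [div_eq_mul_inv, ← inv_pow]
    exact (((Rep.nat _).pow 2).mul ((Rep.nat _).pow 2)).mul
      ((Rep.inv_nat (cop hp hk.1 hk.2 4) (by omega)).pow _)
  have hz : ∑ k ∈ Icc 1 (p - 1),
      ((((p - 1).choose k : ℕ) : ZMod (p ^ 4)) ^ 2 * (((p - 1 + k).choose k : ℕ) : ZMod (p ^ 4)) ^ 2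
        * ((k : ZMod (p ^ 4))⁻¹) ^ (2 * m + 1)) = 0 := by
    have h1 : ∑ k ∈ Icc 1 (p - 1),
        ((((p - 1).choose k : ℕ) : ZMod (p ^ 4)) ^ 2
          * (((p - 1 + k).choose k : ℕ) : ZMod (p ^ 4)) ^ 2
          * ((k : ZMod (p ^ 4))⁻¹) ^ (2 * m + 1))
        = (p : ZMod (p ^ 4)) ^ 2 * ∑ k ∈ Icc 1 (p - 1), ((k : ZMod (p ^ 4))⁻¹) ^ (2 * m + 3)
          - 2 * ((p : ZMod (p ^ 4)) ^ 3
            * ∑ k ∈ Icc 1 (p - 1), ((k : ZMod (p ^ 4))⁻¹) ^ (2 * m + 4)) := by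
      simp only [mul_sum]
      rw [← sum_sub_distrib]
      apply sum_congr rfl
      intro k hk
      rw [mem_Icc] at hk
      rw [term_sq hp hk.1 hk.2]
      ring
    rw [h1, p3_sum hp (by omega) hm, mul_zero, sub_zero]
    have h2 := p2_sum hp (s := 2 * m + 3) ⟨m + 1, by ring⟩ (by omega)
    -- 2 is a unit
    have h3 : ((2 : ℕ) : ZMod (p ^ 4)) * ((2 : ℕ) : ZMod (p ^ 4))⁻¹ = 1 :=
      ZMod.coe_mul_inv_eq_one _ (cop hp (by omega) (by omega) 4)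
    have h4 := congrArg (fun x => ((2 : ℕ) : ZMod (p ^ 4))⁻¹ * x) h2
    simp only [mul_zero] at h4
    rw [← mul_assoc] at h4
    have h5 : ((2 : ℕ) : ZMod (p ^ 4))⁻¹ * 2 = 1 := by
      rw [mul_comm]; exact_mod_cast h3
    rw [h5, one_mul] at h4
    exact h4
  rw [hz] at hR
  have := hR.dvd_num
  exact_mod_cast this

end Pool.Agent.R499.AperyPow
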