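import Mathlib
import Pool.Agent.Helper923.HMertens

/-!
The sum of `1 / d` over the values `d ≤ X` of Euler's totient is `O((log X)^(3/4))`.
-/

set_option autoImplicit false

namespace Pool.Agent.R499.TotRecip

open Finset

/-- The weight `2^{-ω(k)} / φ(k)`. -/
noncomputable def wt (k : ℕ) : ℝ := (1 / 2 : ℝ) ^ k.primeFactors.card / (Nat.totient k : ℝ)

lemma wt_nonneg (k : ℕ) : 0 ≤ wt k := by unfold wt; positivity

lemma wt_one : wt 1 = 1 := by simp [wt]

lemma wt_mul {m n : ℕ} (h : Nat.Coprime m n) : wt (m * n) = wt m * wt n := by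
  unfold wt
  rw [h.primeFactors_mul, card_union_of_disjoint h.disjoint_primeFactors, Nat.totient_mul h, pow_add]
  push_cast
  rw [mul_div_mul_comm]

lemma wt_pow_succ {p : ℕ} (hp : p.Prime) (e : ℕ) :
    wt (p ^ (e + 1)) = (1 / 2) / ((p : ℝ) - 1) * (1 / (p : ℝ)) ^ e := by
  have h2 : (2 : ℝ) ≤ p := by exact_mod_cast hp.two_le
  have h3 : (p : ℝ) - 1 ≠ 0 := by linarith
  have h4 : (p : ℝ) ≠ 0 := by linarith
  unfold wt
  rw [Nat.primeFactors_prime_pow (by omega) hp, card_singleton, Nat.totient_prime_pow_succ hp]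
  rw [Nat.cast_mul, Nat.cast_pow, Nat.cast_sub hp.one_le, Nat.cast_one]
  have h5 : (1 / (p : ℝ)) ^ e = 1 / (p : ℝ) ^ e := by rw [div_pow, one_pow]
  rw [h5]
  field_simp

lemma wt_hasSum {p : ℕ} (hp : p.Prime) :
    HasSum (fun e : ℕ => wt (p ^ e)) (1 + (p : ℝ) / (2 * ((p : ℝ) - 1) ^ 2)) := by
  have h2 : (2 : ℝ) ≤ p := by exact_mod_cast hp.two_le
  have h3 : (p : ℝ) - 1 ≠ 0 := by linarith
  have h4 : (p : ℝ) ≠ 0 := by linarith
  have hlt : 1 / (p : ℝ) < 1 := by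
    rw [div_lt_one (by linarith)]; linarith
  have hg : HasSum (fun e : ℕ => (1 / (p : ℝ)) ^ e) (1 - 1 / (p : ℝ))⁻¹ :=
    hasSum_geometric_of_lt_one (by positivity) hlt
  have h1 : HasSum (fun e => wt (p ^ (e + 1))) ((1 / 2) / ((p : ℝ) - 1) * (1 - 1 / (p : ℝ))⁻¹) := by
    simp_rw [wt_pow_succ hp]
    exact hg.mul_left _
  have h5 := (hasSum_nat_add_iff (f := fun e => wt (p ^ e)) 1).1 h1
  have h6 : (1 / 2) / ((p : ℝ) - 1) * (1 - 1 / (p : ℝ))⁻¹ + ∑ i ∈ range 1, wt (p ^ i) =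
      1 + (p : ℝ) / (2 * ((p : ℝ) - 1) ^ 2) := by
    have h7 : (1 : ℝ) - 1 / p = (p - 1) / p := by field_simp
    rw [sum_range_one, pow_zero, wt_one, h7]
    field_simp
    ring
  rw [h6] at h5
  exact h5

lemma sum_wt_le (Y : ℕ) (S : Finset ℕ) (hS : ∀ k ∈ S, k ∈ Nat.smoothNumbers Y) :
    ∑ k ∈ S, wt k ≤ ∏ p ∈ Nat.primesBelow Y, (1 + (p : ℝ) / (2 * ((p : ℝ) - 1) ^ 2)) := by
  have h1 := (EulerProduct.summable_and_hasSum_smoothNumbers_prod_primesBelow_tsum (f := wt)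
    wt_one (fun {m n} h => wt_mul h) (fun {p} hp => (by
      have := (wt_hasSum hp).summable
      refine this.congr (fun e => ?_)
      rw [Real.norm_of_nonneg (wt_nonneg _)])) Y).2
  have h2 : ∏ p ∈ Nat.primesBelow Y, ∑' n : ℕ, wt (p ^ n) =
      ∏ p ∈ Nat.primesBelow Y, (1 + (p : ℝ) / (2 * ((p : ℝ) - 1) ^ 2)) := by
    apply Finset.prod_congr rfl
    intro p hp
    exact (wt_hasSum (Nat.prime_of_mem_primesBelow hp)).tsum_eq
  rw [h2] at h1
  have h4 : HasSum ((Nat.smoothNumbers Y).indicator wt)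
      (∏ p ∈ Nat.primesBelow Y, (1 + (p : ℝ) / (2 * ((p : ℝ) - 1) ^ 2))) := by
    rw [← hasSum_subtype_iff_indicator]
    exact h1
  have h5 := sum_le_hasSum S (fun m _ => Set.indicator_nonneg (fun m _ => wt_nonneg m) m) h4
  refine le_trans (le_of_eq ?_) h5
  apply Finset.sum_congr rfl
  intro k hk
  rw [Set.indicator_of_mem (hS k hk)]

lemma sum_inv_sq_two (Y : ℕ) : ∑ p ∈ Nat.primesBelow Y, 1 / ((p : ℝ) - 1) ^ 2 ≤ 2 := by
  have h1 : ∑ p ∈ Nat.primesBelow Y, 1 / ((p : ℝ) - 1) ^ 2 ≤ ∑ m ∈ Ioc 0 Y, ((m : ℝ) ^ 2)⁻¹ := by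
    have e1 : ∑ p ∈ Nat.primesBelow Y, 1 / ((p : ℝ) - 1) ^ 2 =
        ∑ m ∈ (Nat.primesBelow Y).image (fun p : ℕ => (p - 1 : ℕ)), (((m : ℕ) : ℝ) ^ 2)⁻¹ := by
      rw [Finset.sum_image]
      · apply Finset.sum_congr rfl
        intro p hp
        have := (Nat.prime_of_mem_primesBelow hp).one_le
        rw [Nat.cast_sub this, Nat.cast_one, one_div]
      · intro a ha b hb hab
        have h1 := (Nat.prime_of_mem_primesBelow ha).one_le
        have h2 := (Nat.prime_of_mem_primesBelow hb).one_le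
        simp only at hab
        omega
    rw [e1]
    apply Finset.sum_le_sum_of_subset_of_nonneg
    · intro m hm
      rw [Finset.mem_image] at hm
      obtain ⟨p, hp, rfl⟩ := hm
      have h1 := (Nat.prime_of_mem_primesBelow hp).one_lt
      have h2 := Nat.lt_of_mem_primesBelow hp
      rw [mem_Ioc]
      omega
    · intro i _ _
      positivity
  refine h1.trans ?_
  rcases Nat.eq_zero_or_pos Y with h | h
  · subst h; simp
  have h2 : Ioc 0 Y = insert 1 (Ioc 1 Y) := by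
    ext m
    rw [mem_insert, mem_Ioc, mem_Ioc]
    omega
  rw [h2, sum_insert (by simp)]
  have h3 : ∑ i ∈ Ioc 1 Y, (((i : ℝ)) ^ 2)⁻¹ ≤ ((1 : ℕ) : ℝ)⁻¹ - ((Y : ℕ) : ℝ)⁻¹ :=
    sum_Ioc_inv_sq_le_sub (by omega) h
  have h4 : (0 : ℝ) ≤ ((Y : ℕ) : ℝ)⁻¹ := by positivity
  norm_num at h3 ⊢
  linarith

lemma prod_le : ∃ C : ℝ, 0 < C ∧ ∀ Y : ℕ, 3 ≤ Y →
    ∏ p ∈ Nat.primesBelow Y, (1 + (p : ℝ) / (2 * ((p : ℝ) - 1) ^ 2)) ≤
      C * (Real.log Y) ^ (1 / 2 : ℝ) := by
  obtain ⟨C, hC0, hC⟩ := Pool.Agent.Helper923.HMertens.mertens_ratio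
  have hl2 : (0 : ℝ) < Real.log 2 := Real.log_pos (by norm_num)
  refine ⟨Real.exp ((1 / 2) * (1 / 2 + C / Real.log 2 - Real.log (Real.log 2)) + 2), Real.exp_pos _, ?_⟩
  intro Y hY
  have hly : 0 < Real.log Y := Real.log_pos (by exact_mod_cast (by omega : 1 < Y))
  have h1 : ∏ p ∈ Nat.primesBelow Y, (1 + (p : ℝ) / (2 * ((p : ℝ) - 1) ^ 2)) ≤
      Real.exp (∑ p ∈ Nat.primesBelow Y, (p : ℝ) / (2 * ((p : ℝ) - 1) ^ 2)) := by
    rw [Real.exp_sum]
    refine Finset.prod_le_prod (fun i _ => by positivity) (fun i _ => ?_)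
    have := Real.add_one_le_exp ((i : ℝ) / (2 * ((i : ℝ) - 1) ^ 2))
    linarith
  have h2 : ∑ p ∈ Nat.primesBelow Y, (p : ℝ) / (2 * ((p : ℝ) - 1) ^ 2) ≤
      ∑ p ∈ Nat.primesBelow Y, ((1 / 2) * (1 / (p : ℝ)) + 1 / ((p : ℝ) - 1) ^ 2) := by
    apply Finset.sum_le_sum
    intro p hp
    have h3 : (2 : ℝ) ≤ p := by exact_mod_cast (Nat.prime_of_mem_primesBelow hp).two_le
    have h4 : (0 : ℝ) < (p : ℝ) - 1 := by linarith
    have h5 : (0 : ℝ) < p := by linarith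
    rw [← sub_nonneg]
    have : (1 / 2) * (1 / (p : ℝ)) + 1 / ((p : ℝ) - 1) ^ 2 - (p : ℝ) / (2 * ((p : ℝ) - 1) ^ 2) =
        1 / (2 * p * ((p : ℝ) - 1) ^ 2) := by
      field_simp
      ring
    rw [this]
    positivity
  rw [sum_add_distrib, ← mul_sum] at h2
  have h3 := sum_inv_sq_two Y
  have h4 : ∑ p ∈ Nat.primesBelow Y, 1 / (p : ℝ) ≤
      1 / 2 + (Real.log (Real.log Y / Real.log 2) + C / Real.log 2) := by
    have h5 := hC 2 Y le_rfl (by omega)
    have h6 := (abs_le.1 h5).2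
    have h7 : Nat.primesBelow Y ⊆ insert 2 ((Finset.Ioc 2 Y).filter Nat.Prime) := by
      intro p hp
      have e1 := Nat.prime_of_mem_primesBelow hp
      have e2 := Nat.lt_of_mem_primesBelow hp
      rw [Finset.mem_insert, Finset.mem_filter, Finset.mem_Ioc]
      rcases Nat.eq_or_lt_of_le e1.two_le with h8 | h8
      · exact Or.inl h8.symm
      · exact Or.inr ⟨⟨h8, e2.le⟩, e1⟩
    refine (Finset.sum_le_sum_of_subset_of_nonneg h7 (fun i _ _ => by positivity)).trans ?_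
    rw [Finset.sum_insert (by simp)]
    have h12 : (((2 : ℕ) : ℝ)) = 2 := by norm_num
    rw [h12] at h6 ⊢
    linarith
  have h5 : Real.log (Real.log Y / Real.log 2) = Real.log (Real.log Y) - Real.log (Real.log 2) :=
    Real.log_div hly.ne' hl2.ne'
  refine h1.trans ?_
  have h6 : ∑ p ∈ Nat.primesBelow Y, (p : ℝ) / (2 * ((p : ℝ) - 1) ^ 2) ≤
      ((1 / 2) * (1 / 2 + C / Real.log 2 - Real.log (Real.log 2)) + 2) +
        (1 / 2) * Real.log (Real.log Y) := by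
    rw [h5] at h4
    linarith
  refine (Real.exp_le_exp.2 h6).trans ?_
  rw [Real.exp_add]
  apply mul_le_mul_of_nonneg_left _ (Real.exp_pos _).le
  rw [Real.rpow_def_of_pos hly, mul_comm]

/-- `2 ^ {number of odd primes}` divides `φ(k)`. -/
lemma two_pow_dvd_totient (k : ℕ) (hk : k ≠ 0) : 2 ^ (k.primeFactors.erase 2).card ∣ Nat.totient k := by
  rw [Nat.totient_eq_prod_factorization hk, Finsupp.prod, Nat.support_factorization]
  have h1 : 2 ^ (k.primeFactors.erase 2).card = ∏ p ∈ k.primeFactors.erase 2, 2 := by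
    rw [prod_const]
  rw [h1]
  refine (Finset.prod_dvd_prod_of_dvd _ _ ?_).trans (Finset.prod_dvd_prod_of_subset _ _ _ (Finset.erase_subset 2 _))
  intro p hp
  rw [mem_erase] at hp
  have hpp := Nat.prime_of_mem_primeFactors hp.2
  apply Dvd.dvd.mul_left
  have := hpp.eq_two_or_odd
  omega

/-- The primes dividing `k` are at most `φ(k) + 1`. -/
lemma prime_le_of_totient (k : ℕ) (hk : k ≠ 0) {p : ℕ} (hp : p.Prime) (hpk : p ∣ k) :
    p ≤ Nat.totient k + 1 := by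
  have h1 : p.totient ∣ k.totient := Nat.totient_dvd_of_dvd hpk
  rw [Nat.totient_prime hp] at h1
  have h2 := Nat.le_of_dvd (Nat.totient_pos.2 (Nat.pos_of_ne_zero hk)) h1
  omega

open scoped Classical in
/-- The reciprocal sum over totient values. -/
theorem recip_totients : ∃ C : ℝ, 0 < C ∧ ∀ X : ℕ, 3 ≤ X →
    ∑ d ∈ (Icc 1 X).filter (fun d => ∃ k, Nat.totient k = d), (1 : ℝ) / d ≤
      C * (Real.log X) ^ (3 / 4 : ℝ) := by
  obtain ⟨C, hC0, hC⟩ := prod_le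
  refine ⟨4 + 2 * C, by positivity, ?_⟩
  intro X hX
  have hX3 : (3 : ℝ) ≤ X := by exact_mod_cast hX
  have hX0 : (0 : ℝ) < X := by linarith
  set L := Real.log X with hL
  have hL1 : 1 ≤ L := by
    rw [hL, Real.le_log_iff_exp_le hX0]
    have := Real.exp_one_lt_d9
    linarith
  have hL0 : 0 < L := by linarith
  have hq1 : 1 ≤ L ^ (1 / 4 : ℝ) := Real.one_le_rpow hL1 (by norm_num)
  obtain ⟨K, hK1, hK2⟩ := exists_nat_pow_near hq1 (by norm_num : (1 : ℝ) < 2)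
  have hK0 : (0 : ℝ) < 2 ^ K := by positivity
  -- the split
  set V := (Icc 1 X).filter (fun d => ∃ k, Nat.totient k = d) with hV
  have hsplit : ∑ d ∈ V, (1 : ℝ) / d = ∑ d ∈ V.filter (fun d => 2 ^ K ∣ d), (1 : ℝ) / d +
      ∑ d ∈ V.filter (fun d => ¬ 2 ^ K ∣ d), (1 : ℝ) / d :=
    (Finset.sum_filter_add_sum_filter_not _ _ _).symm
  -- part one
  have hp1 : ∑ d ∈ V.filter (fun d => 2 ^ K ∣ d), (1 : ℝ) / d ≤ 4 * L ^ (3 / 4 : ℝ) := by
    have e1 : ∑ d ∈ V.filter (fun d => 2 ^ K ∣ d), (1 : ℝ) / d ≤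
        ∑ d ∈ (Icc 1 X).image (fun j : ℕ => (2 ^ K * j : ℕ)), (1 : ℝ) / ((d : ℕ) : ℝ) := by
      apply Finset.sum_le_sum_of_subset_of_nonneg
      · intro d hd
        rw [mem_filter, hV, mem_filter, mem_Icc] at hd
        obtain ⟨⟨⟨h1, h2⟩, -⟩, j, rfl⟩ := hd
        rw [mem_image]
        refine ⟨j, mem_Icc.2 ⟨?_, ?_⟩, rfl⟩
        · by_contra h
          have : j = 0 := by omega
          subst this
          simp at h1
        · exact (Nat.le_mul_of_pos_left j (by positivity)).trans h2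
      · intro i _ _
        positivity
    have e2 : ∑ d ∈ (Icc 1 X).image (fun j : ℕ => (2 ^ K * j : ℕ)), (1 : ℝ) / ((d : ℕ) : ℝ) =
        (1 / 2 ^ K) * ∑ j ∈ Icc 1 X, 1 / (j : ℝ) := by
      rw [Finset.sum_image, Finset.mul_sum]
      · apply Finset.sum_congr rfl
        intro j _
        push_cast
        rw [div_mul_div_comm, one_mul]
      · intro a _ b _ hab
        simp only at hab
        exact Nat.eq_of_mul_eq_mul_left (by positivity) hab
    have e3 : ∑ j ∈ Icc 1 X, 1 / (j : ℝ) ≤ 1 + L := by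
      have h := harmonic_le_one_add_log X
      rw [harmonic_eq_sum_Icc] at h
      push_cast at h
      simp_rw [one_div]
      exact h
    rw [e2] at e1
    refine e1.trans ?_
    have e4 : (1 : ℝ) / 2 ^ K ≤ 2 / L ^ (1 / 4 : ℝ) := by
      rw [div_le_div_iff₀ hK0 (by positivity)]
      rw [pow_succ] at hK2
      linarith
    have e5 : (1 : ℝ) / 2 ^ K * ∑ j ∈ Icc 1 X, 1 / (j : ℝ) ≤ 2 / L ^ (1 / 4 : ℝ) * (2 * L) := by
      apply mul_le_mul e4 (by linarith) (Finset.sum_nonneg (fun _ _ => by positivity)) (by positivity)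
    refine e5.trans (le_of_eq ?_)
    have e6 : L = L ^ (1 / 4 : ℝ) * L ^ (3 / 4 : ℝ) := by
      rw [← Real.rpow_add hL0]; norm_num
    have e7 : L ^ (1 / 4 : ℝ) ≠ 0 := by positivity
    calc 2 / L ^ (1 / 4 : ℝ) * (2 * L) = 4 * (L / L ^ (1 / 4 : ℝ)) := by ring
      _ = 4 * L ^ (3 / 4 : ℝ) := by
        congr 1
        rw [div_eq_iff e7]
        linarith [e6, mul_comm (L ^ (1 / 4 : ℝ)) (L ^ (3 / 4 : ℝ))]
  -- part two
  have hp2 : ∑ d ∈ V.filter (fun d => ¬ 2 ^ K ∣ d), (1 : ℝ) / d ≤ 2 * C * L ^ (3 / 4 : ℝ) := by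
    have hex : ∀ d : ℕ, ∃ k : ℕ, d ∈ V → Nat.totient k = d := by
      intro d
      by_cases h : d ∈ V
      · rw [hV, mem_filter] at h
        obtain ⟨k, hk⟩ := h.2
        exact ⟨k, fun _ => hk⟩
      · exact ⟨0, fun h' => absurd h' h⟩
    choose κ hκ using hex
    set V2 := V.filter (fun d => ¬ 2 ^ K ∣ d) with hV2
    have hmemV : ∀ d ∈ V2, d ∈ V := fun d hd => (mem_filter.1 hd).1
    have hd1 : ∀ d ∈ V2, 1 ≤ d ∧ d ≤ X := fun d hd => mem_Icc.1 (mem_filter.1 (hmemV d hd)).1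
    have hκ0 : ∀ d ∈ V2, κ d ≠ 0 := by
      intro d hd h0
      have h1 := hκ d (hmemV d hd)
      rw [h0, Nat.totient_zero] at h1
      have := (hd1 d hd).1
      omega
    have hinj : Set.InjOn κ V2 := by
      intro a ha b hb hab
      have h1 := hκ a (hmemV a ha)
      have h2 := hκ b (hmemV b hb)
      rw [← h1, ← h2, hab]
    have hterm : ∀ d ∈ V2, (1 : ℝ) / d ≤ 2 ^ K * wt (κ d) := by
      intro d hd
      have h1 := hκ d (hmemV d hd)
      have h2 := two_pow_dvd_totient (κ d) (hκ0 d hd)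
      have h3 : ¬ 2 ^ K ∣ d := (mem_filter.1 hd).2
      have h4 : ((κ d).primeFactors.erase 2).card < K := by
        by_contra hcon
        push Not at hcon
        apply h3
        rw [← h1]
        exact (Nat.pow_dvd_pow 2 hcon).trans h2
      have h5 : (κ d).primeFactors.card ≤ K := by
        have := Finset.pred_card_le_card_erase (s := (κ d).primeFactors) (a := 2)
        omega
      unfold wt
      rw [h1]
      have hd0 : (0 : ℝ) < d := by exact_mod_cast (hd1 d hd).1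
      rw [← mul_div_assoc]
      apply div_le_div_of_nonneg_right _ hd0.le
      calc (1 : ℝ) = 2 ^ K * (1 / 2) ^ K := by rw [← mul_pow]; norm_num
        _ ≤ 2 ^ K * (1 / 2) ^ (κ d).primeFactors.card := by
          apply mul_le_mul_of_nonneg_left _ hK0.le
          exact pow_le_pow_of_le_one (by norm_num) (by norm_num) h5
    have hsum : ∑ d ∈ V2, (1 : ℝ) / d ≤ 2 ^ K * ∑ k ∈ V2.image κ, wt k := by
      rw [Finset.sum_image hinj, Finset.mul_sum]
      exact Finset.sum_le_sum hterm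
    have hsm : ∀ k ∈ V2.image κ, k ∈ Nat.smoothNumbers (X + 2) := by
      intro k hk
      rw [mem_image] at hk
      obtain ⟨d, hd, rfl⟩ := hk
      rw [Nat.mem_smoothNumbers']
      intro p hp hpk
      have h1 := prime_le_of_totient (κ d) (hκ0 d hd) hp hpk
      rw [hκ d (hmemV d hd)] at h1
      have := (hd1 d hd).2
      omega
    have h1 := sum_wt_le (X + 2) _ hsm
    have h2 := hC (X + 2) (by omega)
    have h3 : Real.log ((X + 2 : ℕ) : ℝ) ≤ 4 * L := by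
      have : ((X + 2 : ℕ) : ℝ) ≤ (X : ℝ) ^ 2 := by
        push_cast
        nlinarith
      have h4 := Real.log_le_log (by positivity) this
      rw [Real.log_pow] at h4
      push_cast at h4 ⊢
      linarith
    have h5 : Real.log ((X + 2 : ℕ) : ℝ) ^ (1 / 2 : ℝ) ≤ 2 * L ^ (1 / 2 : ℝ) := by
      calc Real.log ((X + 2 : ℕ) : ℝ) ^ (1 / 2 : ℝ) ≤ (4 * L) ^ (1 / 2 : ℝ) := by
            apply Real.rpow_le_rpow _ h3 (by norm_num)
            exact Real.log_natCast_nonneg _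
        _ = 2 * L ^ (1 / 2 : ℝ) := by
            rw [Real.mul_rpow (by norm_num) hL0.le]
            congr 1
            rw [show (4 : ℝ) = 2 ^ (2 : ℝ) by norm_num, ← Real.rpow_mul (by norm_num)]
            norm_num
    calc ∑ d ∈ V2, (1 : ℝ) / d ≤ 2 ^ K * ∑ k ∈ V2.image κ, wt k := hsum
      _ ≤ L ^ (1 / 4 : ℝ) * (C * (2 * L ^ (1 / 2 : ℝ))) := by
        apply mul_le_mul hK1 _ (Finset.sum_nonneg (fun k _ => wt_nonneg k)) (by positivity)
        exact h1.trans (h2.trans (mul_le_mul_of_nonneg_left h5 hC0.le))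
      _ = 2 * C * L ^ (3 / 4 : ℝ) := by
        have : L ^ (3 / 4 : ℝ) = L ^ (1 / 4 : ℝ) * L ^ (1 / 2 : ℝ) := by
          rw [← Real.rpow_add hL0]; norm_num
        rw [this]; ring
  rw [hsplit]
  linarith

end Pool.Agent.R499.TotRecip
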