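import Mathlib
import Pool.Agent.Helper403.Pairs
import Pool.Agent.Helper923.HMertens
import Pool.Agent.Helper923.PPS.Smooth
import Pool.Agent.R499.TotRecip

/-!
Almost no primes `p` are of the form `φ(m) + 1` with `m` odd and composite.
-/

set_option autoImplicit false

namespace Pool.Agent.R499.BadPrimes

open Finset Filter

open Pool.Agent.Helper403 in
lemma card_pf_le {n : ℕ} (hn : 1 ≤ n) : (n.primeFactors.card : ℝ) * Real.log 2 ≤ Real.log n := by
  have h1 : 2 ^ n.primeFactors.card ≤ ∏ p ∈ n.primeFactors, p :=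
    Finset.pow_card_le_prod _ _ _ (fun p hp => (Nat.prime_of_mem_primeFactors hp).two_le)
  have h2 : 2 ^ n.primeFactors.card ≤ n :=
    h1.trans (Nat.le_of_dvd (by omega) (Nat.prod_primeFactors_dvd n))
  have h3 : ((2 : ℝ) ^ n.primeFactors.card) ≤ n := by exact_mod_cast h2
  have h4 := Real.log_le_log (by positivity) h3
  rwa [Real.log_pow] at h4

/-- `B n ≤ C log y` once `log n ≤ 4 y` -/
lemma B_le : ∃ C : ℝ, 1 ≤ C ∧ ∀ y n : ℕ, 3 ≤ y → 1 ≤ n → Real.log n ≤ 4 * y →
    Pool.Agent.Helper403.B n ≤ C * Real.log y := by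
  obtain ⟨C, hC0, hC⟩ := Pool.Agent.Helper923.HMertens.mertens_ratio
  have hl2 : (0 : ℝ) < Real.log 2 := Real.log_pos (by norm_num)
  have hl2' := Real.log_two_gt_d9
  refine ⟨Real.exp (1 / 2 + C / Real.log 2 + 6) / Real.log 2, ?_, ?_⟩
  · rw [le_div_iff₀ hl2, one_mul]
    have h1 : Real.log 2 ≤ 1 := by have := Real.log_two_lt_d9; linarith
    refine h1.trans (Real.one_le_exp (by positivity))
  intro y n hy hn hlog
  have hy0 : (0 : ℝ) < y := by exact_mod_cast (by omega : 0 < y)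
  have h1 : Pool.Agent.Helper403.B n ≤ Real.exp (∑ p ∈ n.primeFactors, 1 / (p : ℝ)) := by
    unfold Pool.Agent.Helper403.B Pool.Agent.Helper403.Pf
    rw [Real.exp_sum]
    refine Finset.prod_le_prod (fun i _ => by positivity) (fun i _ => ?_)
    have := Real.add_one_le_exp (1 / (i : ℝ))
    linarith
  have h2 : ∑ p ∈ n.primeFactors, 1 / (p : ℝ) ≤
      ∑ p ∈ (Finset.Icc 1 y).filter Nat.Prime, 1 / (p : ℝ) +
        ∑ p ∈ n.primeFactors, 1 / (y : ℝ) := by
    have e1 : ∑ p ∈ n.primeFactors, 1 / (p : ℝ) =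
        ∑ p ∈ n.primeFactors.filter (· ≤ y), 1 / (p : ℝ) +
        ∑ p ∈ n.primeFactors.filter (¬ · ≤ y), 1 / (p : ℝ) :=
      (Finset.sum_filter_add_sum_filter_not _ _ _).symm
    rw [e1]
    refine add_le_add ?_ ?_
    · refine Finset.sum_le_sum_of_subset_of_nonneg ?_ (fun i _ _ => by positivity)
      intro p hp
      rw [Finset.mem_filter] at hp ⊢
      have h3 := Nat.prime_of_mem_primeFactors hp.1
      exact ⟨Finset.mem_Icc.2 ⟨h3.one_le, hp.2⟩, h3⟩
    · refine le_trans (Finset.sum_le_sum (fun p hp => ?_)) (Finset.sum_le_sum_of_subset_of_nonneg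
        (Finset.filter_subset _ _) (fun i _ _ => by positivity))
      rw [Finset.mem_filter] at hp
      have h3 : (y : ℝ) ≤ p := by exact_mod_cast (not_le.1 hp.2).le
      exact one_div_le_one_div_of_le hy0 h3
  have h3 : ∑ p ∈ n.primeFactors, 1 / (y : ℝ) ≤ 6 := by
    rw [Finset.sum_const, nsmul_eq_mul]
    have := card_pf_le hn
    rw [mul_one_div, div_le_iff₀ hy0]
    have h4 : (n.primeFactors.card : ℝ) * Real.log 2 ≤ 4 * y := this.trans hlog
    nlinarith
  have h4 : ∑ p ∈ (Finset.Icc 1 y).filter Nat.Prime, 1 / (p : ℝ) ≤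
      1 / 2 + (Real.log (Real.log y / Real.log 2) + C / Real.log 2) := by
    have h5 := hC 2 y le_rfl (by omega)
    have h6 := (abs_le.1 h5).2
    have h7 : (Finset.Icc 1 y).filter Nat.Prime = insert 2 ((Finset.Ioc 2 y).filter Nat.Prime) := by
      ext p
      rw [Finset.mem_insert, Finset.mem_filter, Finset.mem_filter, Finset.mem_Icc, Finset.mem_Ioc]
      constructor
      · rintro ⟨⟨h8, h9⟩, h10⟩
        have := h10.two_le
        rcases Nat.eq_or_lt_of_le this with h11 | h11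
        · exact Or.inl h11.symm
        · exact Or.inr ⟨⟨h11, h9⟩, h10⟩
      · rintro (rfl | ⟨⟨h8, h9⟩, h10⟩)
        · exact ⟨⟨by omega, by omega⟩, Nat.prime_two⟩
        · exact ⟨⟨by omega, h9⟩, h10⟩
    rw [h7, Finset.sum_insert (by simp)]
    have h12 : (((2 : ℕ) : ℝ)) = 2 := by norm_num
    rw [h12] at h6 ⊢
    linarith
  have hly : 0 < Real.log y := Real.log_pos (by exact_mod_cast (by omega : 1 < y))
  calc Pool.Agent.Helper403.B n ≤ Real.exp (∑ p ∈ n.primeFactors, 1 / (p : ℝ)) := h1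
    _ ≤ Real.exp ((1 / 2 + C / Real.log 2 + 6) + Real.log (Real.log y / Real.log 2)) :=
        Real.exp_le_exp.2 (by linarith)
    _ = Real.exp (1 / 2 + C / Real.log 2 + 6) / Real.log 2 * Real.log y := by
        rw [Real.exp_add, Real.exp_log (by positivity)]
        ring

lemma sp_eq_self {z m : ℕ} (hm : m ≠ 0) (h : ∀ p : ℕ, p.Prime → p ∣ m → p ≤ z) :
    Pool.Agent.Helper923.PPS.sp z m = m := by
  unfold Pool.Agent.Helper923.PPS.sp
  rw [Finset.filter_true_of_mem (fun p hp => h p (Nat.prime_of_mem_primeFactors hp)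
    (Nat.dvd_of_mem_primeFactors hp))]
  exact Nat.prod_factorization_pow_eq_self hm

/-- `p` is bad if `p` is a prime and `p - 1 = φ(m)` for an odd composite `m`. -/
def Bad (p : ℕ) : Prop := p.Prime ∧ ∃ m : ℕ, Odd m ∧ 1 < m ∧ ¬ m.Prime ∧ Nat.totient m = p - 1

lemma telescope (z : ℕ) (hz : 1 ≤ z) (Q : ℕ) (hQ : z ≤ Q) :
    ∑ q ∈ Ioc z Q, 1 / ((q : ℝ) * ((q : ℝ) - 1)) = 1 / z - 1 / Q := by
  induction Q, hQ using Nat.le_induction with
  | base => simp
  | succ Q hQ ih =>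
    rw [Finset.sum_Ioc_succ_top hQ, ih]
    have h1 : (0 : ℝ) < Q := by exact_mod_cast (by omega : 0 < Q)
    push_cast
    have h2 : (Q : ℝ) + 1 - 1 = Q := by ring
    rw [h2]
    field_simp
    ring

open scoped Classical in
/-- the `p` with `q (q - 1) ∣ p - 1` for a prime `q > z` -/
lemma squares (X z : ℕ) (hz : 1 ≤ z) :
    (((Icc 1 X).filter (fun p => 2 ≤ p ∧ ∃ q : ℕ, q.Prime ∧ z < q ∧ q * (q - 1) ∣ p - 1)).card : ℝ)
      ≤ X / z := by
  have h1 : (Icc 1 X).filter (fun p => 2 ≤ p ∧ ∃ q : ℕ, q.Prime ∧ z < q ∧ q * (q - 1) ∣ p - 1) ⊆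
      (Ioc z (max z X)).biUnion (fun q => ((Icc 1 X).filter (fun j => q * (q - 1) ∣ j)).image
        (fun j => j + 1)) := by
    intro p hp
    rw [mem_filter, mem_Icc] at hp
    obtain ⟨⟨h1, h2⟩, h3, q, hq, hzq, hd⟩ := hp
    rw [mem_biUnion]
    have hq2 := hq.two_le
    have h4 : q * (q - 1) ≤ p - 1 := Nat.le_of_dvd (by omega) hd
    have h5 : q ≤ q * (q - 1) := Nat.le_mul_of_pos_right q (by omega)
    refine ⟨q, mem_Ioc.2 ⟨hzq, le_max_of_le_right (by omega)⟩, ?_⟩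
    rw [mem_image]
    exact ⟨p - 1, mem_filter.2 ⟨mem_Icc.2 ⟨by omega, by omega⟩, hd⟩, by omega⟩
  have h2 := (card_le_card h1).trans card_biUnion_le
  have h3 : ∀ q ∈ Ioc z (max z X), ((((Icc 1 X).filter (fun j => q * (q - 1) ∣ j)).image
        (fun j => j + 1)).card : ℝ) ≤ X * (1 / ((q : ℝ) * ((q : ℝ) - 1))) := by
    intro q hq
    rw [mem_Ioc] at hq
    have h4 : ((Icc 1 X).filter (fun j => q * (q - 1) ∣ j)).card = X / (q * (q - 1)) := by
      have := Nat.Ioc_filter_dvd_card_eq_div X (q * (q - 1))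
      rw [← this]
      rfl
    have h5 : ((((Icc 1 X).filter (fun j => q * (q - 1) ∣ j)).image (fun j => j + 1)).card : ℝ) ≤
        ((X / (q * (q - 1)) : ℕ) : ℝ) := by
      rw [← h4]
      exact_mod_cast card_image_le
    refine h5.trans ?_
    have h6 : ((X / (q * (q - 1)) : ℕ) : ℝ) ≤ (X : ℝ) / ((q * (q - 1) : ℕ) : ℝ) := Nat.cast_div_le
    refine h6.trans (le_of_eq ?_)
    rw [Nat.cast_mul, Nat.cast_sub (by omega : 1 ≤ q), Nat.cast_one]
    ring
  have h4 : (((Icc 1 X).filter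
      (fun p => 2 ≤ p ∧ ∃ q : ℕ, q.Prime ∧ z < q ∧ q * (q - 1) ∣ p - 1)).card : ℝ) ≤
      ∑ q ∈ Ioc z (max z X), ((((Icc 1 X).filter (fun j => q * (q - 1) ∣ j)).image
        (fun j => j + 1)).card : ℝ) := by
    exact_mod_cast h2
  refine h4.trans ((sum_le_sum h3).trans ?_)
  rw [← mul_sum, telescope z hz (max z X) (le_max_left _ _)]
  have h6 : (0 : ℝ) ≤ 1 / ((max z X : ℕ) : ℝ) := by positivity
  rw [div_eq_mul_one_div (X : ℝ) z]
  exact mul_le_mul_of_nonneg_left (by linarith) (by positivity)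

open scoped Classical in
/-- the count for one value `d` of the totient of the cofactor -/
lemma one_value {d N z X : ℕ} {D : ℝ} (hd : 2 ≤ d) (hdX : d ≤ X) (hN : 1 ≤ N) (hz : z = 4 ^ (16 * N))
    (hD : ∀ n : ℕ, 1 ≤ n → n ≤ X → Pool.Agent.Helper403.B n ≤ D) :
    (((Icc 1 X).filter (fun p => p.Prime ∧ ∃ q : ℕ, q.Prime ∧ z < q ∧ p - 1 = d * (q - 1))).card : ℝ) ≤
      (X : ℝ) * (10 * D ^ 4 / N ^ 2) * (1 / d) + (1 + 2 * 4 ^ (8 * N)) := by
  set F := (Icc 1 X).filter (fun p => p.Prime ∧ ∃ q : ℕ, q.Prime ∧ z < q ∧ p - 1 = d * (q - 1)) with hF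
  set Φ : ℕ → ℕ × ℕ := fun p => (p, (p + (d - 1)) / d) with hΦ
  have hinj : Set.InjOn Φ F := by
    intro x _ y _ h
    exact (Prod.ext_iff.1 h).1
  have hcard : (F.image Φ).card = F.card := Finset.card_image_of_injOn hinj
  have h4 : 4 ^ (2 * N) ≤ z := by
    rw [hz]
    exact Nat.pow_le_pow_right (by norm_num) (by omega)
  have hmem : ∀ x ∈ F.image Φ, 1 * x.1 + (d - 1) = d * x.2 + 0 ∧
      x.1 ≤ X ∧ x.1.Prime ∧ x.2.Prime ∧ 4 ^ (2 * N) < x.1 ∧ 4 ^ (2 * N) < x.2 := by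
    intro x hx
    obtain ⟨p, hp, rfl⟩ := Finset.mem_image.1 hx
    rw [hF, Finset.mem_filter, Finset.mem_Icc] at hp
    obtain ⟨⟨hp1, hpX⟩, hpp, q, hq, hzq, hpq⟩ := hp
    have hp2 := hpp.two_le
    obtain ⟨r, rfl⟩ : ∃ r, q = r + 1 := ⟨q - 1, by omega⟩
    rw [Nat.add_sub_cancel] at hpq
    have h5 : p + (d - 1) = d * (r + 1) := by
      have : d * (r + 1) = d * r + d := by ring
      omega
    have h1 : (p + (d - 1)) / d = r + 1 := by
      rw [h5]; exact Nat.mul_div_cancel_left _ (by omega)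
    simp only [hΦ, h1]
    have h6 : r ≤ d * r := Nat.le_mul_of_pos_left _ (by omega)
    have h7 : 2 * r ≤ d * r := Nat.mul_le_mul_right _ hd
    refine ⟨by omega, hpX, hpp, hq, by omega, by omega⟩
  have hk : d - 1 ≠ 0 := by omega
  have hmain := Pool.Agent.Helper403.pairs_sieve (N := N) (a := 1) (b := d)
    (k := d - 1) (k' := 0) (Y := X) hN (by norm_num) (by omega) hk (F.image Φ)
    (fun x hx => ⟨(hmem x hx).1, (hmem x hx).2.1⟩)
    (fun x hx => ⟨(hmem x hx).2.2.1, (hmem x hx).2.2.2.1,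
      (hmem x hx).2.2.2.2.1, (hmem x hx).2.2.2.2.2⟩)
  rw [hcard] at hmain
  refine hmain.trans ?_
  have hB1 : Pool.Agent.Helper403.B 1 = 1 := by
    simp [Pool.Agent.Helper403.B, Pool.Agent.Helper403.Pf]
  have hnat : Int.natAbs (((d - 1 : ℕ) : ℤ) - ((0 : ℕ) : ℤ)) = d - 1 := by simp
  rw [hB1, hnat, Nat.gcd_one_left]
  have o1 := Pool.Agent.Helper403.one_le_B d
  have o2 := Pool.Agent.Helper403.one_le_B (d - 1)
  have b1 := hD d (by omega) hdX
  have b2 := hD (d - 1) (by omega) (by omega)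
  have e2 : 1 * Pool.Agent.Helper403.B d * Pool.Agent.Helper403.B (d - 1) ≤ D * D := by
    rw [one_mul]
    exact mul_le_mul b1 b2 (by linarith) (by linarith)
  have hN0 : (0 : ℝ) < N := by exact_mod_cast hN
  have hd0 : (0 : ℝ) < d := by exact_mod_cast (by omega : 0 < d)
  have e3 : 10 * (1 * Pool.Agent.Helper403.B d * Pool.Agent.Helper403.B (d - 1)) ^ 2 / (N : ℝ) ^ 2 ≤
      10 * D ^ 4 / N ^ 2 := by
    refine div_le_div_of_nonneg_right ?_ (by positivity)
    have := pow_le_pow_left₀ (by positivity) e2 2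
    calc _ ≤ 10 * (D * D) ^ 2 := by linarith
      _ = 10 * D ^ 4 := by ring
  have e4 := mul_le_mul_of_nonneg_left e3 (show (0 : ℝ) ≤ (X : ℝ) * (1 / d) by positivity)
  have e5 : (X : ℝ) * ((1 : ℕ) : ℝ) / d = X * (1 / d) := by push_cast; ring
  rw [e5]
  linarith

/-- A prime divisor of `φ(m)` is at most the largest prime divisor of `m`. -/
lemma smooth_totient {z m : ℕ} (hm : m ≠ 0) (h : ∀ p : ℕ, p.Prime → p ∣ m → p ≤ z) :
    ∀ r : ℕ, r.Prime → r ∣ Nat.totient m → r ≤ z := by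
  intro r hr hd
  rw [Nat.totient_eq_prod_factorization hm, Finsupp.prod, Nat.support_factorization] at hd
  obtain ⟨p, hp, hd⟩ := (Prime.dvd_finsetProd_iff hr.prime _).1 hd
  have hpp := Nat.prime_of_mem_primeFactors hp
  have hpz := h p hpp (Nat.dvd_of_mem_primeFactors hp)
  rcases (Nat.Prime.dvd_mul hr).1 hd with h1 | h1
  · exact (Nat.le_of_dvd hpp.pos (hr.dvd_of_dvd_pow h1)).trans hpz
  · have h2 := hpp.two_le
    have := Nat.le_of_dvd (by omega) h1
    omega

open scoped Classical in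
/-- the values of the totient in `[2, X / z]` -/
noncomputable def VV (z X : ℕ) : Finset ℕ := (Icc 2 (X / z)).filter (fun d => ∃ k, Nat.totient k = d)

open scoped Classical in
lemma cover {z X w : ℕ} (hz : 2 ≤ z) :
    ((Icc 1 X).filter Bad).card ≤ (w + 1) +
      ((Icc 1 X).filter (fun m => w < Pool.Agent.Helper923.PPS.sp z m)).card +
      ((Icc 1 X).filter (fun p => 2 ≤ p ∧ ∃ q : ℕ, q.Prime ∧ z < q ∧ q * (q - 1) ∣ p - 1)).card +
      ∑ d ∈ VV z X, ((Icc 1 X).filter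
        (fun p => p.Prime ∧ ∃ q : ℕ, q.Prime ∧ z < q ∧ p - 1 = d * (q - 1))).card := by
  set A2 := (Icc 1 X).filter (fun m => w < Pool.Agent.Helper923.PPS.sp z m) with hA2
  set A3 := (Icc 1 X).filter
    (fun p => 2 ≤ p ∧ ∃ q : ℕ, q.Prime ∧ z < q ∧ q * (q - 1) ∣ p - 1) with hA3
  set F : ℕ → Finset ℕ := fun d => (Icc 1 X).filter
        (fun p => p.Prime ∧ ∃ q : ℕ, q.Prime ∧ z < q ∧ p - 1 = d * (q - 1)) with hF
  have hsub : (Icc 1 X).filter Bad ⊆ Icc 1 (w + 1) ∪ A2.image (fun j => j + 1) ∪ A3 ∪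
      (VV z X).biUnion F := by
    intro p hp
    rw [mem_filter, mem_Icc] at hp
    obtain ⟨⟨hp1, hpX⟩, hpp, m, hmodd, hm1, hmp, hφ⟩ := hp
    have hp2 := hpp.two_le
    rw [mem_union, mem_union, mem_union]
    by_cases h1 : p ≤ w + 1
    · exact Or.inl (Or.inl (Or.inl (mem_Icc.2 ⟨hp1, h1⟩)))
    by_cases h4 : ∃ q : ℕ, q.Prime ∧ q ∣ m ∧ z < q
    swap
    · push Not at h4
      have h5 := smooth_totient (z := z) (m := m) (by omega) h4
      rw [hφ] at h5
      have h6 := sp_eq_self (z := z) (m := p - 1) (by omega) h5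
      refine Or.inl (Or.inl (Or.inr (mem_image.2 ⟨p - 1, ?_, by omega⟩)))
      rw [hA2, mem_filter, mem_Icc, h6]
      omega
    obtain ⟨q, hq, ⟨k, rfl⟩, hzq⟩ := h4
    have hq2 := hq.two_le
    by_cases h5 : q ∣ k
    · refine Or.inl (Or.inr ?_)
      rw [hA3, mem_filter, mem_Icc]
      refine ⟨⟨hp1, hpX⟩, hp2, q, hq, hzq, ?_⟩
      have h6 : q ^ 2 ∣ q * k := by
        rw [pow_two]
        exact Nat.mul_dvd_mul_left q h5
      have h7 := Nat.totient_dvd_of_dvd h6
      rw [Nat.totient_prime_pow hq (by norm_num), hφ] at h7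
      simpa using h7
    · refine Or.inr ?_
      have hcop : Nat.Coprime q k := (Nat.Prime.coprime_iff_not_dvd hq).2 h5
      rw [Nat.totient_mul hcop, Nat.totient_prime hq] at hφ
      have hk0 : 0 < k := by
        rcases Nat.eq_zero_or_pos k with h | h
        · subst h; simp at hm1
        · exact h
      have hk1 : k ≠ 1 := by
        rintro rfl
        rw [mul_one] at hmp
        exact hmp hq
      have hkodd : k ≠ 2 := by
        rintro rfl
        rw [Nat.odd_iff] at hmodd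
        omega
      have hd2 : 2 ≤ Nat.totient k := by
        have h8 := Nat.totient_pos.2 hk0
        have h9 := Nat.totient_even (n := k) (by omega)
        obtain ⟨c, hc⟩ := h9
        omega
      rw [mem_biUnion]
      refine ⟨Nat.totient k, ?_, ?_⟩
      · unfold VV
        rw [mem_filter, mem_Icc]
        refine ⟨⟨hd2, ?_⟩, k, rfl⟩
        rw [Nat.le_div_iff_mul_le (by omega)]
        calc Nat.totient k * z ≤ Nat.totient k * (q - 1) := Nat.mul_le_mul_left _ (by omega)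
          _ = (q - 1) * Nat.totient k := by ring
          _ = p - 1 := hφ
          _ ≤ X := by omega
      · rw [hF]
        simp only [mem_filter, mem_Icc]
        exact ⟨⟨hp1, hpX⟩, hpp, q, hq, hzq, by rw [← hφ]; ring⟩
  refine (card_le_card hsub).trans ?_
  refine (card_union_le _ _).trans (add_le_add ((card_union_le _ _).trans
    (add_le_add ((card_union_le _ _).trans (add_le_add ?_ card_image_le)) le_rfl)) card_biUnion_le)
  simp

open scoped Classical in
lemma bad_le {N z X w : ℕ} {D C₁ C₃ : ℝ}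
    (hN : 1 ≤ N) (hz : z = 4 ^ (16 * N)) (hX : 4 ≤ X) (hw : 1 ≤ w)
    (hD : ∀ n : ℕ, 1 ≤ n → n ≤ X → Pool.Agent.Helper403.B n ≤ D)
    (hC₁ : ∀ (z T : ℕ) (v : ℝ), 3000 ≤ z → 0 ≤ v →
      (((Finset.Icc 1 T).filter
        (fun n => Real.exp v < (Pool.Agent.Helper923.PPS.sp z n : ℝ))).card : ℝ) ≤
      C₁ * T * Real.log z * Real.exp (-v / Real.log z))
    (hC₃ : ∑ d ∈ (Icc 1 X).filter (fun d => ∃ k, Nat.totient k = d), (1 : ℝ) / d ≤
      C₃ * (Real.log X) ^ (3 / 4 : ℝ)) :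
    ((((Icc 1 X).filter Bad).card : ℕ) : ℝ) ≤ (w + 1) +
      C₁ * X * Real.log z * Real.exp (-Real.log w / Real.log z) +
      X / z + ((X : ℝ) * (10 * D ^ 4 / N ^ 2) * (C₃ * (Real.log X) ^ (3 / 4 : ℝ)) +
        X / z * (1 + 2 * 4 ^ (8 * N))) := by
  have hz2 : 2 ≤ z := by
    rw [hz]
    calc 2 ≤ 4 ^ 1 := by norm_num
      _ ≤ 4 ^ (16 * N) := Nat.pow_le_pow_right (by norm_num) (by omega)
  have hcov := cover (z := z) (X := X) (w := w) hz2
  have hz0 : 0 < z := by omega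
  have hw0 : (0 : ℝ) < w := by exact_mod_cast hw
  have h3000 : 3000 ≤ z := by
    rw [hz]
    calc 3000 ≤ 4 ^ 16 := by norm_num
      _ ≤ 4 ^ (16 * N) := Nat.pow_le_pow_right (by norm_num) (by omega)
  have h2 := hC₁ z X (Real.log w) h3000 (Real.log_natCast_nonneg w)
  rw [Real.exp_log hw0] at h2
  have h2' : (((Icc 1 X).filter (fun m => w < Pool.Agent.Helper923.PPS.sp z m)).card : ℝ) ≤
      C₁ * X * Real.log z * Real.exp (-Real.log w / Real.log z) := by
    refine le_trans ?_ h2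
    have : ((Icc 1 X).filter (fun m => w < Pool.Agent.Helper923.PPS.sp z m)).card ≤
      ((Finset.Icc 1 X).filter
        (fun n => (w : ℝ) < (Pool.Agent.Helper923.PPS.sp z n : ℝ))).card := by
      refine card_le_card (fun m hm => ?_)
      rw [mem_filter] at hm ⊢
      exact ⟨hm.1, by exact_mod_cast hm.2⟩
    exact_mod_cast this
  have h3 := squares X z (by omega)
  have hDp : 0 ≤ D := by
    have := hD 1 le_rfl (by omega)
    have h1 := Pool.Agent.Helper403.one_le_B 1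
    linarith
  have hN0 : (0 : ℝ) < N := by exact_mod_cast hN
  have h4 : ∑ d ∈ VV z X, (((Icc 1 X).filter
        (fun p => p.Prime ∧ ∃ q : ℕ, q.Prime ∧ z < q ∧ p - 1 = d * (q - 1))).card : ℝ) ≤
      (X : ℝ) * (10 * D ^ 4 / N ^ 2) * (C₃ * (Real.log X) ^ (3 / 4 : ℝ)) +
        X / z * (1 + 2 * 4 ^ (8 * N)) := by
    have hdiv : X / z ≤ X := Nat.div_le_self _ _
    have e1 : ∀ d ∈ VV z X, (((Icc 1 X).filter
        (fun p => p.Prime ∧ ∃ q : ℕ, q.Prime ∧ z < q ∧ p - 1 = d * (q - 1))).card : ℝ) ≤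
        (X : ℝ) * (10 * D ^ 4 / N ^ 2) * (1 / d) + (1 + 2 * 4 ^ (8 * N)) := by
      intro d hd
      unfold VV at hd
      rw [mem_filter, mem_Icc] at hd
      exact one_value hd.1.1 (hd.1.2.trans hdiv) hN hz hD
    refine (sum_le_sum e1).trans ?_
    rw [sum_add_distrib, ← mul_sum, sum_const, nsmul_eq_mul]
    have e2 : ∑ d ∈ VV z X, (1 : ℝ) / d ≤ C₃ * (Real.log X) ^ (3 / 4 : ℝ) := by
      refine le_trans (Finset.sum_le_sum_of_subset_of_nonneg ?_ (fun i _ _ => by positivity)) hC₃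
      intro d hd
      unfold VV at hd
      rw [mem_filter, mem_Icc] at hd ⊢
      exact ⟨⟨by omega, by omega⟩, hd.2⟩
    have e3 : ((VV z X).card : ℝ) ≤ X / z := by
      have : (VV z X).card ≤ X / z := by
        unfold VV
        refine (card_filter_le _ _).trans ?_
        rw [Nat.card_Icc]
        generalize X / z = t
        omega
      have h5 : ((VV z X).card : ℝ) ≤ ((X / z : ℕ) : ℝ) := by exact_mod_cast this
      exact h5.trans Nat.cast_div_le
    refine add_le_add (mul_le_mul_of_nonneg_left e2 (by positivity))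
      (mul_le_mul_of_nonneg_right e3 (by positivity))
  have h5 : ((((Icc 1 X).filter Bad).card : ℕ) : ℝ) ≤ ((w + 1 : ℕ) : ℝ) +
      (((Icc 1 X).filter (fun m => w < Pool.Agent.Helper923.PPS.sp z m)).card : ℝ)
      + (((Icc 1 X).filter
        (fun p => 2 ≤ p ∧ ∃ q : ℕ, q.Prime ∧ z < q ∧ q * (q - 1) ∣ p - 1)).card : ℝ)
      + ∑ d ∈ VV z X, (((Icc 1 X).filter
        (fun p => p.Prime ∧ ∃ q : ℕ, q.Prime ∧ z < q ∧ p - 1 = d * (q - 1))).card : ℝ) := by
    exact_mod_cast hcov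
  push_cast at h5
  linarith

end Pool.Agent.R499.BadPrimes
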