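import Mathlib
import Pool.Agent.R499.BadPrimes

set_option autoImplicit false

namespace Pool.Agent.R499.BadPrimes

open Finset Filter

lemma eventually_ok : ∃ X₀ : ℕ, ∀ X : ℕ, X₀ ≤ X → 4 ≤ X ∧ 1 ≤ Real.log (Real.log X) ∧
    300 * Real.log (Real.log X) ^ 2 ≤ Real.log X ∧ 4 ≤ Real.log X ∧
    Real.log (Real.log X) ^ 6 ≤ Real.log X ^ (1 / 20 : ℝ) ∧ Real.log X ^ 4 ≤ X := by
  have h1 : ∀ᶠ L : ℝ in atTop, 1 ≤ Real.log L ∧ 300 * Real.log L ^ 2 ≤ L ∧ 4 ≤ L ∧
      Real.log L ^ 6 ≤ L ^ (1 / 20 : ℝ) := by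
    have e1 := Real.tendsto_log_atTop.eventually_ge_atTop 1
    have e2 := (Real.isLittleO_pow_log_id_atTop (n := 2)).def (show (0 : ℝ) < 1 / 300 by norm_num)
    have e3 := (isLittleO_log_rpow_rpow_atTop (s := 1 / 20) 6 (by norm_num)).def
      (show (0 : ℝ) < 1 by norm_num)
    filter_upwards [e1, e2, eventually_ge_atTop 4, e3] with L h1 h2 h3 h4
    refine ⟨h1, ?_, h3, ?_⟩
    · rw [Real.norm_of_nonneg (by positivity), id, Real.norm_of_nonneg (by linarith)] at h2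
      linarith
    · have h5 : Real.log L ^ (6 : ℝ) = Real.log L ^ 6 := by
        rw [← Real.rpow_natCast]; norm_num
      rw [h5, Real.norm_of_nonneg (by positivity), Real.norm_of_nonneg (by positivity)] at h4
      linarith
  have h2 := (Real.tendsto_log_atTop.comp (tendsto_natCast_atTop_atTop (R := ℝ))).eventually h1
  have h3 : ∀ᶠ x : ℝ in atTop, Real.log x ^ 4 ≤ x := by
    have e2 := (Real.isLittleO_pow_log_id_atTop (n := 4)).def (show (0 : ℝ) < 1 by norm_num)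
    filter_upwards [e2, eventually_ge_atTop 1] with x h1 h2
    have h3 := Real.log_nonneg h2
    rw [Real.norm_of_nonneg (by positivity), id, Real.norm_of_nonneg (by linarith)] at h1
    linarith
  have h4 := (tendsto_natCast_atTop_atTop (R := ℝ)).eventually h3
  obtain ⟨X₀, hX₀⟩ := eventually_atTop.1 (h2.and h4)
  refine ⟨max 4 X₀, fun X hX => ?_⟩
  have := hX₀ X ((le_max_right _ _).trans hX)
  exact ⟨(le_max_left _ _).trans hX, this.1.1, this.1.2.1, this.1.2.2.1, this.1.2.2.2, this.2⟩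

open scoped Classical in
/-- **Few bad primes.** -/
theorem bad_count : ∃ C : ℝ, 0 < C ∧ ∃ X₀ : ℕ, ∀ X : ℕ, X₀ ≤ X →
    ((((Icc 1 X).filter Bad).card : ℕ) : ℝ) ≤ C * X / Real.log X ^ (6 / 5 : ℝ) := by
  obtain ⟨C₁, hC₁1, hC₁⟩ := Pool.Agent.Helper923.PPS.rankin_count
    Pool.Agent.Helper923.HMertens.mertens_log Pool.Agent.Helper923.HMertens.mertens_ratio
  obtain ⟨C₂, hC₂1, hC₂⟩ := B_le
  obtain ⟨C₃, hC₃0, hC₃⟩ := Pool.Agent.R499.TotRecip.recip_totients
  obtain ⟨X₀, hX₀⟩ := eventually_ok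
  refine ⟨6 + C₁ + 57600000 * C₂ ^ 4 * C₃, by positivity, X₀, fun X hX => ?_⟩
  obtain ⟨hX4, hll, h300, hL4, hll6, hLX⟩ := hX₀ X hX
  set L := Real.log X with hL
  set ll := Real.log L with hllD
  have hXR : (0 : ℝ) < X := by exact_mod_cast (by omega : 0 < X)
  have hL0 : 0 < L := by linarith
  have hll0 : 0 < ll := by linarith
  set t := L / (300 * ll) with ht
  have htl : t * ll = L / 300 := by rw [ht]; field_simp
  have ht1 : 1 ≤ t := by rw [ht, le_div_iff₀ (by positivity)]; nlinarith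
  have htll : ll ≤ t := by
    have h1 : ll * ll ≤ t * ll := by rw [htl]; nlinarith
    exact le_of_mul_le_mul_right h1 hll0
  set N := ⌊t⌋₊ with hN
  have hN1 : 1 ≤ N := Nat.le_floor (by exact_mod_cast ht1)
  have hN1R : (1 : ℝ) ≤ N := by exact_mod_cast hN1
  have hNt : (N : ℝ) ≤ t := Nat.floor_le (by linarith)
  have hNt2 : t / 2 ≤ N := by
    have h1 := Nat.lt_floor_add_one t
    rw [← hN] at h1
    linarith
  have hl4a := Pool.Agent.Helper403.log_four_ge
  have hl4b := Pool.Agent.Helper403.log_four_le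
  set z : ℕ := 4 ^ (16 * N) with hz
  have hzR : (z : ℝ) = (4 : ℝ) ^ (16 * N) := by rw [hz]; push_cast; rfl
  have hz0 : (0 : ℝ) < z := by rw [hzR]; positivity
  have hlogz : Real.log z = 16 * N * Real.log 4 := by
    rw [hzR, Real.log_pow]; push_cast; ring
  have hlogz0 : 0 < Real.log z := by rw [hlogz]; positivity
  have hlz : Real.log z * ll ≤ 0.08 * L := by
    rw [hlogz]
    have h1 : (16 * N * Real.log 4) * ll ≤ (16 * t * 1.3863) * ll :=
      mul_le_mul_of_nonneg_right (mul_le_mul (by linarith) hl4b (by linarith) (by linarith)) hll0.le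
    have h2 : (16 * t * 1.3863) * ll = 16 * 1.3863 * (t * ll) := by ring
    rw [h2, htl] at h1
    linarith
  have hlzL : Real.log z ≤ L := by nlinarith
  -- the power `4 ^ (8 N)`
  set u : ℝ := (4 : ℝ) ^ (8 * N) with hu
  have hu0 : 0 < u := by rw [hu]; positivity
  have huz : (z : ℝ) = u * u := by rw [hzR, hu, ← pow_add]; congr 1; ring
  have huL : L ^ 2 ≤ u := by
    have h1 : 2 * ll ≤ Real.log u := by
      rw [hu, Real.log_pow]
      push_cast
      have h2 : 8 * (t / 2) * 1.386 ≤ 8 * (N : ℝ) * Real.log 4 :=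
        mul_le_mul (by linarith) hl4a (by norm_num) (by linarith)
      linarith
    have h2 : Real.log (L ^ 2) ≤ Real.log u := by
      rw [Real.log_pow]; push_cast; exact h1
    exact (Real.log_le_log_iff (by positivity) hu0).1 h2
  have hu1 : 1 ≤ u := by nlinarith
  -- the square root
  set w := Nat.sqrt X with hw
  have hw1 : 1 ≤ w := by rw [hw, Nat.le_sqrt]; omega
  have hw0 : (0 : ℝ) < w := by exact_mod_cast hw1
  have hw1R : (1 : ℝ) ≤ w := by exact_mod_cast hw1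
  have hwX : (w : ℝ) * w ≤ X := by exact_mod_cast Nat.sqrt_le X
  have hwX2 : (X : ℝ) ≤ 4 * (w * w) := by
    have h1 : X < (w + 1) * (w + 1) := Nat.lt_succ_sqrt X
    have h2 : (w + 1) * (w + 1) ≤ 4 * (w * w) := by nlinarith
    exact_mod_cast (h1.le.trans h2)
  have hlogw : L / 4 ≤ Real.log w := by
    have h1 := Real.log_le_log hXR hwX2
    rw [Real.log_mul (by norm_num) (by positivity), Real.log_mul hw0.ne' hw0.ne', ← hL] at h1
    linarith
  -- the bound for `B`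
  have hD : ∀ n : ℕ, 1 ≤ n → n ≤ X → Pool.Agent.Helper403.B n ≤ C₂ * (2 * ll) := by
    intro n hn1 hn2
    have hy : (L : ℝ) ≤ (⌈L⌉₊ : ℕ) := Nat.le_ceil L
    have hy2 : ((⌈L⌉₊ : ℕ) : ℝ) ≤ 2 * L := by
      have := Nat.ceil_lt_add_one hL0.le
      linarith
    have hy3 : 3 ≤ ⌈L⌉₊ := by
      have : (3 : ℝ) ≤ (⌈L⌉₊ : ℕ) := by linarith
      exact_mod_cast this
    have hnL : Real.log n ≤ 4 * (⌈L⌉₊ : ℕ) := by
      have h1 : (n : ℝ) ≤ (X : ℝ) := by exact_mod_cast hn2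
      have h2 := Real.log_le_log (by exact_mod_cast hn1) h1
      linarith
    refine (hC₂ ⌈L⌉₊ n hy3 hn1 hnL).trans (mul_le_mul_of_nonneg_left ?_ (by linarith))
    have h3 := Real.log_le_log (by linarith) hy2
    rw [Real.log_mul (by norm_num) hL0.ne'] at h3
    have := Real.log_two_lt_d9
    linarith
  have hmain := bad_le (w := w) hN1 hz hX4 hw1 hD hC₁ (hC₃ X (by omega))
  rw [← hL, ← hu] at hmain
  -- the five terms
  have T1 : (w : ℝ) ≤ X / L ^ 2 := by
    rw [le_div_iff₀ (by positivity)]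
    have h1 : ((w : ℝ) * L ^ 2) ^ 2 ≤ (X : ℝ) ^ 2 := by
      calc ((w : ℝ) * L ^ 2) ^ 2 = (w * w) * L ^ 4 := by ring
        _ ≤ (X : ℝ) * (X : ℝ) := mul_le_mul hwX hLX (by positivity) hXR.le
        _ = (X : ℝ) ^ 2 := by ring
    exact (pow_le_pow_iff_left₀ (by positivity) hXR.le (by norm_num)).1 h1
  have T2 : C₁ * X * Real.log z * Real.exp (-Real.log w / Real.log z) ≤ C₁ * (X / L ^ 2) := by
    have h1 : 3 * ll ≤ Real.log w / Real.log z := by
      rw [le_div_iff₀ hlogz0]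
      nlinarith
    have h2 : Real.exp (-Real.log w / Real.log z) ≤ 1 / (L * L * L) := by
      have h3 : -Real.log w / Real.log z ≤ -(ll + ll + ll) := by rw [neg_div]; linarith
      refine (Real.exp_le_exp.2 h3).trans (le_of_eq ?_)
      rw [Real.exp_neg, Real.exp_add, Real.exp_add, hllD, Real.exp_log hL0, one_div]
    calc C₁ * X * Real.log z * Real.exp (-Real.log w / Real.log z)
        ≤ C₁ * X * L * (1 / (L * L * L)) := by
          refine mul_le_mul (mul_le_mul_of_nonneg_left hlzL (by positivity)) h2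
            (Real.exp_pos _).le (by positivity)
      _ = C₁ * (X / L ^ 2) := by field_simp
  have T3 : (X : ℝ) / z ≤ X / L ^ 2 := by
    refine div_le_div_of_nonneg_left hXR.le (by positivity) ?_
    rw [huz]; nlinarith
  have T5 : (X : ℝ) / z * (1 + 2 * u) ≤ 3 * (X / L ^ 2) := by
    have h1 : (X : ℝ) / z * (1 + 2 * u) ≤ X / z * (3 * u) :=
      mul_le_mul_of_nonneg_left (by linarith) (by positivity)
    refine h1.trans ?_
    have h2 : (X : ℝ) / z * (3 * u) = 3 * (X / u) := by rw [huz]; field_simp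
    rw [h2]
    exact mul_le_mul_of_nonneg_left (div_le_div_of_nonneg_left hXR.le (by positivity) huL) (by norm_num)
  have hq : L ^ 2 = L ^ (3 / 4 : ℝ) * L ^ (1 / 20 : ℝ) * L ^ (6 / 5 : ℝ) := by
    rw [← Real.rpow_add hL0, ← Real.rpow_add hL0, ← Real.rpow_natCast]
    norm_num
  have T4 : (X : ℝ) * (10 * (C₂ * (2 * ll)) ^ 4 / (N : ℝ) ^ 2) * (C₃ * L ^ (3 / 4 : ℝ)) ≤
      57600000 * C₂ ^ 4 * C₃ * (X / L ^ (6 / 5 : ℝ)) := by
    have h1 : L / (600 * ll) ≤ N := by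
      refine le_trans (le_of_eq ?_) hNt2
      rw [ht]; field_simp; norm_num
    have h2 : (L / (600 * ll)) ^ 2 ≤ (N : ℝ) ^ 2 := pow_le_pow_left₀ (by positivity) h1 2
    have h3 : 10 * (C₂ * (2 * ll)) ^ 4 / (N : ℝ) ^ 2 ≤
        10 * (C₂ * (2 * ll)) ^ 4 / (L / (600 * ll)) ^ 2 :=
      div_le_div_of_nonneg_left (by positivity) (by positivity) h2
    have h4 : 10 * (C₂ * (2 * ll)) ^ 4 / (L / (600 * ll)) ^ 2 = 57600000 * C₂ ^ 4 * ll ^ 6 / L ^ 2 := by
      field_simp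
      ring
    have h5 : 57600000 * C₂ ^ 4 * ll ^ 6 / L ^ 2 ≤ 57600000 * C₂ ^ 4 * L ^ (1 / 20 : ℝ) / L ^ 2 :=
      div_le_div_of_nonneg_right (mul_le_mul_of_nonneg_left hll6 (by positivity)) (by positivity)
    calc (X : ℝ) * (10 * (C₂ * (2 * ll)) ^ 4 / (N : ℝ) ^ 2) * (C₃ * L ^ (3 / 4 : ℝ))
        ≤ X * (57600000 * C₂ ^ 4 * L ^ (1 / 20 : ℝ) / L ^ 2) * (C₃ * L ^ (3 / 4 : ℝ)) := by
          refine mul_le_mul_of_nonneg_right (mul_le_mul_of_nonneg_left ?_ hXR.le) (by positivity)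
          rw [h4] at h3
          exact h3.trans h5
      _ = 57600000 * C₂ ^ 4 * C₃ * (X / L ^ (6 / 5 : ℝ)) := by
          rw [hq]
          have e1 : L ^ (3 / 4 : ℝ) ≠ 0 := by positivity
          have e2 : L ^ (1 / 20 : ℝ) ≠ 0 := by positivity
          have e3 : L ^ (6 / 5 : ℝ) ≠ 0 := by positivity
          field_simp
  have hfin : (X : ℝ) / L ^ 2 ≤ X / L ^ (6 / 5 : ℝ) := by
    refine div_le_div_of_nonneg_left hXR.le (by positivity) ?_
    rw [← Real.rpow_natCast]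
    exact Real.rpow_le_rpow_of_exponent_le (by linarith) (by norm_num)
  have hXL : 0 ≤ (X : ℝ) / L ^ (6 / 5 : ℝ) := by positivity
  calc ((((Icc 1 X).filter Bad).card : ℕ) : ℝ) ≤ _ := hmain
    _ ≤ 2 * (X / L ^ 2) + C₁ * (X / L ^ 2) + X / L ^ 2 +
        (57600000 * C₂ ^ 4 * C₃ * (X / L ^ (6 / 5 : ℝ)) + 3 * (X / L ^ 2)) := by
        linarith
    _ = (6 + C₁) * (X / L ^ 2) + 57600000 * C₂ ^ 4 * C₃ * (X / L ^ (6 / 5 : ℝ)) := by ring
    _ ≤ (6 + C₁) * (X / L ^ (6 / 5 : ℝ)) + 57600000 * C₂ ^ 4 * C₃ * (X / L ^ (6 / 5 : ℝ)) :=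
        add_le_add (mul_le_mul_of_nonneg_left hfin (by positivity)) le_rfl
    _ = (6 + C₁ + 57600000 * C₂ ^ 4 * C₃) * X / L ^ (6 / 5 : ℝ) := by ring

end Pool.Agent.R499.BadPrimes
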