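import Mathlib
import Pool.Agent.R499.BadCount

set_option autoImplicit false

namespace Pool.Agent.R499.BadPrimes

open Finset Filter Topology

open scoped Classical in
theorem bad_final : ∃ C : ℝ, 0 < C ∧ ∀ X : ℕ, 2 ≤ X →
    ((((Icc 1 X).filter Bad).card : ℕ) : ℝ) ≤ C * X / Real.log X ^ (6 / 5 : ℝ) := by
  obtain ⟨C, hC0, X₀, hC⟩ := bad_count
  refine ⟨max C (Real.log (X₀ + 2 : ℕ) ^ (6 / 5 : ℝ)), lt_max_of_lt_left hC0, fun X hX => ?_⟩
  have hX0 : (0 : ℝ) < X := by exact_mod_cast (by omega : 0 < X)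
  have hL0 : 0 < Real.log X := Real.log_pos (by exact_mod_cast (by omega : 1 < X))
  rcases Nat.lt_or_ge X X₀ with h | h
  · have h1 : ((((Icc 1 X).filter Bad).card : ℕ) : ℝ) ≤ X := by
      have : ((Icc 1 X).filter Bad).card ≤ X := by
        refine (card_filter_le _ _).trans ?_
        rw [Nat.card_Icc]; omega
      exact_mod_cast this
    refine h1.trans ?_
    rw [le_div_iff₀ (by positivity), mul_comm]
    apply mul_le_mul_of_nonneg_right _ hX0.le
    refine le_trans ?_ (le_max_right _ _)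
    apply Real.rpow_le_rpow hL0.le _ (by norm_num)
    exact Real.log_le_log hX0 (by exact_mod_cast (by omega : X ≤ X₀ + 2))
  · refine (hC X h).trans ?_
    apply div_le_div_of_nonneg_right _ (by positivity)
    exact mul_le_mul_of_nonneg_right (le_max_left _ _) hX0.le

lemma pi_lower : ∀ᶠ X : ℕ in atTop, (X : ℝ) / (2 * Real.log X) ≤ (Nat.primeCounting X : ℝ) := by
  have h1 : ∀ᶠ x : ℝ in atTop, Real.log x ≤ (1 / 20) * x := by
    have e := (Real.isLittleO_log_id_atTop).def (show (0 : ℝ) < 1 / 20 by norm_num)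
    filter_upwards [e, eventually_ge_atTop 1] with x h1 h2
    have h3 := Real.log_nonneg h2
    rw [Real.norm_of_nonneg h3, id, Real.norm_of_nonneg (by linarith)] at h1
    exact h1
  have h2 := (tendsto_natCast_atTop_atTop (R := ℝ)).eventually h1
  obtain ⟨X₀, hX₀⟩ := eventually_atTop.1 h2
  rw [eventually_atTop]
  refine ⟨max X₀ 3, fun X hX => ?_⟩
  have h3 := hX₀ (X + 1) (by have := le_max_left X₀ 3; omega)
  have hX3 : 3 ≤ X := (le_max_right X₀ 3).trans hX
  have hXR : (3 : ℝ) ≤ X := by exact_mod_cast hX3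
  have hL0 : 0 < Real.log X := Real.log_pos (by linarith)
  have h4 := Chebyshev.pi_ge X
  refine le_trans ?_ h4
  push_cast at h3
  have hl2 := Real.log_two_gt_d9
  rw [div_le_div_iff₀ (by positivity) hL0]
  have h5 : (X : ℝ) ≤ 2 * (X * Real.log 2 - Real.log (X + 1)) := by nlinarith
  nlinarith

open scoped Classical in
theorem bad_ratio : Tendsto (fun X : ℕ => ((((Icc 1 X).filter Bad).card : ℕ) : ℝ) /
    (Nat.primeCounting X : ℝ)) atTop (𝓝 0) := by
  obtain ⟨C, hC0, hC⟩ := bad_final
  have h1 : Tendsto (fun X : ℕ => 2 * C * (Real.log (X : ℝ)) ^ (-(1 / 5) : ℝ)) atTop (𝓝 0) := by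
    have h2 := (tendsto_rpow_neg_atTop (y := 1 / 5) (by norm_num)).comp
      (Real.tendsto_log_atTop.comp (tendsto_natCast_atTop_atTop (R := ℝ)))
    have h3 := h2.const_mul (2 * C)
    rw [mul_zero] at h3
    exact h3
  refine tendsto_of_tendsto_of_tendsto_of_le_of_le' tendsto_const_nhds h1 ?_ ?_
  · filter_upwards with X
    positivity
  · filter_upwards [pi_lower, eventually_ge_atTop 3] with X hπ hX
    have hXR : (3 : ℝ) ≤ X := by exact_mod_cast hX
    have hL0 : 0 < Real.log X := Real.log_pos (by linarith)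
    have hq : 0 < (X : ℝ) / (2 * Real.log X) := by positivity
    have hπ0 : (0 : ℝ) < Nat.primeCounting X := lt_of_lt_of_le hq hπ
    rw [div_le_iff₀ hπ0]
    refine (hC X (by omega)).trans ?_
    have h4 : C * X / Real.log X ^ (6 / 5 : ℝ) =
        2 * C * (Real.log (X : ℝ)) ^ (-(1 / 5) : ℝ) * ((X : ℝ) / (2 * Real.log X)) := by
      have e1 : Real.log (X : ℝ) ^ (6 / 5 : ℝ) = Real.log (X : ℝ) ^ (1 / 5 : ℝ) * Real.log (X : ℝ) := by
        nth_rewrite 3 [← Real.rpow_one (Real.log (X : ℝ))]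
        rw [← Real.rpow_add hL0]
        norm_num
      rw [e1, Real.rpow_neg hL0.le]
      have e2 : Real.log (X : ℝ) ^ (1 / 5 : ℝ) ≠ 0 := by positivity
      field_simp
    rw [h4]
    exact mul_le_mul_of_nonneg_left hπ (by positivity)

open scoped Classical in
/-- The primes up to `X` that are not bad, counted with the primes. -/
theorem good_ratio (P : ℕ → Prop) (hP : ∀ p : ℕ, p.Prime → ¬ Bad p → P p) :
    Tendsto (fun X : ℕ => ((((Icc 1 X).filter (fun p => p.Prime ∧ P p)).card : ℕ) : ℝ) /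
    (Nat.primeCounting X : ℝ)) atTop (𝓝 1) := by
  have hcard : ∀ X : ℕ, ((Icc 1 X).filter Nat.Prime).card = Nat.primeCounting X := by
    intro X
    rw [← Nat.primesLE_card_eq_primeCounting]
    congr 1
    ext p
    rw [mem_filter, mem_Icc, Nat.mem_primesLE]
    constructor
    · rintro ⟨⟨_, h2⟩, h3⟩; exact ⟨h2, h3⟩
    · rintro ⟨h2, h3⟩; exact ⟨⟨h3.one_le, h2⟩, h3⟩
  have hup : ∀ X : ℕ, ((Icc 1 X).filter (fun p => p.Prime ∧ P p)).card ≤ Nat.primeCounting X := by
    intro X
    rw [← hcard X]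
    apply card_le_card
    intro p hp
    rw [mem_filter] at hp ⊢
    exact ⟨hp.1, hp.2.1⟩
  have hlow : ∀ X : ℕ, Nat.primeCounting X ≤
      ((Icc 1 X).filter (fun p => p.Prime ∧ P p)).card + ((Icc 1 X).filter Bad).card := by
    intro X
    rw [← hcard X]
    refine le_trans (card_le_card ?_) (card_union_le _ _)
    intro p hp
    rw [mem_filter] at hp
    rw [mem_union, mem_filter, mem_filter]
    by_cases h : Bad p
    · exact Or.inr ⟨hp.1, h⟩
    · exact Or.inl ⟨hp.1, hp.2, hP p hp.2 h⟩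
  have hlim : Tendsto (fun X : ℕ => 1 - ((((Icc 1 X).filter Bad).card : ℕ) : ℝ) /
    (Nat.primeCounting X : ℝ)) atTop (𝓝 1) := by
    have := bad_ratio.const_sub 1
    rwa [sub_zero] at this
  refine tendsto_of_tendsto_of_tendsto_of_le_of_le' hlim tendsto_const_nhds ?_ ?_
  · filter_upwards [eventually_ge_atTop 3] with X hX
    have hπ0 : (0 : ℝ) < Nat.primeCounting X := by
      have : 0 < Nat.primeCounting X := by
        rw [Nat.pos_iff_ne_zero, Ne, Nat.primeCounting_eq_zero_iff]
        omega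
      exact_mod_cast this
    have h1 : (Nat.primeCounting X : ℝ) ≤
      ((((Icc 1 X).filter (fun p => p.Prime ∧ P p)).card : ℕ) : ℝ) +
        ((((Icc 1 X).filter Bad).card : ℕ) : ℝ) := by exact_mod_cast hlow X
    rw [sub_le_iff_le_add, ← add_div, le_div_iff₀ hπ0]
    linarith
  · filter_upwards [eventually_ge_atTop 3] with X hX
    have hπ0 : (0 : ℝ) < Nat.primeCounting X := by
      have : 0 < Nat.primeCounting X := by
        rw [Nat.pos_iff_ne_zero, Ne, Nat.primeCounting_eq_zero_iff]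
        omega
      exact_mod_cast this
    rw [div_le_one hπ0]
    exact_mod_cast hup X

end Pool.Agent.R499.BadPrimes
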