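import Mathlib

/-!
# Block sums and signed binomial coefficients modulo prime powers

Write `q n k = (-1)^k * C(n-1, k)`.  For a prime `p` with `p^f ∣ p * n₁` one has
`q (p n₁) (p j + i) ≡ q n₁ j (mod p^f)` for `0 ≤ i < p`.  As a consequence, if an integer sequence
`b` satisfies `p^e ∣ ∑_{k<n} (q n k)^r * b k` for all `n ≥ 1` and all `e` with `p^e ∣ n`, then also
`p^e ∣ ∑_{k<n} b k` for all `n` and all `e` with `p^e ∣ n`.
-/

namespace Pool.Agent.R499.BlockSum

open Finset

/-- the signed binomial coefficient `(-1)^k * C(n-1,k)` -/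
def q (n k : ℕ) : ℤ := (-1) ^ k * ((n - 1).choose k : ℤ)

lemma q_zero (n : ℕ) : q n 0 = 1 := by simp [q]

lemma q_rec {n : ℕ} (hn : 1 ≤ n) (k : ℕ) :
    ((k : ℤ) + 1) * q n (k + 1) = ((k : ℤ) + 1 - n) * q n k := by
  obtain ⟨N, rfl⟩ : ∃ N, n = N + 1 := ⟨n - 1, by omega⟩
  have h := Nat.choose_succ_right_eq N k
  unfold q
  simp only [Nat.add_sub_cancel]
  rcases le_or_gt k N with hk | hk
  · have h2 : ((N.choose (k + 1) : ℤ)) * ((k : ℤ) + 1) = (N.choose k : ℤ) * ((N : ℤ) - k) := by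
      have := congrArg (fun x : ℕ => (x : ℤ)) h
      push_cast [Nat.cast_sub hk] at this
      linarith
    rw [pow_succ]
    push_cast
    linear_combination (-1 : ℤ) ^ k * (-1) * h2
  · rw [Nat.choose_eq_zero_of_lt hk, Nat.choose_eq_zero_of_lt (by omega : N < k + 1)]
    simp

/-- cancel a factor prime to `p` -/
lemma cancel_coprime {p f : ℕ} {c x : ℤ} (hp : p.Prime) (hc : ¬ (p : ℤ) ∣ c)
    (h : (p : ℤ) ^ f ∣ c * x) : (p : ℤ) ^ f ∣ x := by
  have hcop : IsCoprime ((p : ℤ) ^ f) c := by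
    apply IsCoprime.pow_left
    exact (Prime.coprime_iff_not_dvd (Nat.prime_iff_prime_int.mp hp)).mpr hc
  exact hcop.dvd_of_dvd_mul_left h

/-- within a block the `q n k` are constant modulo `p^f` -/
lemma q_block {p f n : ℕ} (hp : p.Prime) (hn : 1 ≤ n) (hf : p ^ f ∣ n) (j : ℕ) :
    ∀ i, i < p → (p : ℤ) ^ f ∣ q n (p * j + i) - q n (p * j) := by
  intro i
  induction i with
  | zero => intro _; simp
  | succ i ih =>
    intro hi
    have h1 := ih (by omega)
    have h2 : (p : ℤ) ^ f ∣ q n (p * j + (i + 1)) - q n (p * j + i) := by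
      have hr := q_rec hn (p * j + i)
      apply cancel_coprime hp (c := ((p * j + i : ℕ) : ℤ) + 1)
      · intro hd
        have : (p : ℤ) ∣ ((p * j + (i + 1) : ℕ) : ℤ) := by
          have : ((p * j + (i + 1) : ℕ) : ℤ) = ((p * j + i : ℕ) : ℤ) + 1 := by push_cast; ring
          rw [this]; exact hd
        have h3 : p ∣ p * j + (i + 1) := by exact_mod_cast this
        have h4 : p ∣ i + 1 := (Nat.dvd_add_right (dvd_mul_right p j)).mp h3
        exact absurd (Nat.le_of_dvd (by omega) h4) (by omega)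
      · have : (((p * j + i : ℕ) : ℤ) + 1) * (q n (p * j + (i + 1)) - q n (p * j + i))
            = -(n : ℤ) * q n (p * j + i) := by
          have e : p * j + (i + 1) = p * j + i + 1 := by ring
          rw [e]
          linear_combination hr
        rw [this]
        have h5 : (p : ℤ) ^ f ∣ (n : ℤ) := by exact_mod_cast hf
        exact Dvd.dvd.mul_right ((dvd_neg).mpr h5) _
    have : q n (p * j + (i + 1)) - q n (p * j)
        = (q n (p * j + (i + 1)) - q n (p * j + i)) + (q n (p * j + i) - q n (p * j)) := by ring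
    rw [this]
    exact dvd_add h2 h1

/-- partial product over one block: `∏_{i=1}^{t} (p j + i)` -/
lemma q_prod {p n : ℕ} (hn : 1 ≤ n) (j : ℕ) (t : ℕ) :
    (∏ i ∈ range t, ((p : ℤ) * j + i + 1)) * q n (p * j + t)
      = (∏ i ∈ range t, ((p : ℤ) * j + i + 1 - n)) * q n (p * j) := by
  induction t with
  | zero => simp
  | succ t ih =>
    rw [prod_range_succ, prod_range_succ]
    have hr := q_rec hn (p * j + t)
    push_cast at hr
    have e : p * j + (t + 1) = p * j + t + 1 := by ring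
    rw [e]
    linear_combination (∏ i ∈ range t, ((p : ℤ) * j + i + 1)) * hr
      + ((p : ℤ) * j + t + 1 - n) * ih

/-- `A p j = ∏_{i ≤ p j, p ∤ i} i` -/
def A (p j : ℕ) : ℤ := ∏ l ∈ range j, ∏ i ∈ range (p - 1), ((p : ℤ) * l + i + 1)

/-- `B p n j = ∏_{i ≤ p j, p ∤ i} (i - n)` -/
def B (p n j : ℕ) : ℤ := ∏ l ∈ range j, ∏ i ∈ range (p - 1), ((p : ℤ) * l + i + 1 - n)

lemma AB {p n₁ : ℕ} (hp : p.Prime) (hn : 1 ≤ n₁) (j : ℕ) :
    A p j * q (p * n₁) (p * j) = B p (p * n₁) j * q n₁ j := by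
  induction j with
  | zero => simp [A, B, q_zero]
  | succ j ih =>
    have hn' : 1 ≤ p * n₁ := Nat.mul_pos hp.pos hn
    have h1 := q_prod (p := p) hn' j (p - 1)
    have hA : A p (j + 1) = A p j * ∏ i ∈ range (p - 1), ((p : ℤ) * j + i + 1) := by
      unfold A; rw [prod_range_succ]
    have hB : B p (p * n₁) (j + 1)
        = B p (p * n₁) j * ∏ i ∈ range (p - 1), ((p : ℤ) * j + i + 1 - ((p * n₁ : ℕ) : ℤ)) := by
      unfold B; rw [prod_range_succ]
    have h2 := q_rec hn' (p * j + (p - 1))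
    have e1 : p * j + (p - 1) + 1 = p * (j + 1) := by
      have := hp.pos
      rw [mul_add, mul_one]; omega
    rw [e1] at h2
    have e2 : (((p * j + (p - 1) : ℕ) : ℤ)) + 1 = (p : ℤ) * (j + 1) := by
      have : ((p * j + (p - 1) + 1 : ℕ) : ℤ) = ((p * (j + 1) : ℕ) : ℤ) := by rw [e1]
      push_cast at this ⊢
      linarith
    rw [e2] at h2
    have hp0 : (p : ℤ) ≠ 0 := by exact_mod_cast hp.ne_zero
    have h3 : ((j : ℤ) + 1) * q (p * n₁) (p * (j + 1))
        = ((j : ℤ) + 1 - n₁) * q (p * n₁) (p * j + (p - 1)) := by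
      apply mul_left_cancel₀ hp0
      push_cast at h2 ⊢
      linear_combination h2
    have h4 := q_rec hn j
    have hj : ((j : ℤ) + 1) ≠ 0 := by positivity
    apply mul_left_cancel₀ hj
    rw [hA, hB]
    set PI := ∏ i ∈ range (p - 1), ((p : ℤ) * j + i + 1) with hPI
    set PJ := ∏ i ∈ range (p - 1), ((p : ℤ) * j + i + 1 - ((p * n₁ : ℕ) : ℤ)) with hPJ
    -- h1 : PI * q (p n₁) (p j + (p-1)) = PJ * q (p n₁) (p j)
    linear_combination (A p j * PI) * h3 + (A p j * ((j : ℤ) + 1 - n₁)) * h1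
      + (((j : ℤ) + 1 - n₁) * PJ) * ih - (B p (p * n₁) j * PJ) * h4

lemma A_not_dvd {p : ℕ} (hp : p.Prime) (j : ℕ) : ¬ (p : ℤ) ∣ A p j := by
  have hpp : Prime (p : ℤ) := Nat.prime_iff_prime_int.mp hp
  unfold A
  rw [hpp.dvd_finsetProd_iff]
  push Not
  intro l _
  rw [hpp.dvd_finsetProd_iff]
  push Not
  intro i hi
  rw [mem_range] at hi
  intro hd
  have h1 : (p : ℤ) ∣ ((i + 1 : ℕ) : ℤ) := by
    have : ((i + 1 : ℕ) : ℤ) = ((p : ℤ) * l + i + 1) - (p : ℤ) * l := by push_cast; ring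
    rw [this]
    exact dvd_sub hd (dvd_mul_right _ _)
  have h2 : p ∣ i + 1 := by exact_mod_cast h1
  exact absurd (Nat.le_of_dvd (by omega) h2) (by omega)

lemma AB_congr {p f n : ℕ} (hf : p ^ f ∣ n) (j : ℕ) :
    (p : ℤ) ^ f ∣ B p n j - A p j := by
  have hz : ((p : ℤ) ^ f) ∣ (n : ℤ) := by exact_mod_cast hf
  have : B p n j ≡ A p j [ZMOD (p : ℤ) ^ f] := by
    unfold A B
    apply Int.ModEq.prod
    intro l _
    apply Int.ModEq.prod
    intro i _
    rw [Int.modEq_iff_dvd]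
    have : ((p : ℤ) * l + i + 1) - ((p : ℤ) * l + i + 1 - n) = n := by ring
    rw [this]; exact hz
  rw [Int.modEq_iff_dvd] at this
  rw [← dvd_neg]; simpa using this

/-- `q (p n₁) (p j + i) ≡ q n₁ j (mod p^f)` if `p^f ∣ p n₁`, `i < p`. -/
lemma q_congr {p f n₁ : ℕ} (hp : p.Prime) (hn : 1 ≤ n₁) (hf : p ^ f ∣ p * n₁) (j i : ℕ)
    (hi : i < p) : (p : ℤ) ^ f ∣ q (p * n₁) (p * j + i) - q n₁ j := by
  have hn' : 1 ≤ p * n₁ := Nat.mul_pos hp.pos hn
  have h1 := q_block hp hn' hf j i hi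
  have h2 : (p : ℤ) ^ f ∣ q (p * n₁) (p * j) - q n₁ j := by
    apply cancel_coprime hp (A_not_dvd hp j)
    have h3 := AB hp hn j
    have : A p j * (q (p * n₁) (p * j) - q n₁ j)
        = (B p (p * n₁) j - A p j) * q n₁ j := by
      linear_combination h3
    rw [this]
    exact Dvd.dvd.mul_right (AB_congr hf j) _
  have : q (p * n₁) (p * j + i) - q n₁ j
      = (q (p * n₁) (p * j + i) - q (p * n₁) (p * j)) + (q (p * n₁) (p * j) - q n₁ j) := by ring
  rw [this]
  exact dvd_add h1 h2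

lemma sum_blocks (p n₁ : ℕ) (g : ℕ → ℤ) :
    ∑ k ∈ range (p * n₁), g k = ∑ j ∈ range n₁, ∑ i ∈ range p, g (p * j + i) := by
  induction n₁ with
  | zero => simp
  | succ m ih =>
    rw [sum_range_succ, ← ih, mul_add, mul_one, sum_range_add]

/-- **Key lemma.** -/
theorem sum_dvd {p : ℕ} (hp : p.Prime) (r : ℕ) :
    ∀ (e : ℕ) (b : ℕ → ℤ),
      (∀ n e', 1 ≤ n → p ^ e' ∣ n → (p : ℤ) ^ e' ∣ ∑ k ∈ range n, q n k ^ r * b k) →
      ∀ n, p ^ e ∣ n → (p : ℤ) ^ e ∣ ∑ k ∈ range n, b k := by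
  intro e
  induction e with
  | zero => intro b _ n _; simp
  | succ e ih =>
    intro b hb n hn
    rcases Nat.eq_zero_or_pos n with rfl | hn0
    · simp
    obtain ⟨n₁, rfl⟩ : p ∣ n := (dvd_pow_self p (Nat.succ_ne_zero e)).trans hn
    have hn₁ : 1 ≤ n₁ := Nat.pos_of_mul_pos_left hn0 |> fun h => by
      rcases Nat.eq_zero_or_pos n₁ with h0 | h0
      · subst h0; simp at hn0
      · exact h0
    -- block sums
    set Bk : ℕ → ℤ := fun j => ∑ i ∈ range p, b (p * j + i) with hBk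
    have hH : ∀ m f, 1 ≤ m → p ^ f ∣ p * m →
        (p : ℤ) ^ f ∣ ∑ j ∈ range m, q m j ^ r * Bk j := by
      intro m f hm hf
      have h1 := hb (p * m) f (Nat.mul_pos hp.pos hm) hf
      rw [sum_blocks] at h1
      have h2 : (p : ℤ) ^ f ∣ (∑ j ∈ range m, ∑ i ∈ range p,
          q (p * m) (p * j + i) ^ r * b (p * j + i)) - ∑ j ∈ range m, q m j ^ r * Bk j := by
        rw [← sum_sub_distrib]
        apply dvd_sum
        intro j _
        rw [hBk]
        simp only
        rw [mul_sum, ← sum_sub_distrib]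
        apply dvd_sum
        intro i hi
        rw [← sub_mul]
        apply Dvd.dvd.mul_right
        exact (q_congr hp hm hf j i (mem_range.mp hi)).trans (sub_dvd_pow_sub_pow _ _ r)
      have := dvd_sub h1 h2
      simpa using this
    -- every block sum is divisible by p
    have hdiv : ∀ j, (p : ℤ) ∣ Bk j := by
      intro j
      induction j using Nat.strong_induction_on with
      | _ j ihj =>
        have h1 := hH (j + 1) 1 (by omega) (by simp)
        rw [pow_one, sum_range_succ] at h1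
        have h2 : (p : ℤ) ∣ ∑ x ∈ range j, q (j + 1) x ^ r * Bk x := by
          apply dvd_sum
          intro x hx
          exact Dvd.dvd.mul_left (ihj x (mem_range.mp hx)) _
        have h3 : (p : ℤ) ∣ q (j + 1) j ^ r * Bk j := (dvd_add_right h2).mp h1
        have h4 : q (j + 1) j = (-1) ^ j := by
          simp [q]
        rw [h4, ← pow_mul] at h3
        have h5 := Dvd.dvd.mul_left h3 ((-1) ^ (j * r))
        rw [← mul_assoc, ← mul_pow] at h5
        simpa using h5
    choose c hc using hdiv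
    have hp0 : (p : ℤ) ≠ 0 := by exact_mod_cast hp.ne_zero
    have hHc : ∀ m e', 1 ≤ m → p ^ e' ∣ m → (p : ℤ) ^ e' ∣ ∑ k ∈ range m, q m k ^ r * c k := by
      intro m e' hm he
      have h1 := hH m (e' + 1) hm (by rw [pow_succ']; exact mul_dvd_mul_left p he)
      have h2 : ∑ j ∈ range m, q m j ^ r * Bk j = p * ∑ j ∈ range m, q m j ^ r * c j := by
        rw [mul_sum]
        apply sum_congr rfl
        intro j _
        rw [hc j]; ring
      rw [h2, pow_succ'] at h1
      exact (mul_dvd_mul_iff_left hp0).mp h1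
    have h6 := ih c hHc n₁ (by
      rw [pow_succ'] at hn
      exact (Nat.mul_dvd_mul_iff_left hp.pos).mp hn)
    rw [sum_blocks]
    have h7 : ∑ j ∈ range n₁, ∑ i ∈ range p, b (p * j + i) = p * ∑ j ∈ range n₁, c j := by
      rw [mul_sum]
      apply sum_congr rfl
      intro j _
      exact hc j
    rw [h7, pow_succ']
    exact mul_dvd_mul_left _ h6

/-- divisibility by `n` from all prime powers -/
theorem dvd_of_prime_pow {n : ℕ} {S : ℤ}
    (h : ∀ p e : ℕ, p.Prime → p ^ e ∣ n → (p : ℤ) ^ e ∣ S) :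
    (n : ℤ) ∣ S := by
  rw [← Int.dvd_natAbs]
  have : n ∣ S.natAbs := by
    rw [Nat.dvd_iff_prime_pow_dvd_dvd]
    intro p k hp hk
    have := h p k hp hk
    rw [← Int.dvd_natAbs] at this
    exact_mod_cast this
  exact_mod_cast this

/-- global form of the key lemma -/
theorem sum_dvd' (r : ℕ) (b : ℕ → ℤ)
    (hb : ∀ n : ℕ, 1 ≤ n → (n : ℤ) ∣ ∑ k ∈ range n, q n k ^ r * b k) (n : ℕ) :
    (n : ℤ) ∣ ∑ k ∈ range n, b k := by
  apply dvd_of_prime_pow
  intro p e hp he
  apply sum_dvd hp r e b _ n he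
  intro m e' hm hme
  refine dvd_trans ?_ (hb m hm)
  exact_mod_cast hme

end Pool.Agent.R499.BlockSum
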