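import Mathlib

/-!
# A closed form for `∑_{n<m} (3n^2+n) 16^{m-1-n} s_n`, `s_n = ∑_k C(n,k)^2 C(2k,k) C(2(n-k),n-k)`
-/

namespace Pool.Agent.R499.Domb

open Finset

/-- central binomial coefficient as a rational number -/
def c (k : ℕ) : ℚ := (Nat.centralBinom k : ℚ)

lemma c_succ (k : ℕ) : ((k : ℚ) + 1) * c (k + 1) = 2 * (2 * k + 1) * c k := by
  have := Nat.succ_mul_centralBinom_succ k
  unfold c
  exact_mod_cast this

/-- `t j k = C(k+j,k)^2 C(2k,k) C(2j,j)` -/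
def t (j k : ℕ) : ℚ := ((k + j).choose k : ℚ) ^ 2 * c k * c j

lemma t_symm (j k : ℕ) : t j k = t k j := by
  unfold t
  rw [show j + k = k + j from add_comm j k]
  have : (k + j).choose k = (k + j).choose j := by
    rw [← Nat.choose_symm_add]
  rw [this]; ring

lemma choose_rel1 (j k : ℕ) :
    ((k + (j + 1)).choose k : ℚ) * (j + 1) = ((k + j).choose k : ℚ) * (k + j + 1) := by
  have h := Nat.add_one_mul_choose_eq (k + j) j
  have e1 : (k + (j + 1)).choose k = (k + j + 1).choose (j + 1) := by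
    rw [show k + (j + 1) = k + j + 1 by ring]
    rw [← Nat.choose_symm_of_eq_add (by ring : k + j + 1 = k + (j + 1))]
  have e2 : (k + j).choose k = (k + j).choose j := by
    rw [← Nat.choose_symm_add]
  rw [e1, e2]
  have h' : ((k : ℚ) + j + 1) * ((k + j).choose j : ℚ)
      = ((k + j + 1).choose (j + 1) : ℚ) * (j + 1) := by exact_mod_cast h
  linarith

/-- shift relation: `t(j, k+1) (k+1)^3 (2j+1) = t(j+1, k) (j+1)^3 (2k+1)` -/
lemma t_shift (j k : ℕ) :
    t j (k + 1) * ((k : ℚ) + 1) ^ 3 * (2 * j + 1) = t (j + 1) k * ((j : ℚ) + 1) ^ 3 * (2 * k + 1) := by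
  have h1 := choose_rel1 j k
  have h2 : ((k + 1 + j).choose (k + 1) : ℚ) * (k + 1) = ((k + j).choose k : ℚ) * (k + j + 1) := by
    have := choose_rel1 k j
    have e1 : (j + (k + 1)).choose j = (k + 1 + j).choose (k + 1) := by
      rw [show j + (k + 1) = k + 1 + j by ring]
      exact Nat.choose_symm_of_eq_add (by ring)
    have e2 : (j + k).choose j = (k + j).choose k := by
      rw [show j + k = k + j by ring]
      exact Nat.choose_symm_of_eq_add (by ring)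
    rw [e1, e2] at this
    linarith
  have h3 := c_succ k
  have h4 := c_succ j
  unfold t
  have a1 : ((k + 1 + j).choose (k + 1) : ℚ) ^ 2 * c (k + 1) * c j * ((k : ℚ) + 1) ^ 3 * (2 * j + 1)
      = (((k + 1 + j).choose (k + 1) : ℚ) * (k + 1)) ^ 2 * (((k : ℚ) + 1) * c (k + 1)) * c j
        * (2 * j + 1) := by ring
  have a2 : ((k + (j + 1)).choose k : ℚ) ^ 2 * c k * c (j + 1) * ((j : ℚ) + 1) ^ 3 * (2 * k + 1)
      = (((k + (j + 1)).choose k : ℚ) * (j + 1)) ^ 2 * (((j : ℚ) + 1) * c (j + 1)) * c k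
        * (2 * k + 1) := by ring
  rw [a1, a2, h2, h1, h3, h4]
  ring

/-- the summand relating consecutive values; here `m = k + j + 1` -/
lemma term_succ (j k : ℕ) :
    ((k : ℚ) + j + 2) ^ 3 * t (j + 1) k * (2 * k / (k + 1))
      - 16 * (((k : ℚ) + j + 1) ^ 3 * t j k * (2 * k / (k + 1)))
      - (3 * ((k : ℚ) + j + 1) ^ 2 + (k + j + 1)) * t (j + 1) k
    = t j (k + 1) * (((k : ℚ) + 1) ^ 2 * (4 * (k + 1) - 12 * (k + j + 1) + 2))
      - t (j + 1) k * ((k : ℚ) ^ 2 * (4 * k - 12 * (k + j + 1) + 2))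
      - (6 * ((k : ℚ) + j + 1) ^ 2 - 3 * (k + j + 1) - 1) * ((k - (j + 1)) * t (j + 1) k) := by
  -- express everything through `t (j+1) k`
  have h1 : t j (k + 1) = t (j + 1) k * ((j : ℚ) + 1) ^ 3 * (2 * k + 1)
      / (((k : ℚ) + 1) ^ 3 * (2 * j + 1)) := by
    rw [eq_div_iff (by positivity)]
    linear_combination t_shift j k
  have h2 : t j k * (2 * (2 * j + 1)) * ((k : ℚ) + j + 1) ^ 2 = t (j + 1) k * ((j : ℚ) + 1) ^ 3 := by
    have e1 := choose_rel1 j k
    have e2 := c_succ j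
    unfold t
    have a1 : ((k + (j + 1)).choose k : ℚ) ^ 2 * c k * c (j + 1) * ((j : ℚ) + 1) ^ 3
        = (((k + (j + 1)).choose k : ℚ) * (j + 1)) ^ 2 * (((j : ℚ) + 1) * c (j + 1)) * c k := by ring
    rw [a1, e1, e2]
    ring
  have h3 : t j k = t (j + 1) k * ((j : ℚ) + 1) ^ 3 / ((2 * (2 * j + 1)) * ((k : ℚ) + j + 1) ^ 2) := by
    rw [eq_div_iff (by positivity)]
    linear_combination h2
  rw [h1, h3]
  have hk : ((k : ℚ) + 1) ≠ 0 := by positivity
  have hj : (2 * (j : ℚ) + 1) ≠ 0 := by positivity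
  have hkj : ((k : ℚ) + j + 1) ≠ 0 := by positivity
  field_simp
  ring

/-- `s_n = ∑_k C(n,k)^2 C(2k,k) C(2(n-k),n-k)` -/
def s (n : ℕ) : ℚ := ∑ p ∈ antidiagonal n, t p.1 p.2

/-- the closed form (index shifted by one: `m = N + 1`) -/
def U (N : ℕ) : ℚ :=
  ((N : ℚ) + 1) ^ 3 * ∑ p ∈ antidiagonal N, t p.1 p.2 * (2 * p.2 / (p.2 + 1))

lemma anti_zero (n : ℕ) : ∑ p ∈ antidiagonal n, ((p.2 : ℚ) - p.1) * t p.1 p.2 = 0 := by
  have h1 : ∑ p ∈ antidiagonal n, ((p.2 : ℚ) - p.1) * t p.1 p.2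
      = ∑ p ∈ antidiagonal n, ((p.1 : ℚ) - p.2) * t p.1 p.2 := by
    rw [← Finset.Nat.sum_antidiagonal_swap]
    apply sum_congr rfl
    intro p _
    simp only [Prod.fst_swap, Prod.snd_swap]
    rw [t_symm]
  have h2 : ∑ p ∈ antidiagonal n, ((p.1 : ℚ) - p.2) * t p.1 p.2
      = - ∑ p ∈ antidiagonal n, ((p.2 : ℚ) - p.1) * t p.1 p.2 := by
    rw [← sum_neg_distrib]
    apply sum_congr rfl
    intro p _
    ring
  linarith

lemma U_succ (N : ℕ) :
    U (N + 1) = 16 * U N + (3 * ((N : ℚ) + 1) ^ 2 + (N + 1)) * s (N + 1) := by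
  -- sum of `term_succ`
  have hsum : ∑ p ∈ antidiagonal N,
      (((N : ℚ) + 2) ^ 3 * (t (p.1 + 1) p.2 * (2 * p.2 / (p.2 + 1)))
        - 16 * (((N : ℚ) + 1) ^ 3 * (t p.1 p.2 * (2 * p.2 / (p.2 + 1))))
        - (3 * ((N : ℚ) + 1) ^ 2 + (N + 1)) * t (p.1 + 1) p.2)
      = ∑ p ∈ antidiagonal N,
      (t p.1 (p.2 + 1) * (((p.2 : ℚ) + 1) ^ 2 * (4 * (p.2 + 1) - 12 * (N + 1) + 2))
        - t (p.1 + 1) p.2 * ((p.2 : ℚ) ^ 2 * (4 * p.2 - 12 * (N + 1) + 2))
        - (6 * ((N : ℚ) + 1) ^ 2 - 3 * (N + 1) - 1) * ((p.2 - (p.1 + 1)) * t (p.1 + 1) p.2)) := by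
    apply sum_congr rfl
    intro p hp
    rw [HasAntidiagonal.mem_antidiagonal] at hp
    have h := term_succ p.1 p.2
    have e1 : ((p.2 : ℚ) + p.1) = N := by
      rw [← hp]; push_cast; ring
    have e2 : ((p.2 : ℚ) + p.1 + 2) = N + 2 := by rw [e1]
    have e3 : ((p.2 : ℚ) + p.1 + 1) = N + 1 := by rw [e1]
    rw [e2, e3] at h
    linear_combination h
  -- evaluate both sides
  have s1 := Finset.Nat.sum_antidiagonal_succ (n := N)
    (f := fun p : ℕ × ℕ => t p.1 p.2 * (2 * (p.2 : ℚ) / (p.2 + 1)))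
  have s2 := Finset.Nat.sum_antidiagonal_succ (n := N) (f := fun p : ℕ × ℕ => t p.1 p.2)
  have s3 := Finset.Nat.sum_antidiagonal_succ (n := N)
    (f := fun p : ℕ × ℕ => t p.1 p.2 * ((p.2 : ℚ) ^ 2 * (4 * p.2 - 12 * (N + 1) + 2)))
  have s4 := Finset.Nat.sum_antidiagonal_succ' (n := N)
    (f := fun p : ℕ × ℕ => t p.1 p.2 * ((p.2 : ℚ) ^ 2 * (4 * p.2 - 12 * (N + 1) + 2)))
  have s5 := Finset.Nat.sum_antidiagonal_succ (n := N)
    (f := fun p : ℕ × ℕ => ((p.2 : ℚ) - p.1) * t p.1 p.2)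
  rw [anti_zero] at s5
  push_cast at s1 s2 s3 s4 s5
  simp only [sum_sub_distrib, ← mul_sum] at hsum
  unfold U s
  rw [s1, s2]
  set X1 := ∑ p ∈ antidiagonal N, t (p.1 + 1) p.2 * (2 * (p.2 : ℚ) / (p.2 + 1))
  set X2 := ∑ p ∈ antidiagonal N, t (p.1 + 1) p.2
  set X3 := ∑ p ∈ antidiagonal N, t (p.1 + 1) p.2 * ((p.2 : ℚ) ^ 2 * (4 * p.2 - 12 * (N + 1) + 2))
  set X4 := ∑ p ∈ antidiagonal N,
    t p.1 (p.2 + 1) * (((p.2 : ℚ) + 1) ^ 2 * (4 * (p.2 + 1) - 12 * (N + 1) + 2))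
  set X5 := ∑ p ∈ antidiagonal N, ((p.2 : ℚ) - (p.1 + 1)) * t (p.1 + 1) p.2
  set X6 := ∑ p ∈ antidiagonal N, t p.1 p.2 * (2 * (p.2 : ℚ) / (p.2 + 1))
  have hN : ((N : ℚ) + 1 + 1) ≠ 0 := by positivity
  have e6 : ((N : ℚ) + 1 + 1) ^ 3 * (t 0 (N + 1) * (2 * ((N : ℚ) + 1) / ((N : ℚ) + 1 + 1)))
      = ((N : ℚ) + 2) ^ 2 * (2 * ((N : ℚ) + 1)) * t 0 (N + 1) := by
    field_simp
    ring
  have e7 : ((N : ℚ) + 2) = (N : ℚ) + 1 + 1 := by ring
  push_cast
  rw [mul_add, e6]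
  simp only [ne_eq, OfNat.ofNat_ne_zero, not_false_eq_true, zero_pow, zero_mul, mul_zero,
    zero_add, add_zero, sub_zero] at s4
  linear_combination hsum + s3 - s4
    + (6 * ((N : ℚ) + 1) ^ 2 - 3 * (N + 1) - 1) * s5

/-- `V m = ∑_{n<m} (3n^2+n) 16^{m-1-n} s_n` -/
def V (m : ℕ) : ℚ := ∑ n ∈ range m, (3 * (n : ℚ) ^ 2 + n) * 16 ^ (m - 1 - n) * s n

lemma V_succ (N : ℕ) : V (N + 2) = 16 * V (N + 1) + (3 * ((N : ℚ) + 1) ^ 2 + (N + 1)) * s (N + 1) := by
  unfold V
  rw [sum_range_succ]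
  have h1 : ∑ n ∈ range (N + 1), (3 * (n : ℚ) ^ 2 + n) * 16 ^ (N + 2 - 1 - n) * s n
      = 16 * ∑ n ∈ range (N + 1), (3 * (n : ℚ) ^ 2 + n) * 16 ^ (N + 1 - 1 - n) * s n := by
    rw [mul_sum]
    apply sum_congr rfl
    intro n hn
    rw [mem_range] at hn
    rw [show N + 2 - 1 - n = (N + 1 - 1 - n) + 1 by omega, pow_succ]
    ring
  rw [h1]
  have h2 : N + 2 - 1 - (N + 1) = 0 := by omega
  rw [h2]
  push_cast
  ring

theorem V_eq_U (N : ℕ) : V (N + 1) = U N := by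
  induction N with
  | zero => simp [V, U]
  | succ N ih => rw [V_succ, ih, ← U_succ]

/-- the integer `∑_{j+k=M} C(M+1,k+1) C(M,k) Cat_{k+1} C(2j,j)` -/
def Z (M : ℕ) : ℕ :=
  ∑ p ∈ antidiagonal M, (M + 1).choose (p.2 + 1) * M.choose p.2 * catalan (p.2 + 1)
    * Nat.centralBinom p.1

lemma catalan_cast (k : ℕ) : (catalan k : ℚ) = c k / (k + 1) := by
  rw [catalan_eq_centralBinom_div]
  have h := Nat.succ_dvd_centralBinom k
  rw [Nat.cast_div h (by positivity)]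
  unfold c
  push_cast
  rfl

theorem V_eq_Z (M : ℕ) : V (M + 2) = 2 * ((M : ℚ) + 2) ^ 3 * (M + 1) * (Z M : ℚ) := by
  rw [show M + 2 = (M + 1) + 1 by ring, V_eq_U]
  unfold U Z
  have s4 := Finset.Nat.sum_antidiagonal_succ' (n := M)
    (f := fun p : ℕ × ℕ => t p.1 p.2 * (2 * (p.2 : ℚ) / (p.2 + 1)))
  rw [s4]
  push_cast
  simp only [mul_zero, zero_div, zero_add, mul_sum]
  apply sum_congr rfl
  intro p hp
  rw [HasAntidiagonal.mem_antidiagonal] at hp
  have h1 := Nat.add_one_mul_choose_eq M p.2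
  have h1' : ((M : ℚ) + 1) * (M.choose p.2 : ℚ) = ((M + 1).choose (p.2 + 1) : ℚ) * (p.2 + 1) := by
    exact_mod_cast h1
  have h2 := catalan_cast (p.2 + 1)
  push_cast at h2
  have h3 : (Nat.centralBinom p.1 : ℚ) = c p.1 := rfl
  rw [h2, h3]
  unfold t
  have e : p.2 + 1 + p.1 = M + 1 := by omega
  rw [e]
  have hk : ((p.2 : ℚ) + 1 + 1) ≠ 0 := by positivity
  field_simp
  linear_combination ((((M : ℚ) + 2) ^ 3) * ((M + 1).choose (p.2 + 1) : ℚ)
    * c (p.2 + 1) * c p.1 * (-1)) * h1'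

lemma catalan_even (l : ℕ) : (catalan (2 * l + 2) : ZMod 2) = 0 := by
  rw [show 2 * l + 2 = (2 * l + 1) + 1 by ring, catalan_succ']
  push_cast
  apply Finset.sum_involution (fun p _ => p.swap)
  · intro p _
    have : ∀ x : ZMod 2, x + x = 0 := by decide
    simp only [Prod.fst_swap, Prod.snd_swap]
    rw [mul_comm (catalan p.2 : ZMod 2)]
    exact this _
  · intro p hp _ h
    rw [HasAntidiagonal.mem_antidiagonal] at hp
    have : p.2 = p.1 := congrArg Prod.fst h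
    omega
  · intro p _
    exact Prod.swap_swap p
  · intro p hp
    rw [HasAntidiagonal.mem_antidiagonal] at hp ⊢
    simp only [Prod.fst_swap, Prod.snd_swap]; omega

lemma catalan_odd (l : ℕ) : (catalan (2 * l + 1) : ZMod 2) = (catalan l : ZMod 2) := by
  rw [catalan_succ']
  push_cast
  have hmem : (l, l) ∈ antidiagonal (2 * l) := by
    rw [HasAntidiagonal.mem_antidiagonal]; ring
  rw [← Finset.add_sum_erase _ _ hmem]
  have h0 : ∑ x ∈ (antidiagonal (2 * l)).erase (l, l),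
      (catalan x.1 : ZMod 2) * (catalan x.2 : ZMod 2) = 0 := by
    apply Finset.sum_involution (fun p _ => p.swap)
    · intro p _
      have : ∀ x : ZMod 2, x + x = 0 := by decide
      simp only [Prod.fst_swap, Prod.snd_swap]
      rw [mul_comm (catalan p.2 : ZMod 2)]
      exact this _
    · intro p hp _ h
      rw [mem_erase, HasAntidiagonal.mem_antidiagonal] at hp
      have h2 : p.2 = p.1 := congrArg Prod.fst h
      apply hp.1
      ext
      · show p.1 = l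
        omega
      · show p.2 = l
        omega
    · intro p _
      exact Prod.swap_swap p
    · intro p hp
      rw [mem_erase, HasAntidiagonal.mem_antidiagonal] at hp ⊢
      refine ⟨?_, ?_⟩
      · intro h
        apply hp.1
        have h1 : p.2 = l := congrArg Prod.fst h
        have h2 : p.1 = l := congrArg Prod.snd h
        ext
        · exact h2
        · exact h1
      · simp only [Prod.fst_swap, Prod.snd_swap]; omega
  rw [h0, add_zero]
  have : ∀ x : ZMod 2, x * x = x := by decide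
  exact this _

/-- `Cat_n` is odd if and only if `n + 1` is a power of two -/
lemma odd_catalan (n : ℕ) : Odd (catalan n) ↔ ∃ k, n + 1 = 2 ^ k := by
  have key : ∀ m : ℕ, Odd m ↔ (m : ZMod 2) = 1 := by
    intro m
    exact (ZMod.natCast_eq_one_iff_odd).symm
  induction n using Nat.strong_induction_on with
  | _ n ih =>
    rcases Nat.even_or_odd' n with ⟨l, hl | hl⟩
    · rcases Nat.eq_zero_or_pos l with h0 | h0
      · subst h0
        simp only [mul_zero] at hl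
        subst hl
        simp only [catalan_zero, zero_add, odd_one, true_iff]
        exact ⟨0, by norm_num⟩
      · obtain ⟨l', rfl⟩ : ∃ l', l = l' + 1 := ⟨l - 1, by omega⟩
        rw [key, hl, show 2 * (l' + 1) = 2 * l' + 2 by ring, catalan_even]
        constructor
        · intro h; exact absurd h (by decide)
        · rintro ⟨k, hk⟩
          rcases k with _ | k
          · simp at hk
          · rw [pow_succ] at hk; omega
    · have ih' := ih l (by omega)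
      have e : Odd (catalan (2 * l + 1)) ↔ Odd (catalan l) := by
        rw [key, key, catalan_odd]
      rw [hl]
      refine e.trans (ih'.trans ?_)
      constructor
      · rintro ⟨k, hk⟩
        exact ⟨k + 1, by rw [pow_succ]; omega⟩
      · rintro ⟨k, hk⟩
        rcases k with _ | k
        · simp at hk
        · exact ⟨k, by rw [pow_succ] at hk; omega⟩

lemma Z_mod_two (M : ℕ) : (Z M : ZMod 2) = (catalan (M + 1) : ZMod 2) := by
  unfold Z
  push_cast
  rcases M with _ | M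
  · simp
  · have s2 := Finset.Nat.sum_antidiagonal_succ (n := M)
      (f := fun p : ℕ × ℕ => (((M + 1 + 1).choose (p.2 + 1) : ℕ) : ZMod 2)
        * (((M + 1).choose p.2 : ℕ) : ZMod 2) * ((catalan (p.2 + 1) : ℕ) : ZMod 2)
        * ((Nat.centralBinom p.1 : ℕ) : ZMod 2))
    rw [s2]
    have h0 : ∑ p ∈ antidiagonal M, (((M + 1 + 1).choose (p.2 + 1) : ℕ) : ZMod 2)
        * (((M + 1).choose p.2 : ℕ) : ZMod 2) * ((catalan (p.2 + 1) : ℕ) : ZMod 2)
        * ((Nat.centralBinom (p.1 + 1) : ℕ) : ZMod 2) = 0 := by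
      apply sum_eq_zero
      intro p _
      have : ((Nat.centralBinom (p.1 + 1) : ℕ) : ZMod 2) = 0 := by
        rw [ZMod.natCast_eq_zero_iff]
        exact Nat.two_dvd_centralBinom_succ p.1
      rw [this, mul_zero]
    rw [h0, add_zero]
    simp

end Pool.Agent.R499.Domb
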