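import Mathlib
import Pool.Agent.R499.BlockSum

/-!
# Sums of powers of multinomial coefficients
-/

namespace Pool.Agent.R499.MultiSum

open Finset PowerSeries

/-- `M m n r = ∑_{k_1+...+k_m=n} multinomial(k_1,...,k_m)^r` -/
def M (m n r : ℕ) : ℕ :=
  ∑ k ∈ Finset.piAntidiag (Finset.univ : Finset (Fin m)) n,
    (Nat.multinomial Finset.univ k) ^ r

/-- generating series of a sequence with denominators `(n!)^r` -/
noncomputable def Phi (r : ℕ) (a : ℕ → ℤ) : ℚ⟦X⟧ :=
  PowerSeries.mk fun n => (a n : ℚ) / (n.factorial : ℚ) ^ r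

lemma coeff_Phi (r : ℕ) (a : ℕ → ℤ) (n : ℕ) :
    coeff n (Phi r a) = (a n : ℚ) / (n.factorial : ℚ) ^ r := by
  simp [Phi]

lemma Phi_inj {r : ℕ} {a b : ℕ → ℤ} (h : Phi r a = Phi r b) (n : ℕ) : a n = b n := by
  have := congrArg (coeff n) h
  rw [coeff_Phi, coeff_Phi] at this
  have hf : ((n.factorial : ℚ)) ^ r ≠ 0 := pow_ne_zero _ (by exact_mod_cast n.factorial_ne_zero)
  have h2 := (div_left_inj' hf).mp this
  exact_mod_cast h2

/-- the `r`-binomial convolution -/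
def conv (r : ℕ) (a b : ℕ → ℤ) (n : ℕ) : ℤ :=
  ∑ p ∈ antidiagonal n, (n.choose p.1 : ℤ) ^ r * a p.1 * b p.2

lemma Phi_mul (r : ℕ) (a b : ℕ → ℤ) : Phi r a * Phi r b = Phi r (conv r a b) := by
  ext n
  rw [coeff_mul, coeff_Phi]
  unfold conv
  push_cast
  rw [sum_div]
  apply sum_congr rfl
  intro p hp
  rw [HasAntidiagonal.mem_antidiagonal] at hp
  rw [coeff_Phi, coeff_Phi]
  have h1 : (n.choose p.1 : ℚ) * (p.1.factorial : ℚ) * (p.2.factorial : ℚ) = n.factorial := by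
    have h2 : p.1 ≤ n := by omega
    have h3 := Nat.choose_mul_factorial_mul_factorial h2
    have h4 : n - p.1 = p.2 := by omega
    rw [h4] at h3
    exact_mod_cast h3
  have hf1 : ((p.1.factorial : ℚ)) ≠ 0 := by exact_mod_cast p.1.factorial_ne_zero
  have hf2 : ((p.2.factorial : ℚ)) ≠ 0 := by exact_mod_cast p.2.factorial_ne_zero
  have hf : (n.choose p.1 : ℚ) ≠ 0 := by
    intro h0
    rw [h0] at h1
    have : (n.factorial : ℚ) ≠ 0 := by exact_mod_cast n.factorial_ne_zero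
    apply this; rw [← h1]; ring
  rw [← h1, mul_pow, mul_pow]
  field_simp

/-- the series `∑ x^n / n!^r` -/
noncomputable def E (r : ℕ) : ℚ⟦X⟧ := Phi r (fun _ => 1)

lemma Phi_M (r m : ℕ) : Phi r (fun n => (M m n r : ℤ)) = E r ^ m := by
  ext n
  have h := coeff_prod (R := ℚ) (fun _ : Fin m => E r) n Finset.univ
  rw [Finset.prod_const, Finset.card_univ, Fintype.card_fin] at h
  have hb : ∑ l ∈ finsuppAntidiag (Finset.univ : Finset (Fin m)) n, ∏ i, coeff (l i) (E r)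
      = ∑ k ∈ piAntidiag (Finset.univ : Finset (Fin m)) n, ∏ i, coeff (k i) (E r) := by
    apply Finset.sum_bij (fun (l : Fin m →₀ ℕ) _ => (l : Fin m → ℕ))
    · intro l hl
      rw [mem_finsuppAntidiag] at hl
      rw [mem_piAntidiag]
      exact ⟨hl.1, fun _ _ => Finset.mem_univ _⟩
    · intro l _ l' _ hll
      exact DFunLike.coe_injective hll
    · intro k hk
      rw [mem_piAntidiag] at hk
      refine ⟨Finsupp.equivFunOnFinite.symm k, ?_, ?_⟩
      · rw [mem_finsuppAntidiag]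
        exact ⟨hk.1, Finset.subset_univ _⟩
      · rfl
    · intro l _
      rfl
  rw [h, hb, coeff_Phi]
  unfold M
  push_cast
  rw [sum_div]
  apply sum_congr rfl
  intro k hk
  rw [mem_piAntidiag] at hk
  have h1 := Nat.multinomial_spec Finset.univ k
  rw [show (∑ i, k i) = n from hk.1] at h1
  have h2 : (∏ i, ((k i).factorial : ℚ)) * (Nat.multinomial Finset.univ k : ℚ)
      = n.factorial := by exact_mod_cast h1
  have h3 : ∏ i, coeff (k i) (E r) = 1 / (∏ i, ((k i).factorial : ℚ)) ^ r := by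
    simp only [E, coeff_Phi]
    rw [Finset.prod_div_distrib, Finset.prod_pow]
    simp
  rw [h3, ← h2, mul_pow]
  have hf1 : (∏ i, ((k i).factorial : ℚ)) ≠ 0 := by
    apply Finset.prod_ne_zero_iff.mpr
    intro i _
    exact_mod_cast (k i).factorial_ne_zero
  have hf2 : (Nat.multinomial Finset.univ k : ℚ) ≠ 0 := by
    exact_mod_cast (Nat.multinomial_pos Finset.univ k).ne'
  field_simp

/-- the auxiliary sequence: `c m k = ∑_{k_1+...+k_{m+1}=k} k_1 * multinomial^r` -/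
def c (m r : ℕ) (k : ℕ) : ℤ := conv r (fun i => (i : ℤ)) (fun n => (M m n r : ℤ)) k

lemma Phi_id (r : ℕ) : Phi r (fun i => (i : ℤ)) = X * (derivative ℚ (E r)) := by
  ext n
  rw [coeff_Phi]
  rcases n with _ | n
  · simp
  · rw [coeff_succ_X_mul, coeff_derivative, E, coeff_Phi]
    push_cast
    ring

lemma Phi_mulid (r : ℕ) (a : ℕ → ℤ) :
    Phi r (fun i => (i : ℤ) * a i) = X * (derivative ℚ (Phi r a)) := by
  ext n
  rw [coeff_Phi]
  rcases n with _ | n
  · simp
  · rw [coeff_succ_X_mul, coeff_derivative, coeff_Phi]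
    push_cast
    ring

lemma c_eq (m r k : ℕ) : ((m : ℤ) + 1) * c m r k = k * (M (m + 1) k r : ℤ) := by
  have : Phi r (fun k => ((m : ℤ) + 1) * c m r k) = Phi r (fun k => (k : ℤ) * (M (m + 1) k r : ℤ)) := by
    rw [Phi_mulid, Phi_M]
    have h1 : Phi r (fun k => ((m : ℤ) + 1) * c m r k)
        = PowerSeries.C ((m : ℚ) + 1) * Phi r (c m r) := by
      ext n
      rw [coeff_Phi, coeff_C_mul, coeff_Phi]
      push_cast; ring
    rw [h1]
    have h2 : Phi r (c m r) = Phi r (fun i => (i : ℤ)) * Phi r (fun n => (M m n r : ℤ)) := by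
      rw [Phi_mul]; rfl
    rw [h2, Phi_id, Phi_M, Derivation.leibniz_pow]
    simp only [Nat.add_sub_cancel, smul_eq_mul, nsmul_eq_mul]
    have : (PowerSeries.C ((m : ℚ) + 1) : ℚ⟦X⟧) = ((m + 1 : ℕ) : ℚ⟦X⟧) := by
      push_cast
      simp [map_add]
    rw [this]
    ring
  exact Phi_inj this k

lemma conv_one_M (m r n : ℕ) :
    conv r (fun _ => 1) (fun n => (M m n r : ℤ)) n = (M (m + 1) n r : ℤ) := by
  have : Phi r (conv r (fun _ => 1) (fun n => (M m n r : ℤ)))
      = Phi r (fun n => (M (m + 1) n r : ℤ)) := by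
    rw [← Phi_mul, Phi_M, Phi_M, pow_succ', E]
  exact Phi_inj this n

lemma conv_one_c (m r n : ℕ) :
    conv r (fun _ => 1) (c m r) n = c (m + 1) r n := by
  have : Phi r (conv r (fun _ => 1) (c m r)) = Phi r (c (m + 1) r) := by
    have h2 : ∀ m, Phi r (c m r) = Phi r (fun i => (i : ℤ)) * Phi r (fun n => (M m n r : ℤ)) := by
      intro m
      rw [Phi_mul]; rfl
    rw [← Phi_mul, h2, h2, Phi_M, Phi_M, pow_succ', E]
    ring
  exact Phi_inj this n

/-- `b k = (m+2) c_k + M_{m+1,k}` so that `(m+1) b k = ((m+2) k + (m+1)) M_{m+1,k}` -/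
def b (m r k : ℕ) : ℤ := ((m : ℤ) + 2) * c m r k + (M (m + 1) k r : ℤ)

lemma b_eq (m r k : ℕ) :
    ((m : ℤ) + 1) * b m r k = (((m : ℤ) + 2) * k + (m + 1)) * (M (m + 1) k r : ℤ) := by
  unfold b
  have := c_eq m r k
  linear_combination ((m : ℤ) + 2) * this

lemma conv_one (r : ℕ) (a : ℕ → ℤ) (N : ℕ) :
    conv r (fun _ => 1) a N = ∑ k ∈ range (N + 1), (N.choose k : ℤ) ^ r * a k := by
  unfold conv
  rw [← Finset.Nat.sum_antidiagonal_swap, Finset.Nat.sum_antidiagonal_eq_sum_range_succ_mk]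
  apply sum_congr rfl
  intro k hk
  rw [mem_range] at hk
  simp only [Prod.swap_prod_mk, Prod.fst_swap, Prod.snd_swap, mul_one]
  rw [Nat.choose_symm (by omega : k ≤ N)]

lemma sum_choose_b (m r N : ℕ) :
    ∑ k ∈ range (N + 1), (N.choose k : ℤ) ^ r * b m r k = ((N : ℤ) + 1) * (M (m + 2) N r : ℤ) := by
  have h1 : ∑ k ∈ range (N + 1), (N.choose k : ℤ) ^ r * c m r k = c (m + 1) r N := by
    rw [← conv_one_c, conv_one]
  have h2 : ∑ k ∈ range (N + 1), (N.choose k : ℤ) ^ r * (M (m + 1) k r : ℤ)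
      = (M (m + 2) N r : ℤ) := by
    rw [← conv_one_M, conv_one]
  have h3 := c_eq (m + 1) r N
  unfold b
  have h4 : ∑ k ∈ range (N + 1), (N.choose k : ℤ) ^ r * (((m : ℤ) + 2) * c m r k
        + (M (m + 1) k r : ℤ))
      = ((m : ℤ) + 2) * ∑ k ∈ range (N + 1), (N.choose k : ℤ) ^ r * c m r k
        + ∑ k ∈ range (N + 1), (N.choose k : ℤ) ^ r * (M (m + 1) k r : ℤ) := by
    rw [mul_sum, ← sum_add_distrib]
    apply sum_congr rfl
    intro k _
    ring
  rw [h4, h1, h2]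
  push_cast at h3
  linear_combination h3

/-- the sequence to which the block lemma is applied -/
lemma dvd_signed (m r n : ℕ) (hn : 1 ≤ n) :
    (n : ℤ) ∣ ∑ k ∈ range n, BlockSum.q n k ^ r * ((-1) ^ (r * k) * b m r k) := by
  obtain ⟨N, rfl⟩ : ∃ N, n = N + 1 := ⟨n - 1, by omega⟩
  have : ∑ k ∈ range (N + 1), BlockSum.q (N + 1) k ^ r * ((-1) ^ (r * k) * b m r k)
      = ∑ k ∈ range (N + 1), (N.choose k : ℤ) ^ r * b m r k := by
    apply sum_congr rfl
    intro k _
    unfold BlockSum.q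
    rw [mul_pow, ← pow_mul, Nat.add_sub_cancel]
    have : ((-1 : ℤ)) ^ (k * r) * (-1) ^ (r * k) = 1 := by
      rw [mul_comm k r, ← mul_pow]; simp
    linear_combination (N.choose k : ℤ) ^ r * b m r k * this
  rw [this, sum_choose_b]
  push_cast
  exact dvd_mul_right _ _

/-- **Main theorem.** -/
theorem main (m n r : ℕ) (hm : 1 ≤ m) :
    ((m : ℤ) * n) ∣ ∑ k ∈ range n,
      (-1) ^ (r * k) * (((m : ℤ) + 1) * k + m) * (M m k r : ℤ) := by
  obtain ⟨m', rfl⟩ : ∃ m', m = m' + 1 := ⟨m - 1, by omega⟩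
  have h := BlockSum.sum_dvd' r (fun k => (-1) ^ (r * k) * b m' r k)
    (fun n hn => dvd_signed m' r n hn) n
  have h2 : ∑ k ∈ range n, (-1) ^ (r * k) * ((((m' + 1 : ℕ) : ℤ) + 1) * k + ((m' + 1 : ℕ) : ℤ))
        * (M (m' + 1) k r : ℤ)
      = ((m' + 1 : ℕ) : ℤ) * ∑ k ∈ range n, (-1) ^ (r * k) * b m' r k := by
    rw [mul_sum]
    apply sum_congr rfl
    intro k _
    have := b_eq m' r k
    push_cast
    linear_combination (-1) * (-1 : ℤ) ^ (r * k) * this
  rw [h2]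
  exact mul_dvd_mul_left _ h

end Pool.Agent.R499.MultiSum
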