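import Mathlib
import Pool.Agent.R499.MultiSum

/-!
# Weighted sums of `f_k^{(r)} = ∑_j C(k,j)^r`
-/

namespace Pool.Agent.R499.FranelPower

open Finset
open Pool.Agent.R499.BlockSum Pool.Agent.R499.MultiSum

/-- the binomial power sum `∑_{j ≤ k} C(k,j)^r` -/
def f (r k : ℕ) : ℕ := ∑ j ∈ range (k + 1), (k.choose j) ^ r

lemma M_zero_zero (r : ℕ) : M 0 0 r = 1 := by
  simp [M]

lemma M_zero_succ (n r : ℕ) : M 0 (n + 1) r = 0 := by
  simp [M]

lemma M_one (n r : ℕ) : (M 1 n r : ℤ) = 1 := by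
  have h := conv_one_M 0 r n
  rw [← h, conv_one]
  rw [Finset.sum_eq_single 0]
  · simp [M_zero_zero]
  · intro k _ hk
    obtain ⟨k', rfl⟩ := Nat.exists_eq_succ_of_ne_zero hk
    rw [Nat.succ_eq_add_one, M_zero_succ]
    simp
  · simp

lemma M_two (n r : ℕ) : (M 2 n r : ℤ) = (f r n : ℤ) := by
  have h := conv_one_M 1 r n
  rw [show (1 + 1 : ℕ) = 2 from rfl] at h
  rw [← h, conv_one]
  unfold f
  push_cast
  apply sum_congr rfl
  intro k _
  rw [M_one]; ring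

/-- `2n ∣ ∑_{k<n} (-1)^{rk} (3k+2) f_k^{(r)}` -/
theorem two_n (r n : ℕ) :
    (2 * (n : ℤ)) ∣ ∑ k ∈ range n, (-1) ^ (r * k) * (3 * (k : ℤ) + 2) * (f r k : ℤ) := by
  have h := MultiSum.main 2 n r (by norm_num)
  have : ∑ k ∈ range n, (-1) ^ (r * k) * (3 * (k : ℤ) + 2) * (f r k : ℤ)
      = ∑ k ∈ range n, (-1) ^ (r * k) * ((((2 : ℕ) : ℤ) + 1) * k + ((2 : ℕ) : ℤ)) * (M 2 k r : ℤ) := by
    apply sum_congr rfl
    intro k _
    rw [M_two]; push_cast; ring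
  rw [this]
  exact_mod_cast h

lemma f_zero (r : ℕ) : f r 0 = 1 := by simp [f]

lemma f_one (r : ℕ) : f r 1 = 2 := by simp [f, sum_range_succ]

lemma pow_mod_two (a r : ℕ) (hr : 1 ≤ r) : a ^ r ≡ a [MOD 2] := by
  rcases Nat.even_or_odd a with h | h
  · have h1 : a ≡ 0 [MOD 2] := (Nat.modEq_zero_iff_dvd).mpr h.two_dvd
    have h2 : a ^ r ≡ 0 [MOD 2] := (Nat.modEq_zero_iff_dvd).mpr (dvd_pow h.two_dvd (by omega))
    exact h2.trans h1.symm
  · have h1 : a ≡ 1 [MOD 2] := Nat.odd_iff.mp h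
    have h2 := h1.pow r
    rw [one_pow] at h2
    exact h2.trans h1.symm

lemma sum_modEq {s : Finset ℕ} {g h : ℕ → ℕ} {m : ℕ} (H : ∀ x ∈ s, g x ≡ h x [MOD m]) :
    ∑ x ∈ s, g x ≡ ∑ x ∈ s, h x [MOD m] := by
  classical
  induction s using Finset.induction_on with
  | empty => simp [Nat.ModEq]
  | insert a s ha ih =>
    rw [sum_insert ha, sum_insert ha]
    exact (H a (mem_insert_self a s)).add (ih fun x hx => H x (mem_insert_of_mem hx))

/-- `f_k^{(r)}` is even for `k ≥ 1`, `r ≥ 1` -/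
lemma f_even {r k : ℕ} (hr : 1 ≤ r) (hk : 1 ≤ k) : 2 ∣ f r k := by
  unfold f
  have h1 : ∑ j ∈ range (k + 1), (k.choose j) ^ r ≡ ∑ j ∈ range (k + 1), k.choose j [MOD 2] :=
    sum_modEq fun x _ => pow_mod_two _ _ hr
  rw [Nat.sum_range_choose] at h1
  have h2 : 2 ^ k ≡ 0 [MOD 2] := (Nat.modEq_zero_iff_dvd).mpr (dvd_pow_self 2 (by omega))
  exact (Nat.modEq_zero_iff_dvd).mp (h1.trans h2)

/-- for odd `k = 2m+1 ≥ 3`, `4 ∣ f_k^{(r)}` -/
lemma f_odd_four {r m : ℕ} (hr : 1 ≤ r) (hm : 1 ≤ m) : 4 ∣ f r (2 * m + 1) := by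
  unfold f
  have h0 : 2 * m + 1 + 1 = (m + 1) + (m + 1) := by ring
  rw [h0, sum_range_add]
  have h1 : ∑ x ∈ range (m + 1), ((2 * m + 1).choose (m + 1 + x)) ^ r
      = ∑ x ∈ range (m + 1), ((2 * m + 1).choose x) ^ r := by
    rw [← Finset.sum_range_reflect]
    apply sum_congr rfl
    intro x hx
    rw [mem_range] at hx
    congr 1
    rw [← Nat.choose_symm (by omega : x ≤ 2 * m + 1)]
    congr 1
    omega
  rw [h1, ← two_mul]
  have h2 : ∑ x ∈ range (m + 1), ((2 * m + 1).choose x) ^ r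
      ≡ ∑ x ∈ range (m + 1), (2 * m + 1).choose x [MOD 2] :=
    sum_modEq fun x _ => pow_mod_two _ _ hr
  rw [Nat.sum_range_choose_halfway] at h2
  have h3 : 4 ^ m ≡ 0 [MOD 2] :=
    (Nat.modEq_zero_iff_dvd).mpr ((by norm_num : (2 : ℕ) ∣ 4).trans (dvd_pow_self 4 (by omega)))
  have h4 := (Nat.modEq_zero_iff_dvd).mp (h2.trans h3)
  obtain ⟨t, ht⟩ := h4
  rw [ht]
  exact ⟨t, by ring⟩

/-- `b k` with `2 b k = (3k+2) f_k` -/
lemma two_b (r k : ℕ) : 2 * b 1 r k = (3 * (k : ℤ) + 2) * (f r k : ℤ) := by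
  have h := b_eq 1 r k
  rw [M_two] at h
  push_cast at h
  linear_combination h

lemma b_even {r k : ℕ} (hr : 1 ≤ r) (hk : 2 ≤ k) : (2 : ℤ) ∣ b 1 r k := by
  have h := two_b r k
  rcases Nat.even_or_odd' k with ⟨m, hm | hm⟩
  · obtain ⟨t, ht⟩ := f_even hr (by omega : 1 ≤ k)
    rw [ht, hm] at h
    push_cast at h
    refine ⟨(3 * (m : ℤ) + 1) * t, ?_⟩
    have : (2 : ℤ) * b 1 r k = 2 * (2 * ((3 * (m : ℤ) + 1) * t)) := by
      rw [hm]; linear_combination h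
    linarith
  · obtain ⟨t, ht⟩ := f_odd_four hr (by omega : 1 ≤ m)
    rw [hm] at h ⊢
    rw [ht] at h
    push_cast at h
    refine ⟨(3 * (2 * (m : ℤ) + 1) + 2) * t, ?_⟩
    have : (2 : ℤ) * b 1 r (2 * m + 1) = 2 * (2 * ((3 * (2 * (m : ℤ) + 1) + 2) * t)) := by
      linear_combination h
    linarith

lemma b_one (r : ℕ) : b 1 r 1 = 5 := by
  have h := two_b r 1
  rw [f_one] at h
  push_cast at h
  linarith

lemma b_zero (r : ℕ) : b 1 r 0 = 1 := by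
  have h := two_b r 0
  rw [f_zero] at h
  push_cast at h
  linarith

/-- `M_{3,N}^{(r)}` is odd for `r ≥ 1` -/
lemma M_three_odd {r : ℕ} (hr : 1 ≤ r) (N : ℕ) : (2 : ℤ) ∣ (M 3 N r : ℤ) - 1 := by
  have h := conv_one_M 2 r N
  rw [show (2 + 1 : ℕ) = 3 from rfl, conv_one] at h
  rw [← h, sum_range_succ']
  simp only [M_two, f_zero, Nat.choose_zero_right, Nat.cast_one, one_pow, mul_one,
    add_sub_cancel_right]
  apply dvd_sum
  intro k _
  apply Dvd.dvd.mul_left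
  exact_mod_cast f_even hr (by omega : 1 ≤ k + 1)

lemma A_two_odd (j : ℕ) : (2 : ℤ) ∣ A 2 j - 1 := by
  have h := A_not_dvd Nat.prime_two j
  have : Odd (A 2 j) := by
    rw [← Int.not_even_iff_odd, even_iff_two_dvd]
    exact_mod_cast h
  obtain ⟨t, ht⟩ := this
  exact ⟨t, by rw [ht]; ring⟩

lemma B_two {e n : ℕ} (he : 1 ≤ e) (hn : 2 ^ e ∣ n) (j : ℕ) :
    (2 : ℤ) ^ (e + 1) ∣ B 2 n j - (A 2 j + n * j) := by
  have hn2 : (2 : ℤ) ∣ n := by
    have : 2 ∣ n := (dvd_pow_self 2 (by omega)).trans hn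
    exact_mod_cast this
  have h2n : (2 : ℤ) ^ (e + 1) ∣ 2 * (n : ℤ) := by
    rw [pow_succ']
    apply mul_dvd_mul_left
    exact_mod_cast hn
  induction j with
  | zero => simp [A, B]
  | succ j ih =>
    have hA : A 2 (j + 1) = A 2 j * (2 * (j : ℤ) + 1) := by
      unfold A; rw [prod_range_succ]; simp
    have hB : B 2 n (j + 1) = B 2 n j * (2 * (j : ℤ) + 1 - n) := by
      unfold B; rw [prod_range_succ]; simp
    rw [hA, hB]
    obtain ⟨u, hu⟩ := A_two_odd j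
    obtain ⟨v, hv⟩ := hn2
    obtain ⟨w, hw⟩ := ih
    obtain ⟨z, hz⟩ := h2n
    refine ⟨w * (2 * (j : ℤ) + 1 - n) + z * (-(u + 1) + (j : ℤ) ^ 2 - v * j), ?_⟩
    have hu' : A 2 j = 2 * u + 1 := by linarith
    push_cast
    have e1 : B 2 n j = A 2 j + n * j + 2 ^ (e + 1) * w := by linarith
    rw [e1, hu']
    have : (2 : ℤ) ^ (e + 1) * (w * (2 * (j : ℤ) + 1 - n) + z * (-(u + 1) + (j : ℤ) ^ 2 - v * j))
        = 2 ^ (e + 1) * w * (2 * (j : ℤ) + 1 - n)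
          + (2 * n) * (-(u + 1) + (j : ℤ) ^ 2 - v * j) := by
      rw [hz]; ring
    rw [this]
    linear_combination (-(n : ℤ) * j) * hv

lemma q_two_even {e n₁ : ℕ} (he : 1 ≤ e) (hn₁ : 1 ≤ n₁) (hn : 2 ^ e ∣ 2 * n₁) (j : ℕ) :
    (2 : ℤ) ^ (e + 1) ∣ q (2 * n₁) (2 * j) - q n₁ j * (1 + ((2 * n₁ : ℕ) : ℤ) * j) := by
  apply cancel_coprime Nat.prime_two (A_not_dvd Nat.prime_two j)
  have h1 := AB Nat.prime_two hn₁ j
  have h2 := B_two he hn j
  have h3 := A_two_odd j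
  have h2n : (2 : ℤ) ^ (e + 1) ∣ 2 * ((2 * n₁ : ℕ) : ℤ) := by
    rw [pow_succ']
    apply mul_dvd_mul_left
    exact_mod_cast hn
  obtain ⟨w, hw⟩ := h2
  obtain ⟨u, hu⟩ := h3
  obtain ⟨z, hz⟩ := h2n
  refine ⟨(w - z * u * j) * q n₁ j, ?_⟩
  set n : ℤ := ((2 * n₁ : ℕ) : ℤ) with hnn
  have : ((2 : ℕ) : ℤ) ^ (e + 1) * ((w - z * u * j) * q n₁ j)
      = (2 ^ (e + 1) * w - (2 ^ (e + 1) * z) * u * j) * q n₁ j := by push_cast; ring
  rw [this, ← hw, ← hz]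
  linear_combination h1 - (n * j * q n₁ j) * hu

lemma q_two_odd {e n₁ : ℕ} (he : 1 ≤ e) (hn₁ : 1 ≤ n₁) (hn : 2 ^ e ∣ 2 * n₁) (j : ℕ) :
    (2 : ℤ) ^ (e + 1) ∣ q (2 * n₁) (2 * j + 1)
      - q n₁ j * (1 + ((2 * n₁ : ℕ) : ℤ) * (j + 1)) := by
  have h1 := q_two_even he hn₁ hn j
  have h2n : (2 : ℤ) ^ (e + 1) ∣ 2 * ((2 * n₁ : ℕ) : ℤ) := by
    rw [pow_succ']
    apply mul_dvd_mul_left
    exact_mod_cast hn
  set n : ℤ := ((2 * n₁ : ℕ) : ℤ) with hnn
  have h3 : (2 : ℤ) ^ (e + 1) ∣ q (2 * n₁) (2 * j + 1) - q (2 * n₁) (2 * j) * (1 + n) := by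
    apply cancel_coprime Nat.prime_two (c := 2 * (j : ℤ) + 1)
    · push_cast; omega
    · have hr := q_rec (n := 2 * n₁) (by omega) (2 * j)
      push_cast at hr
      obtain ⟨z, hz⟩ := h2n
      refine ⟨-(z * (j + 1) * q (2 * n₁) (2 * j)), ?_⟩
      have : ((2 : ℕ) : ℤ) ^ (e + 1) * -(z * (j + 1) * q (2 * n₁) (2 * j))
          = -((2 ^ (e + 1) * z) * (j + 1) * q (2 * n₁) (2 * j)) := by push_cast; ring
      rw [this, ← hz]
      have hn' : n = 2 * (n₁ : ℤ) := by rw [hnn]; push_cast; ring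
      rw [hn']
      linear_combination hr
  have h4 : (2 : ℤ) ^ (e + 1) ∣ n ^ 2 := by
    have hn2 : (2 : ℤ) ∣ n := ⟨n₁, by rw [hnn]; push_cast; ring⟩
    obtain ⟨v, hv⟩ := hn2
    have : n ^ 2 = 2 * n * v := by rw [sq]; nth_rewrite 2 [hv]; ring
    rw [this]
    exact Dvd.dvd.mul_right h2n _
  have h5 : q (2 * n₁) (2 * j + 1) - q n₁ j * (1 + n * (j + 1))
      = (q (2 * n₁) (2 * j + 1) - q (2 * n₁) (2 * j) * (1 + n))
        + (q (2 * n₁) (2 * j) - q n₁ j * (1 + n * j)) * (1 + n)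
        + n ^ 2 * (q n₁ j * j) := by ring
  rw [h5]
  exact dvd_add (dvd_add h3 (Dvd.dvd.mul_right h1 _)) (Dvd.dvd.mul_right h4 _)

/-- odd powers of `1 + n t` modulo `2^{e+1}` -/
lemma one_add_pow {e : ℕ} {n t : ℤ} (h2n : (2 : ℤ) ^ (e + 1) ∣ 2 * n) (hn2 : (2 : ℤ) ∣ n) (r : ℕ) :
    (2 : ℤ) ^ (e + 1) ∣ (1 + n * t) ^ (2 * r + 1) - (1 + n * t) := by
  have h1 : (2 : ℤ) ^ (e + 1) ∣ (1 + n * t) ^ 2 - 1 := by
    obtain ⟨v, hv⟩ := hn2
    have : (1 + n * t) ^ 2 - 1 = 2 * n * (t + v * t ^ 2) := by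
      have : n * n = 2 * n * v := by nth_rewrite 1 [hv]; ring
      linear_combination t ^ 2 * this
    rw [this]
    exact Dvd.dvd.mul_right h2n _
  have h2 : (2 : ℤ) ^ (e + 1) ∣ ((1 + n * t) ^ 2) ^ r - 1 ^ r :=
    h1.trans (sub_dvd_pow_sub_pow ((1 + n * t) ^ 2) 1 r)
  have h3 : (1 + n * t) ^ (2 * r + 1) - (1 + n * t)
      = (1 + n * t) * (((1 + n * t) ^ 2) ^ r - 1 ^ r) := by
    rw [pow_succ, pow_mul]; ring
  rw [h3]
  exact Dvd.dvd.mul_left h2 _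

/-- the block sums are divisible by an additional factor -/
lemma key_two (s : ℕ) {e n₁ : ℕ} (he : 1 ≤ e) (hn₁ : 1 ≤ n₁) (hn : 2 ^ e ∣ 2 * n₁)
    (a : ℕ → ℤ) (ha : ∀ k, a k = (-1) ^ ((2 * s + 1) * k) * b 1 (2 * s + 1) k) :
    (2 : ℤ) ^ (e + 1) ∣ ∑ j ∈ range n₁, q n₁ j ^ (2 * s + 1) * (a (2 * j) + a (2 * j + 1)) := by
  set R := 2 * s + 1 with hR
  have hR1 : 1 ≤ R := by omega
  set n : ℤ := ((2 * n₁ : ℕ) : ℤ) with hnn
  have hn2 : (2 : ℤ) ∣ n := ⟨n₁, by rw [hnn]; push_cast; ring⟩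
  have h2n : (2 : ℤ) ^ (e + 1) ∣ 2 * n := by
    rw [pow_succ']
    apply mul_dvd_mul_left
    rw [hnn]
    exact_mod_cast hn
  have haeven : ∀ k, 2 ≤ k → (2 : ℤ) ∣ a k := by
    intro k hk
    rw [ha]
    exact Dvd.dvd.mul_left (b_even hR1 hk) _
  -- total sum
  have hT : (2 : ℤ) ^ (e + 1) ∣ (∑ k ∈ range (2 * n₁), q (2 * n₁) k ^ R * a k) - n := by
    have h1 : ∑ k ∈ range (2 * n₁), q (2 * n₁) k ^ R * a k
        = n * (M 3 (2 * n₁ - 1) R : ℤ) := by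
      obtain ⟨N, hN⟩ : ∃ N, 2 * n₁ = N + 1 := ⟨2 * n₁ - 1, by omega⟩
      have h2 := sum_choose_b 1 R N
      rw [hnn, hN, Nat.add_sub_cancel]
      have h3 : ∑ k ∈ range (N + 1), q (N + 1) k ^ R * a k
          = ∑ k ∈ range (N + 1), (N.choose k : ℤ) ^ R * b 1 R k := by
        apply sum_congr rfl
        intro k _
        rw [ha]
        unfold q
        rw [mul_pow, ← pow_mul, Nat.add_sub_cancel]
        have : ((-1 : ℤ)) ^ (k * R) * (-1) ^ (R * k) = 1 := by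
          rw [mul_comm k R, ← mul_pow]; simp
        linear_combination (N.choose k : ℤ) ^ R * b 1 R k * this
      rw [h3, h2]
      push_cast
      ring
    rw [h1]
    obtain ⟨t, ht⟩ := M_three_odd hR1 (2 * n₁ - 1)
    have : n * (M 3 (2 * n₁ - 1) R : ℤ) - n = 2 * n * t := by linear_combination n * ht
    rw [this]
    exact Dvd.dvd.mul_right h2n _
  rw [sum_blocks] at hT
  -- compare
  have hC : (2 : ℤ) ^ (e + 1) ∣ (∑ j ∈ range n₁, ∑ i ∈ range 2,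
        q (2 * n₁) (2 * j + i) ^ R * a (2 * j + i))
      - ∑ j ∈ range n₁, q n₁ j ^ R * ((1 + n * j) * a (2 * j)
          + (1 + n * (j + 1)) * a (2 * j + 1)) := by
    rw [← sum_sub_distrib]
    apply dvd_sum
    intro j _
    rw [sum_range_succ, sum_range_succ, sum_range_zero, zero_add, add_zero]
    have e1 : (2 : ℤ) ^ (e + 1) ∣ q (2 * n₁) (2 * j) ^ R - q n₁ j ^ R * (1 + n * j) := by
      have g1 : (2 : ℤ) ^ (e + 1) ∣ q (2 * n₁) (2 * j) ^ R - (q n₁ j * (1 + n * j)) ^ R :=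
        (q_two_even he hn₁ hn j).trans (sub_dvd_pow_sub_pow _ _ R)
      have g2 := one_add_pow (t := (j : ℤ)) h2n hn2 s
      have : q (2 * n₁) (2 * j) ^ R - q n₁ j ^ R * (1 + n * j)
          = (q (2 * n₁) (2 * j) ^ R - (q n₁ j * (1 + n * j)) ^ R)
            + q n₁ j ^ R * ((1 + n * j) ^ R - (1 + n * j)) := by rw [mul_pow]; ring
      rw [this]
      exact dvd_add g1 (Dvd.dvd.mul_left g2 _)
    have e2 : (2 : ℤ) ^ (e + 1) ∣ q (2 * n₁) (2 * j + 1) ^ R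
        - q n₁ j ^ R * (1 + n * (j + 1)) := by
      have g1 : (2 : ℤ) ^ (e + 1) ∣ q (2 * n₁) (2 * j + 1) ^ R
          - (q n₁ j * (1 + n * (j + 1))) ^ R :=
        (q_two_odd he hn₁ hn j).trans (sub_dvd_pow_sub_pow _ _ R)
      have g2 := one_add_pow (t := (j : ℤ) + 1) h2n hn2 s
      have : q (2 * n₁) (2 * j + 1) ^ R - q n₁ j ^ R * (1 + n * (j + 1))
          = (q (2 * n₁) (2 * j + 1) ^ R - (q n₁ j * (1 + n * (j + 1))) ^ R)
            + q n₁ j ^ R * ((1 + n * (j + 1)) ^ R - (1 + n * (j + 1))) := by rw [mul_pow]; ring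
      rw [this]
      exact dvd_add g1 (Dvd.dvd.mul_left g2 _)
    have : q (2 * n₁) (2 * j) ^ R * a (2 * j) + q (2 * n₁) (2 * j + 1) ^ R * a (2 * j + 1)
        - q n₁ j ^ R * ((1 + n * j) * a (2 * j) + (1 + n * (j + 1)) * a (2 * j + 1))
        = (q (2 * n₁) (2 * j) ^ R - q n₁ j ^ R * (1 + n * j)) * a (2 * j)
          + (q (2 * n₁) (2 * j + 1) ^ R - q n₁ j ^ R * (1 + n * (j + 1))) * a (2 * j + 1) := by
      ring
    rw [this]
    exact dvd_add (Dvd.dvd.mul_right e1 _) (Dvd.dvd.mul_right e2 _)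
  have hD : (2 : ℤ) ^ (e + 1) ∣ n * (∑ j ∈ range n₁, q n₁ j ^ R *
      ((j : ℤ) * a (2 * j) + ((j : ℤ) + 1) * a (2 * j + 1))) - n := by
    obtain ⟨m, rfl⟩ : ∃ m, n₁ = m + 1 := ⟨n₁ - 1, by omega⟩
    rw [sum_range_succ']
    have e1 : (2 : ℤ) ∣ ∑ k ∈ range m, q (m + 1) (k + 1) ^ R *
        (((k + 1 : ℕ) : ℤ) * a (2 * (k + 1)) + (((k + 1 : ℕ) : ℤ) + 1) * a (2 * (k + 1) + 1)) := by
      apply dvd_sum
      intro k _
      apply Dvd.dvd.mul_left
      exact dvd_add (Dvd.dvd.mul_left (haeven _ (by omega)) _)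
        (Dvd.dvd.mul_left (haeven _ (by omega)) _)
    obtain ⟨t, ht⟩ := e1
    have ha1 : a 1 = -5 := by
      rw [ha, mul_one, b_one, hR, pow_succ, pow_mul]; norm_num
    rw [ht, q_zero]
    have : n * (2 * t + 1 ^ R * (((0 : ℕ) : ℤ) * a (2 * 0) + (((0 : ℕ) : ℤ) + 1) * a (2 * 0 + 1))) - n
        = 2 * n * (t - 3) := by
      simp only [Nat.cast_zero, mul_zero, zero_add, ha1, one_pow]
      ring
    rw [this]
    exact Dvd.dvd.mul_right h2n _
  have hfin : ∑ j ∈ range n₁, q n₁ j ^ R * (a (2 * j) + a (2 * j + 1))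
      = ((∑ j ∈ range n₁, ∑ i ∈ range 2, q (2 * n₁) (2 * j + i) ^ R * a (2 * j + i)) - n)
        - ((∑ j ∈ range n₁, ∑ i ∈ range 2, q (2 * n₁) (2 * j + i) ^ R * a (2 * j + i))
          - ∑ j ∈ range n₁, q n₁ j ^ R * ((1 + n * j) * a (2 * j)
            + (1 + n * (j + 1)) * a (2 * j + 1)))
        - (n * (∑ j ∈ range n₁, q n₁ j ^ R *
            ((j : ℤ) * a (2 * j) + ((j : ℤ) + 1) * a (2 * j + 1))) - n) := by
    have : ∑ j ∈ range n₁, q n₁ j ^ R * ((1 + n * j) * a (2 * j)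
            + (1 + n * (j + 1)) * a (2 * j + 1))
        = ∑ j ∈ range n₁, q n₁ j ^ R * (a (2 * j) + a (2 * j + 1))
          + n * ∑ j ∈ range n₁, q n₁ j ^ R *
            ((j : ℤ) * a (2 * j) + ((j : ℤ) + 1) * a (2 * j + 1)) := by
      rw [mul_sum, ← sum_add_distrib]
      apply sum_congr rfl
      intro j _
      ring
    rw [this]; ring
  rw [hfin]
  exact dvd_sub (dvd_sub hT hC) hD

/-- `4n ∣ ∑_{k<n} (-1)^k (3k+2) f_k^{(2s+1)}` for `n ≥ 2` -/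
theorem four_n (s n : ℕ) (hn : 2 ≤ n) :
    (4 * (n : ℤ)) ∣ ∑ k ∈ range n, (-1) ^ k * (3 * (k : ℤ) + 2) * (f (2 * s + 1) k : ℤ) := by
  set R := 2 * s + 1 with hR
  have hR1 : 1 ≤ R := by omega
  set a : ℕ → ℤ := fun k => (-1) ^ (R * k) * b 1 R k with ha
  have hak : ∀ k, a k = (-1) ^ ((2 * s + 1) * k) * b 1 (2 * s + 1) k := fun k => rfl
  have haeven : ∀ k, 2 ≤ k → (2 : ℤ) ∣ a k := by
    intro k hk
    exact Dvd.dvd.mul_left (b_even hR1 hk) _
  have hodd : ∀ p e : ℕ, p.Prime → p ^ e ∣ n → (p : ℤ) ^ e ∣ ∑ k ∈ range n, a k := by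
    intro p e hp he
    have h := BlockSum.sum_dvd' R a (fun n hn => dvd_signed 1 R n hn) n
    refine dvd_trans ?_ h
    exact_mod_cast he
  -- block sums divisible by 4
  have hdiv : ∀ j, (4 : ℤ) ∣ a (2 * j) + a (2 * j + 1) := by
    intro j
    induction j using Nat.strong_induction_on with
    | _ j ihj =>
      have h1 := key_two s (e := 1) (n₁ := j + 1) le_rfl (by omega)
        (by rw [pow_one]; exact dvd_mul_right _ _) a hak
      rw [sum_range_succ] at h1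
      have h2 : (4 : ℤ) ∣ ∑ x ∈ range j, q (j + 1) x ^ (2 * s + 1) * (a (2 * x) + a (2 * x + 1)) := by
        apply dvd_sum
        intro x hx
        exact Dvd.dvd.mul_left (ihj x (mem_range.mp hx)) _
      have h3 : (4 : ℤ) ∣ q (j + 1) j ^ (2 * s + 1) * (a (2 * j) + a (2 * j + 1)) := by
        have : (2 : ℤ) ^ (1 + 1) = 4 := by norm_num
        rw [this] at h1
        exact (dvd_add_right h2).mp h1
      have h4 : q (j + 1) j = (-1) ^ j := by simp [q]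
      rw [h4, ← pow_mul] at h3
      have h5 := Dvd.dvd.mul_left h3 ((-1) ^ (j * (2 * s + 1)))
      rw [← mul_assoc, ← mul_pow] at h5
      simpa using h5
  choose c hc using hdiv
  have hHc : ∀ m e', 1 ≤ m → 2 ^ e' ∣ m → (2 : ℤ) ^ e' ∣ ∑ k ∈ range m, q m k ^ R * c k := by
    intro m e' hm he
    have h1 := key_two s (e := e' + 1) (n₁ := m) (by omega) hm
      (by rw [pow_succ']; exact mul_dvd_mul_left 2 he) a hak
    have h2 : ∑ j ∈ range m, q m j ^ (2 * s + 1) * (a (2 * j) + a (2 * j + 1))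
        = 4 * ∑ j ∈ range m, q m j ^ R * c j := by
      rw [mul_sum]
      apply sum_congr rfl
      intro j _
      rw [hc j]; ring
    have h3 : (2 : ℤ) ^ (e' + 1 + 1) = 4 * 2 ^ e' := by ring
    rw [h2, h3] at h1
    exact (mul_dvd_mul_iff_left (by norm_num)).mp h1
  have htwo : ∀ e, 1 ≤ e → 2 ^ e ∣ n → (2 : ℤ) ^ (e + 1) ∣ ∑ k ∈ range n, a k := by
    intro e he hen
    obtain ⟨e', rfl⟩ : ∃ e', e = e' + 1 := ⟨e - 1, by omega⟩
    obtain ⟨n₁, rfl⟩ : 2 ∣ n := (dvd_pow_self 2 (Nat.succ_ne_zero e')).trans hen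
    have h1 : 2 ^ e' ∣ n₁ := by
      rw [pow_succ'] at hen
      exact (Nat.mul_dvd_mul_iff_left (by norm_num)).mp hen
    have h2 := BlockSum.sum_dvd Nat.prime_two R e' c
      (fun m e' hm he => by exact_mod_cast hHc m e' hm he) n₁ h1
    rw [sum_blocks]
    have h3 : ∑ j ∈ range n₁, ∑ i ∈ range 2, a (2 * j + i) = 4 * ∑ j ∈ range n₁, c j := by
      rw [mul_sum]
      apply sum_congr rfl
      intro j _
      rw [sum_range_succ, sum_range_succ, sum_range_zero, zero_add, add_zero, hc j]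
    rw [h3]
    have h4 : (2 : ℤ) ^ (e' + 1 + 1) = 4 * 2 ^ e' := by ring
    rw [h4]
    exact mul_dvd_mul_left _ (by exact_mod_cast h2)
  -- two times n divides the half sum
  have hmain : ((2 * n : ℕ) : ℤ) ∣ ∑ k ∈ range n, a k := by
    apply dvd_of_prime_pow
    intro p e hp he
    by_cases hp2 : p = 2
    · subst hp2
      rcases Nat.eq_zero_or_pos e with rfl | he0
      · simp
      obtain ⟨e', rfl⟩ : ∃ e', e = e' + 1 := ⟨e - 1, by omega⟩
      have hen : 2 ^ e' ∣ n := by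
        rw [pow_succ'] at he
        exact (Nat.mul_dvd_mul_iff_left (by norm_num)).mp he
      rcases Nat.eq_zero_or_pos e' with rfl | he1
      · -- need `2 ∣ S(n)`
        simp only [zero_add, pow_one]
        rcases Nat.even_or_odd n with hev | hod
        · have h5 := htwo 1 le_rfl (by rw [pow_one]; exact hev.two_dvd)
          exact (dvd_pow_self (2 : ℤ) (by norm_num)).trans h5
        · obtain ⟨m, hm⟩ := hod
          rw [hm, sum_range_succ]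
          apply dvd_add
          · have h5 : (2 : ℤ) ∣ ∑ k ∈ range (2 * m), a k := by
              rw [sum_blocks]
              apply dvd_sum
              intro j _
              rw [sum_range_succ, sum_range_succ, sum_range_zero, zero_add, add_zero, hc j]
              exact Dvd.dvd.mul_right (by norm_num) _
            exact_mod_cast h5
          · exact_mod_cast haeven (2 * m) (by omega)
      · exact_mod_cast htwo e' he1 hen
    · apply hodd p e hp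
      have hcop : Nat.Coprime (p ^ e) 2 := by
        apply Nat.Coprime.pow_left
        exact (Nat.coprime_primes hp Nat.prime_two).mpr hp2
      exact hcop.dvd_of_dvd_mul_left he
  have h2 : ∑ k ∈ range n, (-1) ^ k * (3 * (k : ℤ) + 2) * (f R k : ℤ)
      = 2 * ∑ k ∈ range n, a k := by
    rw [mul_sum]
    apply sum_congr rfl
    intro k _
    have h3 := two_b R k
    have h4 : ((-1 : ℤ)) ^ (R * k) = (-1) ^ k := by
      rw [pow_mul, hR, pow_succ, pow_mul]; norm_num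
    rw [ha]
    simp only
    rw [h4]
    linear_combination (-1) * (-1 : ℤ) ^ k * h3
  rw [h2]
  have h5 : (4 * (n : ℤ)) = 2 * ((2 * n : ℕ) : ℤ) := by push_cast; ring
  rw [h5]
  exact mul_dvd_mul_left _ hmain

end Pool.Agent.R499.FranelPower
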