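import Mathlib

/-!
# The basis `b i n = C(n,i) C(n+i,i)`

The functions `b i` span a ring; alternating weighted sums of elements of this ring are divisible
by `n`.
-/

set_option autoImplicit false

namespace Pool.Agent.R499.Linear

open Finset

/-- `b i n = C(n,i) C(n+i,i)` -/
def b (i n : ℕ) : ℤ := (n.choose i : ℤ) * ((n + i).choose i : ℤ)

lemma b_zero (n : ℕ) : b 0 n = 1 := by simp [b]

lemma b_eq_zero {i n : ℕ} (h : n < i) : b i n = 0 := by
  simp [b, Nat.choose_eq_zero_of_lt h]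

lemma ch_rel (n j : ℕ) : ((j : ℤ) + 1) * (n.choose (j + 1) : ℤ) = ((n : ℤ) - j) * (n.choose j : ℤ) := by
  rcases le_or_gt j n with h | h
  · have h1 := Nat.choose_succ_right_eq n j
    have h2 : ((n - j : ℕ) : ℤ) = (n : ℤ) - j := by push_cast [h]; ring
    have h3 : (n.choose (j + 1) : ℤ) * ((j : ℤ) + 1) = (n.choose j : ℤ) * ((n - j : ℕ) : ℤ) := by
      exact_mod_cast h1
    rw [h2] at h3
    linarith
  · rw [Nat.choose_eq_zero_of_lt h, Nat.choose_eq_zero_of_lt (by omega)]
    simp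

lemma ch_diag (n j : ℕ) : ((n : ℤ) + 1) * (n.choose j : ℤ) = ((j : ℤ) + 1) * ((n + 1).choose (j + 1) : ℤ) := by
  have h := Nat.add_one_mul_choose_eq n j
  have : ((n : ℤ) + 1) * (n.choose j : ℤ) = ((n + 1).choose (j + 1) : ℤ) * ((j : ℤ) + 1) := by
    exact_mod_cast h
  linarith

/-- `(n+1-i) C(n+1,i) = (n+1) C(n,i)` -/
lemma ch_up (n i : ℕ) : ((n : ℤ) + 1 - i) * ((n + 1).choose i : ℤ) = ((n : ℤ) + 1) * (n.choose i : ℤ) := by
  have h1 := ch_rel (n + 1) i
  have h2 := ch_diag n i
  push_cast at h1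
  rw [← h1, h2]

/-- `(i+1)² b_{i+1} = (n-i)(n+i+1) b_i` -/
lemma b_succ (i n : ℕ) :
    ((i : ℤ) + 1) ^ 2 * b (i + 1) n = ((n : ℤ) - i) * ((n : ℤ) + i + 1) * b i n := by
  unfold b
  have h1 := ch_rel n i
  have h2 := ch_diag (n + i) i
  rw [show n + i + 1 = n + (i + 1) by ring] at h2
  push_cast at h1 h2
  generalize (n.choose (i + 1) : ℤ) = x at *
  generalize (n.choose i : ℤ) = y at *
  generalize ((n + (i + 1)).choose (i + 1) : ℤ) = z at *
  generalize ((n + i).choose i : ℤ) = t at *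
  linear_combination ((i : ℤ) + 1) * z * h1 - ((n : ℤ) - i) * y * h2

/-- `(n+1-i) b_i(n+1) = (n+1+i) b_i(n)` -/
lemma b_up (i n : ℕ) : ((n : ℤ) + 1 - i) * b i (n + 1) = ((n : ℤ) + 1 + i) * b i n := by
  unfold b
  have h1 := ch_up n i
  have h2 := ch_up (n + i) i
  rw [show n + i + 1 = n + 1 + i by ring] at h2
  push_cast at h1 h2
  have h2' : ((n : ℤ) + 1) * ((n + 1 + i).choose i : ℤ) = ((n : ℤ) + 1 + i) * ((n + i).choose i : ℤ) := by
    linear_combination h2
  generalize ((n + 1).choose i : ℤ) = x at *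
  generalize (n.choose i : ℤ) = y at *
  generalize ((n + 1 + i).choose i : ℤ) = z at *
  generalize ((n + i).choose i : ℤ) = t at *
  linear_combination z * h1 + y * h2'

/-- multiplication by `n(n+1)` -/
lemma T_mul_b (s n : ℕ) : ((n : ℤ) * (n + 1)) * b s n
    = ((s : ℤ) + 1) ^ 2 * b (s + 1) n + (s : ℤ) * (s + 1) * b s n := by
  rw [b_succ]; ring

/-- structure constants -/
def c (s i j : ℕ) : ℤ := (s.choose i : ℤ) * (s.choose j : ℤ) * ((i + j).choose s : ℤ)

lemma c_rec (s i j : ℕ) : ((i : ℤ) + 1) ^ 2 * c (s + 1) (i + 1) j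
    = ((s : ℤ) + 1) ^ 2 * c s i j + (((s : ℤ) + 1) * (s + 2) - i * (i + 1)) * c (s + 1) i j := by
  unfold c
  have h1 := ch_rel (s + 1) i
  have h2 := ch_up s i
  have h3 := ch_up s j
  have h4 := ch_rel (i + j) s
  have h5 : ((i + 1 + j).choose (s + 1) : ℤ) = ((i + j).choose s : ℤ) + ((i + j).choose (s + 1) : ℤ) := by
    rw [show i + 1 + j = i + j + 1 by ring, Nat.choose_succ_succ]; push_cast; ring
  rw [h5]
  push_cast at h1 h2 h3 h4
  generalize ((s + 1).choose (i + 1) : ℤ) = a at *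
  generalize ((s + 1).choose i : ℤ) = a' at *
  generalize ((s + 1).choose j : ℤ) = d at *
  generalize (s.choose i : ℤ) = p at *
  generalize (s.choose j : ℤ) = q at *
  generalize ((i + j).choose s : ℤ) = v at *
  generalize ((i + j).choose (s + 1) : ℤ) = u at *
  linear_combination ((i : ℤ) + 1) * d * (v + u) * h1
    + v * ((s : ℤ) + 1) * q * h2 + v * ((s : ℤ) + 1 - i) * a' * h3
    - ((s : ℤ) + 1 - i) * a' * d * h4

lemma c_rec_zero (i j : ℕ) : ((i : ℤ) + 1) ^ 2 * c 0 (i + 1) j
    = (0 - (i : ℤ) * (i + 1)) * c 0 i j := by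
  unfold c
  rcases Nat.eq_zero_or_pos i with rfl | hi
  · simp
  · rw [Nat.choose_eq_zero_of_lt hi]; simp

lemma c_top {s i j : ℕ} (h : i + j < s) : c s i j = 0 := by
  unfold c; rw [Nat.choose_eq_zero_of_lt h]; simp

/-- the product formula -/
theorem prod_b (i j n : ℕ) : ∀ N, i + j < N → b i n * b j n = ∑ s ∈ range N, c s i j * b s n := by
  induction i with
  | zero =>
    intro N hN
    rw [Finset.sum_eq_single j]
    · simp [b_zero, c]
    · intro s _ hs
      unfold c
      rcases lt_or_gt_of_ne hs with h | h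
      · rw [Nat.choose_eq_zero_of_lt h]; simp
      · rw [zero_add, Nat.choose_eq_zero_of_lt h]; simp
    · intro h
      exact absurd (mem_range.mpr (by omega)) h
  | succ i ih =>
    intro N hN
    have hi : ((i : ℤ) + 1) ^ 2 ≠ 0 := by positivity
    apply mul_left_cancel₀ hi
    obtain ⟨M, rfl⟩ : ∃ M, N = M + 1 := ⟨N - 1, by omega⟩
    have e1 : ((i : ℤ) + 1) ^ 2 * (b (i + 1) n * b j n)
        = ((n : ℤ) * (n + 1) - i * (i + 1)) * (b i n * b j n) := by
      have := b_succ i n
      linear_combination (b j n) * this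
    rw [e1, ih M (by omega), mul_sum]
    have e2 : ∀ s ∈ range M, ((n : ℤ) * (n + 1) - i * (i + 1)) * (c s i j * b s n)
        = ((s : ℤ) + 1) ^ 2 * c s i j * b (s + 1) n
          + ((s : ℤ) * (s + 1) - i * (i + 1)) * c s i j * b s n := by
      intro s _
      have := T_mul_b s n
      linear_combination (c s i j) * this
    rw [sum_congr rfl e2, sum_add_distrib]
    have e3 : ∑ s ∈ range M, ((s : ℤ) * (s + 1) - i * (i + 1)) * c s i j * b s n
        = ∑ s ∈ range (M + 1), ((s : ℤ) * (s + 1) - i * (i + 1)) * c s i j * b s n := by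
      rw [sum_range_succ, c_top (show i + j < M by omega)]
      simp
    rw [e3, sum_range_succ' (fun s => ((s : ℤ) * (s + 1) - i * (i + 1)) * c s i j * b s n),
      sum_range_succ' (fun s => c s (i + 1) j * b s n),
      mul_add (((i : ℤ) + 1) ^ 2) (∑ k ∈ range M, c (k + 1) (i + 1) j * b (k + 1) n), mul_sum]
    rw [← add_assoc, ← sum_add_distrib]
    have e4 := c_rec_zero i j
    congr 1
    · apply sum_congr rfl
      intro s _
      have := c_rec s i j
      push_cast
      linear_combination (-(b (s + 1) n)) * this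
    · push_cast
      linear_combination (-(b 0 n)) * e4

/-- alternating weighted sum of a basis element -/
theorem alt_sum (i n : ℕ) : ∑ k ∈ range n, (2 * (k : ℤ) + 1) * (-1) ^ k * b i k
    = (-1) ^ (n + 1) * ((n : ℤ) - i) * b i n := by
  induction n with
  | zero =>
    rcases Nat.eq_zero_or_pos i with rfl | hi
    · simp
    · rw [b_eq_zero hi]; simp
  | succ n ih =>
    rw [sum_range_succ, ih]
    have h := b_up i n
    push_cast
    rw [pow_succ, pow_succ]
    linear_combination (-(-1) ^ n) * h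

/-- plain weighted sum of a basis element -/
theorem plain_sum (i n : ℕ) : ((i : ℤ) + 1) * ∑ k ∈ range n, (2 * (k : ℤ) + 1) * b i k
    = (n : ℤ) * ((n : ℤ) - i) * b i n := by
  induction n with
  | zero => simp
  | succ n ih =>
    rw [sum_range_succ, mul_add, ih]
    have h := b_up i n
    push_cast
    linear_combination (-((n : ℤ) + 1)) * h

lemma dvd_alt (i n : ℕ) : (n : ℤ) ∣ ((n : ℤ) - i) * b i n := by
  rcases Nat.eq_zero_or_pos n with rfl | hn
  · rcases Nat.eq_zero_or_pos i with rfl | hi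
    · simp
    · rw [b_eq_zero hi]; simp
  · obtain ⟨m, rfl⟩ : ∃ m, n = m + 1 := ⟨n - 1, by omega⟩
    have h := ch_up m i
    refine ⟨(m.choose i : ℤ) * ((m + 1 + i).choose i : ℤ), ?_⟩
    unfold b
    push_cast
    linear_combination ((m + 1 + i).choose i : ℤ) * h

/-! ### Functions in the span, with coefficients in a commutative ring -/

variable {R : Type*} [CommRing R]

/-- `f` agrees below `n` with a combination of the basis elements -/
def Sp (n : ℕ) (f : ℕ → R) : Prop :=
  ∃ (N : ℕ) (a : ℕ → R), ∀ k < n, f k = ∑ i ∈ range N, a i * (b i k : R)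

lemma Sp.extend {n N N' : ℕ} {a : ℕ → R} {f : ℕ → R} (hN : N ≤ N')
    (h : ∀ k < n, f k = ∑ i ∈ range N, a i * (b i k : R)) :
    ∀ k < n, f k = ∑ i ∈ range N', (if i < N then a i else 0) * (b i k : R) := by
  intro k hk
  rw [h k hk]
  have hsub : range N ⊆ range N' := Finset.range_subset_range.mpr hN
  rw [← sum_subset hsub]
  · apply sum_congr rfl
    intro i hi
    rw [if_pos (mem_range.mp hi)]
  · intro i _ hi
    rw [if_neg (by simpa using hi)]
    simp

lemma Sp.add {n : ℕ} {f g : ℕ → R} (hf : Sp n f) (hg : Sp n g) : Sp n (fun k => f k + g k) := by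
  obtain ⟨N, a, ha⟩ := hf
  obtain ⟨M, a', ha'⟩ := hg
  refine ⟨max N M, fun i => (if i < N then a i else 0) + (if i < M then a' i else 0), ?_⟩
  intro k hk
  beta_reduce
  rw [Sp.extend (le_max_left N M) ha k hk, Sp.extend (le_max_right N M) ha' k hk,
    ← sum_add_distrib]
  apply sum_congr rfl
  intro i _
  ring

lemma Sp.smul {n : ℕ} {f : ℕ → R} (r : R) (hf : Sp n f) : Sp n (fun k => r * f k) := by
  obtain ⟨N, a, ha⟩ := hf
  refine ⟨N, fun i => r * a i, ?_⟩
  intro k hk
  beta_reduce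
  rw [ha k hk, mul_sum]
  apply sum_congr rfl
  intro i _
  ring

lemma Sp.zero (n : ℕ) : Sp n (fun _ => (0 : R)) := ⟨0, fun _ => 0, by simp⟩

lemma Sp.sum {ι : Type*} {n : ℕ} (s : Finset ι) (f : ι → ℕ → R) (h : ∀ i ∈ s, Sp n (f i)) :
    Sp n (fun k => ∑ i ∈ s, f i k) := by
  classical
  induction s using Finset.induction_on with
  | empty => simpa using Sp.zero n
  | insert i s his ih =>
    simp only [sum_insert his]
    exact (h i (mem_insert_self i s)).add (ih fun j hj => h j (mem_insert_of_mem hj))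

lemma Sp.basis (n i : ℕ) : Sp n (fun k => (b i k : R)) := by
  refine ⟨i + 1, fun l => if l = i then 1 else 0, ?_⟩
  intro k _
  simp

lemma Sp.prodBasis (n i j : ℕ) : Sp n (fun k => (b i k : R) * (b j k : R)) := by
  refine ⟨i + j + 1, fun s => (c s i j : R), ?_⟩
  intro k _
  have := prod_b i j k (i + j + 1) (by omega)
  have h := congrArg (fun z : ℤ => (z : R)) this
  push_cast at h
  exact h

lemma Sp.mul {n : ℕ} {f g : ℕ → R} (hf : Sp n f) (hg : Sp n g) : Sp n (fun k => f k * g k) := by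
  obtain ⟨N, a, ha⟩ := hf
  obtain ⟨M, a', ha'⟩ := hg
  have h : Sp n (fun k => ∑ i ∈ range N, ∑ j ∈ range M, (a i * a' j) * ((b i k : R) * (b j k : R))) := by
    apply Sp.sum
    intro i _
    apply Sp.sum
    intro j _
    exact (Sp.prodBasis n i j).smul _
  obtain ⟨K, e, he⟩ := h
  refine ⟨K, e, ?_⟩
  intro k hk
  rw [← he k hk]
  beta_reduce
  rw [ha k hk, ha' k hk, sum_mul_sum]
  apply sum_congr rfl
  intro i _
  apply sum_congr rfl
  intro j _
  ring

lemma Sp.pow {n : ℕ} {f : ℕ → R} (hf : Sp n f) (m : ℕ) : Sp n (fun k => f k ^ m) := by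
  induction m with
  | zero =>
    refine ⟨1, fun _ => 1, ?_⟩
    intro k _
    simp [b_zero]
  | succ m ih =>
    simp only [pow_succ]
    exact ih.mul hf

/-- alternating weighted sums of elements of the span are divisible by `n` -/
theorem Sp.dvd_alt_sum {n : ℕ} {f : ℕ → R} (hf : Sp n f) :
    (n : R) ∣ ∑ k ∈ range n, (2 * (k : R) + 1) * (-1) ^ k * f k := by
  obtain ⟨N, a, ha⟩ := hf
  have h : ∑ k ∈ range n, (2 * (k : R) + 1) * (-1) ^ k * f k
      = ∑ i ∈ range N, a i * ((∑ k ∈ range n, (2 * (k : ℤ) + 1) * (-1) ^ k * b i k : ℤ) : R) := by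
    have h1 : ∀ k ∈ range n, (2 * (k : R) + 1) * (-1) ^ k * f k
        = ∑ i ∈ range N, a i * ((2 * (k : R) + 1) * (-1) ^ k * (b i k : R)) := by
      intro k hk
      rw [ha k (mem_range.mp hk), mul_sum]
      apply sum_congr rfl
      intro i _
      ring
    rw [sum_congr rfl h1, sum_comm]
    apply sum_congr rfl
    intro i _
    rw [← mul_sum]
    push_cast
    rfl
  rw [h]
  apply dvd_sum
  intro i _
  rw [alt_sum]
  obtain ⟨q, hq⟩ := dvd_alt i n
  refine ⟨a i * ((-1) ^ (n + 1) * (q : R)), ?_⟩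
  have e : ((-1 : ℤ) ^ (n + 1) * ((n : ℤ) - i) * b i n) = n * ((-1) ^ (n + 1) * q) := by
    linear_combination ((-1 : ℤ) ^ (n + 1)) * hq
  rw [e]
  push_cast
  ring

end Pool.Agent.R499.Linear
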