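import Mathlib

/-!
Counting the integers `n` with `n + φ(n)` in an interval `(x, x + ε x)`.
-/

set_option autoImplicit false

namespace Pool.Agent.R499.PhiShift

open Finset

/-- The part of `∑ 1/p` over the prime divisors of `n` exceeding `z`. -/
noncomputable def s (z n : ℕ) : ℝ := ∑ p ∈ n.primeFactors.filter (fun p => z < p), (1 : ℝ) / p

/-- The truncated product `∏ (1 - 1/p)` over the prime divisors `p ≤ z` of `n`. -/
noncomputable def h (z n : ℕ) : ℝ := ∏ p ∈ (Finset.Icc 1 z).filter (fun p => p.Prime ∧ p ∣ n), (1 - (1 : ℝ) / p)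

lemma s_nonneg (z n : ℕ) : 0 ≤ s z n := by
  unfold s
  exact Finset.sum_nonneg (fun p _ => by positivity)

lemma one_sub_nonneg {p : ℕ} (hp : p.Prime) : 0 ≤ 1 - (1 : ℝ) / p ∧ 1 - (1 : ℝ) / p ≤ 1 := by
  have h2 : (2 : ℝ) ≤ p := by exact_mod_cast hp.two_le
  have h3 : (1 : ℝ) / p ≤ 1 / 2 := by
    apply one_div_le_one_div_of_le (by norm_num) h2
  have h4 : 0 ≤ (1 : ℝ) / p := by positivity
  constructor <;> linarith

lemma h_nonneg (z n : ℕ) : 0 ≤ h z n := by
  unfold h
  refine Finset.prod_nonneg (fun p hp => ?_)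
  rw [mem_filter] at hp
  exact (one_sub_nonneg hp.2.1).1

lemma h_le_one (z n : ℕ) : h z n ≤ 1 := by
  unfold h
  refine Finset.prod_le_one (fun p hp => ?_) (fun p hp => ?_)
  · rw [mem_filter] at hp
    exact (one_sub_nonneg hp.2.1).1
  · rw [mem_filter] at hp
    exact (one_sub_nonneg hp.2.1).2

lemma h_mod (z n : ℕ) : h z (n % z.factorial) = h z n := by
  unfold h
  congr 1
  apply Finset.filter_congr
  intro p hp
  rw [mem_Icc] at hp
  have hd : p ∣ z.factorial := Nat.dvd_factorial (by omega) hp.2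
  constructor
  · rintro ⟨h1, h2⟩
    exact ⟨h1, (Nat.dvd_mod_iff hd).1 h2⟩
  · rintro ⟨h1, h2⟩
    exact ⟨h1, (Nat.dvd_mod_iff hd).2 h2⟩

/-- Weierstrass product inequality. -/
lemma one_sub_sum_le_prod (T : Finset ℕ) (f : ℕ → ℝ) (hf : ∀ i ∈ T, 0 ≤ f i ∧ f i ≤ 1) :
    1 - ∑ i ∈ T, f i ≤ ∏ i ∈ T, (1 - f i) := by
  induction T using Finset.induction_on with
  | empty => simp
  | insert a T ha ih =>
    rw [Finset.sum_insert ha, Finset.prod_insert ha]
    have h1 := ih (fun i hi => hf i (mem_insert_of_mem hi))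
    have h2 := hf a (mem_insert_self a T)
    have h3 : 0 ≤ ∑ i ∈ T, f i := Finset.sum_nonneg (fun i hi => (hf i (mem_insert_of_mem hi)).1)
    nlinarith [mul_le_mul_of_nonneg_left h1 (by linarith : 0 ≤ 1 - f a)]

lemma totient_eq (n : ℕ) : (Nat.totient n : ℝ) = n * ∏ p ∈ n.primeFactors, (1 - (1 : ℝ) / p) := by
  have h := Nat.totient_eq_mul_prod_factors n
  have h2 : ((Nat.totient n : ℚ) : ℝ) = ((n * ∏ p ∈ n.primeFactors, (1 - (p : ℚ)⁻¹) : ℚ) : ℝ) := by
    rw [h]
  push_cast at h2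
  rw [h2]
  simp only [one_div]

lemma prod_split (z n : ℕ) (hn : n ≠ 0) : ∏ p ∈ n.primeFactors, (1 - (1 : ℝ) / p) =
    h z n * ∏ p ∈ n.primeFactors.filter (fun p => z < p), (1 - (1 : ℝ) / p) := by
  rw [← Finset.prod_filter_mul_prod_filter_not n.primeFactors (fun p => z < p), mul_comm]
  congr 1
  unfold h
  apply Finset.prod_congr _ (fun _ _ => rfl)
  ext p
  simp only [mem_filter, Nat.mem_primeFactors, mem_Icc, not_lt]
  constructor
  · rintro ⟨⟨h1, h2, h3⟩, h4⟩
    exact ⟨⟨h1.one_le, h4⟩, h1, h2⟩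
  · rintro ⟨⟨h1, h2⟩, h3, h4⟩
    exact ⟨⟨h3, h4, hn⟩, h2⟩

/-- `φ(n) ≤ n h(n) ≤ φ(n) + n s(n)`. -/
lemma h_bounds (z n : ℕ) : (Nat.totient n : ℝ) ≤ n * h z n ∧ n * h z n ≤ Nat.totient n + n * s z n := by
  rcases Nat.eq_zero_or_pos n with h0 | h0
  · subst h0; simp
  have hn : (0 : ℝ) ≤ n := Nat.cast_nonneg n
  rw [totient_eq n, prod_split z n h0.ne']
  have hp : ∀ p ∈ n.primeFactors.filter (fun p => z < p), 0 ≤ 1 - (1 : ℝ) / p ∧ 1 - (1 : ℝ) / p ≤ 1 := by
    intro p hp
    rw [mem_filter] at hp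
    exact one_sub_nonneg (Nat.prime_of_mem_primeFactors hp.1)
  set P := ∏ p ∈ n.primeFactors.filter (fun p => z < p), (1 - (1 : ℝ) / p) with hP
  have hP1 : P ≤ 1 := Finset.prod_le_one (fun p hp' => (hp p hp').1) (fun p hp' => (hp p hp').2)
  have hP2 : 1 - s z n ≤ P := by
    unfold s
    refine one_sub_sum_le_prod _ _ (fun i hi => ?_)
    have := hp i hi
    constructor <;> linarith [this.1, this.2]
  have h1 := h_nonneg z n
  have h2 := h_le_one z n
  have h3 := s_nonneg z n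
  constructor
  · have : h z n * P ≤ h z n := by nlinarith
    exact mul_le_mul_of_nonneg_left this hn
  · have : h z n ≤ h z n * P + s z n := by nlinarith
    calc (n : ℝ) * h z n ≤ n * (h z n * P + s z n) := mul_le_mul_of_nonneg_left this hn
      _ = n * (h z n * P) + n * s z n := by ring

/-- Telescoping bound for `∑ 1/m²`. -/
lemma sum_sq_le (z N : ℕ) (hz : 1 ≤ z) : ∑ m ∈ Finset.Ioc z N, (1 : ℝ) / (m : ℝ) ^ 2 ≤ 1 / z := by
  have hz0 : (0 : ℝ) < z := by exact_mod_cast hz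
  rcases Nat.lt_or_ge N z with h | h
  · rw [Finset.Ioc_eq_empty (by omega)]
    simp
  have key : ∀ N : ℕ, z ≤ N → ∑ m ∈ Finset.Ioc z N, (1 : ℝ) / (m : ℝ) ^ 2 ≤ 1 / z - 1 / N := by
    intro N hN
    induction N, hN using Nat.le_induction with
    | base => simp
    | succ N hN ih =>
      rw [Finset.sum_Ioc_succ_top hN]
      have hN0 : (0 : ℝ) < N := by exact_mod_cast (by omega : 0 < N)
      have : (1 : ℝ) / ((N + 1 : ℕ) : ℝ) ^ 2 ≤ 1 / N - 1 / ((N + 1 : ℕ) : ℝ) := by
        push_cast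
        rw [div_sub_div _ _ (by positivity) (by positivity), div_le_div_iff₀ (by positivity) (by positivity)]
        nlinarith
      linarith
  have := key N h
  have h2 : (0 : ℝ) ≤ 1 / (N : ℝ) := by positivity
  linarith

/-- The mean value of `s z` on `{1, ..., N}` is at most `1 / z`. -/
lemma sum_s_le (z N : ℕ) (hz : 1 ≤ z) : ∑ n ∈ Finset.Icc 1 N, s z n ≤ N / z := by
  have h1 : ∑ n ∈ Finset.Icc 1 N, s z n ≤
      ∑ n ∈ Finset.Icc 1 N, ∑ m ∈ Finset.Ioc z N, if m ∣ n then (1 : ℝ) / m else 0 := by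
    apply Finset.sum_le_sum
    intro n hn
    rw [mem_Icc] at hn
    unfold s
    rw [← Finset.sum_filter]
    apply Finset.sum_le_sum_of_subset_of_nonneg
    · intro p hp
      rw [mem_filter, Nat.mem_primeFactors] at hp
      rw [mem_filter, mem_Ioc]
      exact ⟨⟨hp.2, (Nat.le_of_dvd (by omega) hp.1.2.1).trans hn.2⟩, hp.1.2.1⟩
    · intro i _ _
      positivity
  refine h1.trans ?_
  rw [Finset.sum_comm]
  have h2 : ∀ m ∈ Finset.Ioc z N, ∑ n ∈ Finset.Icc 1 N, (if m ∣ n then (1 : ℝ) / m else 0) ≤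
      N * (1 / (m : ℝ) ^ 2) := by
    intro m hm
    rw [mem_Ioc] at hm
    rw [← Finset.sum_filter, Finset.sum_const, nsmul_eq_mul]
    have hm0 : (0 : ℝ) < m := by exact_mod_cast (by omega : 0 < m)
    have h3 : ((Finset.Icc 1 N).filter (fun n => m ∣ n)).card = N / m := by
      have := Nat.Ioc_filter_dvd_card_eq_div N m
      rw [← this]
      congr 1
    rw [h3]
    have h4 : ((N / m : ℕ) : ℝ) ≤ N / m := Nat.cast_div_le
    calc ((N / m : ℕ) : ℝ) * (1 / m) ≤ (N / m) * (1 / m) := mul_le_mul_of_nonneg_right h4 (by positivity)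
      _ = N * (1 / (m : ℝ) ^ 2) := by field_simp
  refine (Finset.sum_le_sum h2).trans ?_
  rw [← Finset.mul_sum]
  have h5 := sum_sq_le z N hz
  have h6 : (0 : ℝ) ≤ N := Nat.cast_nonneg N
  calc (N : ℝ) * ∑ m ∈ Finset.Ioc z N, 1 / (m : ℝ) ^ 2 ≤ N * (1 / z) := mul_le_mul_of_nonneg_left h5 h6
    _ = N / z := by ring

/-- Markov: at most `N / (z δ)` integers `n ≤ N` have `s z n > δ`. -/
lemma card_s_gt (z N : ℕ) (hz : 1 ≤ z) (δ : ℝ) (hδ : 0 < δ) :
    (((Finset.Icc 1 N).filter (fun n => δ < s z n)).card : ℝ) ≤ N / (z * δ) := by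
  have h1 : δ * (((Finset.Icc 1 N).filter (fun n => δ < s z n)).card : ℝ) ≤ N / z := by
    calc δ * (((Finset.Icc 1 N).filter (fun n => δ < s z n)).card : ℝ)
        = ∑ n ∈ (Finset.Icc 1 N).filter (fun n => δ < s z n), δ := by
          rw [Finset.sum_const, nsmul_eq_mul]; ring
      _ ≤ ∑ n ∈ (Finset.Icc 1 N).filter (fun n => δ < s z n), s z n := by
          apply Finset.sum_le_sum
          intro n hn
          rw [mem_filter] at hn
          exact hn.2.le
      _ ≤ ∑ n ∈ Finset.Icc 1 N, s z n := by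
          apply Finset.sum_le_sum_of_subset_of_nonneg (Finset.filter_subset _ _)
          intro i _ _
          exact s_nonneg z i
      _ ≤ N / z := sum_s_le z N hz
  have hz0 : (0 : ℝ) < z := by exact_mod_cast hz
  rw [le_div_iff₀ (by positivity)]
  rw [le_div_iff₀ hz0] at h1
  nlinarith

/-- A finite set of integers in one residue class mod `M` inside a real interval of length `L`. -/
lemma card_class (S : Finset ℕ) (M r : ℕ) (hM : 0 < M) (a L : ℝ) (hL : 0 ≤ L)
    (hS : ∀ n ∈ S, n % M = r ∧ a < n ∧ (n : ℝ) < a + L) : (S.card : ℝ) ≤ L / M + 1 := by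
  rcases S.eq_empty_or_nonempty with h0 | hne
  · subst h0
    simp
    have : (0 : ℝ) ≤ L / M := by positivity
    linarith
  have hM0 : (0 : ℝ) < M := by exact_mod_cast hM
  obtain ⟨m0, hm0, hmin⟩ : ∃ m ∈ S, ∀ n ∈ S, m ≤ n := ⟨S.min' hne, S.min'_mem hne, fun n hn => S.min'_le n hn⟩
  have hcard : S.card ≤ (Finset.range (⌊L / M⌋₊ + 1)).card := by
    apply Finset.card_le_card_of_injOn (fun n => (n - m0) / M)
    · intro n hn
      have hn' : n ∈ S := hn
      simp only [coe_range, Set.mem_Iio]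
      have h1 := hmin n hn'
      have h2 : (((n - m0) / M : ℕ) : ℝ) ≤ L / M := by
        have h3 : (((n - m0) / M : ℕ) : ℝ) ≤ ((n - m0 : ℕ) : ℝ) / M := Nat.cast_div_le
        refine h3.trans ?_
        apply div_le_div_of_nonneg_right _ hM0.le
        rw [Nat.cast_sub h1]
        have := (hS n hn').2.2
        have := (hS m0 hm0).2.1
        linarith
      have h4 : (n - m0) / M ≤ ⌊L / M⌋₊ := Nat.le_floor h2
      exact Nat.lt_succ_of_le h4
    · intro n hn n' hn' heq
      have hn1 : n ∈ S := hn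
      have hn2 : n' ∈ S := hn'
      simp only at heq
      have e1 : M ∣ n - m0 := (Nat.modEq_iff_dvd' (hmin n hn1)).1 (by
        unfold Nat.ModEq; rw [(hS n hn1).1, (hS m0 hm0).1])
      have e2 : M ∣ n' - m0 := (Nat.modEq_iff_dvd' (hmin n' hn2)).1 (by
        unfold Nat.ModEq; rw [(hS n' hn2).1, (hS m0 hm0).1])
      have e3 := Nat.div_mul_cancel e1
      have e4 := Nat.div_mul_cancel e2
      rw [heq] at e3
      have := hmin n hn1
      have := hmin n' hn2
      omega
  rw [Finset.card_range] at hcard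
  have h5 : ((S.card : ℕ) : ℝ) ≤ ((⌊L / M⌋₊ + 1 : ℕ) : ℝ) := by exact_mod_cast hcard
  push_cast at h5
  have h6 : ((⌊L / M⌋₊ : ℕ) : ℝ) ≤ L / M := Nat.floor_le (by positivity)
  linarith

/-- The set of the `n` with `n + φ(n)` in the open interval `(x, x + y)`. -/
def W (x : ℕ) (y : ℝ) : Set ℕ := {n : ℕ | (x : ℝ) < (n : ℝ) + (Nat.totient n : ℝ) ∧
              (n : ℝ) + (Nat.totient n : ℝ) < (x : ℝ) + y}

lemma W_subset (x : ℕ) (y : ℝ) (hy : y ≤ x) : W x y ⊆ (Finset.Icc 1 (2 * x) : Finset ℕ) := by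
  intro n hn
  obtain ⟨h1, h2⟩ := hn
  simp only [coe_Icc, Set.mem_Icc]
  have h3 : (0 : ℝ) ≤ (Nat.totient n : ℝ) := Nat.cast_nonneg _
  constructor
  · by_contra h
    have : n = 0 := by omega
    subst this
    simp at h1
    have : (0 : ℝ) ≤ x := Nat.cast_nonneg x
    linarith
  · have : (n : ℝ) < 2 * x := by linarith
    exact_mod_cast this.le

/-- **Main counting bound.** -/
lemma main_count (ε : ℝ) (hε : 0 < ε) (hε1 : ε ≤ 1) : ∃ x₀ : ℕ, ∀ x : ℕ, x₀ ≤ x →
    ((W x (ε * x)).ncard : ℝ) ≤ 6 * ε * x := by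
  obtain ⟨z, hz1, hz⟩ : ∃ z : ℕ, 1 ≤ z ∧ 2 / ε ^ 2 ≤ z := by
    obtain ⟨z, hz⟩ := exists_nat_ge (2 / ε ^ 2)
    refine ⟨max 1 z, le_max_left _ _, hz.trans ?_⟩
    exact_mod_cast le_max_right 1 z
  set M := z.factorial with hM
  have hM0 : 0 < M := Nat.factorial_pos z
  have hM0' : (0 : ℝ) < M := by exact_mod_cast hM0
  have hz0 : (0 : ℝ) < z := by exact_mod_cast hz1
  obtain ⟨x₀, hx₀⟩ := exists_nat_ge (M / ε)
  refine ⟨x₀, fun x hx => ?_⟩
  have hxM : (M : ℝ) ≤ ε * x := by
    have : (x₀ : ℝ) ≤ x := by exact_mod_cast hx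
    have h2 : M / ε ≤ x := hx₀.trans this
    rw [div_le_iff₀ hε] at h2
    linarith
  have hx0 : (0 : ℝ) ≤ x := Nat.cast_nonneg x
  have hεx : ε * x ≤ x := by nlinarith
  have hsub := W_subset x (ε * x) hεx
  -- the exceptional set
  set E := (Finset.Icc 1 (2 * x)).filter (fun n => ε < s z n) with hE
  -- the class sets
  set G : ℕ → Finset ℕ := fun r => (Finset.Icc 1 (2 * x)).filter
    (fun n => n % M = r ∧ (x : ℝ) / (1 + h z r) < n ∧ (n : ℝ) < x / (1 + h z r) + 3 * ε * x) with hG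
  have hcover : W x (ε * x) ⊆ ((E ∪ (Finset.range M).biUnion G : Finset ℕ) : Set ℕ) := by
    intro n hn
    have hn1 := hsub hn
    simp only [coe_Icc, Set.mem_Icc] at hn1
    rw [Finset.mem_coe, Finset.mem_union]
    by_cases hs : ε < s z n
    · left
      rw [hE, mem_filter, mem_Icc]
      exact ⟨hn1, hs⟩
    · right
      push Not at hs
      rw [Finset.mem_biUnion]
      refine ⟨n % M, Finset.mem_range.2 (Nat.mod_lt _ hM0), ?_⟩
      rw [hG]
      simp only [mem_filter, mem_Icc, true_and]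
      obtain ⟨h1, h2⟩ := hn
      have hb := h_bounds z n
      have hmod : h z (n % M) = h z n := h_mod z n
      rw [hmod]
      have h3 := h_nonneg z n
      have hn0 : (0 : ℝ) ≤ n := Nat.cast_nonneg n
      have hn2 : (n : ℝ) ≤ 2 * x := by exact_mod_cast hn1.2
      refine ⟨hn1, ?_, ?_⟩
      · rw [div_lt_iff₀ (by linarith)]
        nlinarith [hb.1]
      · have h4 : (n : ℝ) * (1 + h z n) < x + 3 * ε * x := by
          have h5 : (n : ℝ) * s z n ≤ 2 * x * ε := by
            apply mul_le_mul hn2 hs (s_nonneg z n) (by positivity)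
          nlinarith [hb.2]
        have h6 : (n : ℝ) < (x + 3 * ε * x) / (1 + h z n) := by
          rw [lt_div_iff₀ (by linarith)]
          exact h4
        refine h6.trans_le ?_
        rw [add_div]
        have h7 : 3 * ε * x / (1 + h z n) ≤ 3 * ε * x := by
          apply div_le_self (by positivity)
          linarith
        linarith
  have hcard : ((W x (ε * x)).ncard : ℝ) ≤ (E.card : ℝ) + ∑ r ∈ Finset.range M, ((G r).card : ℝ) := by
    have h1 : (W x (ε * x)).ncard ≤ (E ∪ (Finset.range M).biUnion G).card := by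
      rw [← Set.ncard_coe_finset]
      exact Set.ncard_le_ncard hcover (Finset.finite_toSet _)
    have h2 : (E ∪ (Finset.range M).biUnion G).card ≤ E.card + ∑ r ∈ Finset.range M, (G r).card :=
      (Finset.card_union_le _ _).trans (Nat.add_le_add_left Finset.card_biUnion_le _)
    exact_mod_cast h1.trans h2
  have hEc : (E.card : ℝ) ≤ ε * x := by
    have h1 := card_s_gt z (2 * x) hz1 ε hε
    refine h1.trans ?_
    push_cast
    rw [div_le_iff₀ (by positivity)]
    have h2 : 2 ≤ ε ^ 2 * z := by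
      rw [div_le_iff₀ (by positivity)] at hz
      linarith
    nlinarith
  have hGc : ∀ r ∈ Finset.range M, ((G r).card : ℝ) ≤ 3 * ε * x / M + 1 := by
    intro r _
    apply card_class (G r) M r hM0 (x / (1 + h z r)) (3 * ε * x) (by positivity)
    intro n hn
    rw [hG] at hn
    simp only [mem_filter] at hn
    exact hn.2
  have hsum : ∑ r ∈ Finset.range M, ((G r).card : ℝ) ≤ 3 * ε * x + M := by
    refine (Finset.sum_le_sum hGc).trans ?_
    rw [Finset.sum_const, Finset.card_range, nsmul_eq_mul]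
    have : (M : ℝ) * (3 * ε * x / M + 1) = 3 * ε * x + M := by
      field_simp
    linarith
  linarith

end Pool.Agent.R499.PhiShift
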